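import Mathlib

/-!
# Diagonals and kernels: definitions
-/

namespace Pool.Agent.Lib.MPba1bba.TR

/-- The `2`-kernel of a sequence: all the sequences `n ↦ a (2 ^ k * n + r)`, `r < 2 ^ k`. -/
def ker2 {α : Type} (a : ℕ → α) : Set (ℕ → α) :=
  {f | ∃ k r : ℕ, r < 2 ^ k ∧ ∀ n, f n = a (2 ^ k * n + r)}

/-- The diagonal of a power series `F` in `d` variables: the coefficients of the monomials
`(x_1 ⋯ x_d) ^ n`. -/
noncomputable def diag {R : Type} [CommRing R] {d : ℕ} (F : MvPowerSeries (Fin d) R) (n : ℕ) : R :=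
  MvPowerSeries.coeff (Finsupp.equivFunOnFinite.symm fun _ => n) F

/-- `F` is a rational function. -/
def IsRational {R : Type} [CommRing R] {d : ℕ} (F : MvPowerSeries (Fin d) R) : Prop :=
  ∃ P Q : MvPolynomial (Fin d) R, Q ≠ 0 ∧ (Q : MvPowerSeries (Fin d) R) * F = P

end Pool.Agent.Lib.MPba1bba.TR
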