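import Pool.Agent.Lib.MP_ba1bba_al.TR.Spec

section
/-!
# The growth series of `B(2,4)` is transcendental: module AL
-/
namespace Pool.Agent.Lib.MPba1bba.TR

open Polynomial

theorem specAL : SpecAL := by
  intro A B C' D s h hC he hs
  have h1 : IsAlgebraic P2 (algebraMap P2 S2 D * s) := (isAlgebraic_algebraMap D).mul hs
  have h2 : aeval h (C A + C B * X + C C' * X ^ 2 : Polynomial P2) = algebraMap P2 S2 D * s := by
    rw [he]
    simp only [map_add, map_mul, map_pow, aeval_C, aeval_X]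
  have h3 : (C A + C B * X + C C' * X ^ 2 : Polynomial P2).natDegree = 2 := by
    rw [show (C A + C B * X + C C' * X ^ 2 : Polynomial P2) = C C' * X ^ 2 + C B * X + C A by ring]
    exact natDegree_quadratic hC
  refine IsAlgebraic.of_aeval (C A + C B * X + C C' * X ^ 2 : Polynomial P2) ?_ ?_ ?_
  · rw [h3]
    norm_num
  · refine mem_nonZeroDivisors_of_ne_zero (leadingCoeff_ne_zero.2 fun h0 => ?_)
    rw [h0, natDegree_zero] at h3
    norm_num at h3
  · rw [h2]
    exact h1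

end Pool.Agent.Lib.MPba1bba.TR
end

section
/-!
# MP_ba1bba_al, TR, module IN: linear independence of the Frobenius twists
-/
set_option autoImplicit false

namespace Pool.Agent.Lib.MPba1bba.TR

open Polynomial

namespace INM

theorem two_zero : (2 : S2) = 0 := by
  have e : (2 : S2) = PowerSeries.C (2 : ZMod 2) := by rw [map_ofNat]
  have h2 : (2 : ZMod 2) = 0 := rfl
  rw [e, h2, map_zero]

theorem coeff_sq (n : ℕ) : ∀ f : S2,
    PowerSeries.coeff n (f ^ 2) = if Even n then PowerSeries.coeff (n / 2) f else 0 := by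
  induction n using Nat.strong_induction_on with
  | _ n ih =>
    intro f
    have hf := PowerSeries.eq_X_mul_shift_add_const f
    set g : S2 := PowerSeries.mk fun i => PowerSeries.coeff (i + 1) f with hg
    set a := PowerSeries.constantCoeff f with ha
    have h1 : f ^ 2 = PowerSeries.X ^ 2 * g ^ 2 + PowerSeries.C (a ^ 2) := by
      rw [map_pow]
      conv_lhs => rw [hf]
      linear_combination (PowerSeries.X * g * PowerSeries.C a) * two_zero
    have ha2 : a ^ 2 = a := by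
      generalize a = x
      revert x
      decide
    rw [h1, map_add, PowerSeries.coeff_X_pow_mul', PowerSeries.coeff_C]
    rcases n with _ | _ | n
    · simp [ha]
    · simp
    · rw [if_pos (by omega), if_neg (by omega), add_zero, show n + 1 + 1 - 2 = n by omega,
        ih n (by omega) g]
      have h2 : Even (n + 1 + 1) ↔ Even n := by
        rw [show n + 1 + 1 = n + 2 by omega, Nat.even_add]
        simp
      simp only [h2]
      split_ifs
      · rw [hg, PowerSeries.coeff_mk, show (n + 1 + 1) / 2 = n / 2 + 1 by omega]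
      · rfl

theorem coeff_pw (i : ℕ) : ∀ (n : ℕ) (f : S2), PowerSeries.coeff n (f ^ (2 ^ i)) =
    if 2 ^ i ∣ n then PowerSeries.coeff (n / 2 ^ i) f else 0 := by
  induction i with
  | zero => intro n f; simp
  | succ i ih =>
    intro n f
    rw [pow_succ, pow_mul, coeff_sq]
    by_cases hn : Even n
    · obtain ⟨k, rfl⟩ := hn
      rw [← two_mul, if_pos (even_two_mul k), Nat.mul_div_cancel_left _ two_pos, ih,
        mul_comm (2 ^ i) 2]
      have h1 : 2 * 2 ^ i ∣ 2 * k ↔ 2 ^ i ∣ k := Nat.mul_dvd_mul_iff_left two_pos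
      simp only [h1]
      rw [Nat.mul_div_mul_left _ _ two_pos]
    · rw [if_neg hn, if_neg]
      intro h
      exact hn (even_iff_two_dvd.2 ((Dvd.intro_left _ rfl).trans h))

theorem pw_zero (f : S2) (i t : ℕ) (h : ∀ t' < t, PowerSeries.coeff t' f = 0) (b : ℕ)
    (hb : b < t * 2 ^ i) : PowerSeries.coeff b (f ^ (2 ^ i)) = 0 := by
  rw [coeff_pw]
  split_ifs with h1
  · exact h _ ((Nat.div_lt_iff_lt_mul (by positivity)).2 hb)
  · rfl

theorem pw_val (f : S2) (i k : ℕ) :
    PowerSeries.coeff (k * 2 ^ i) (f ^ (2 ^ i)) = PowerSeries.coeff k f := by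
  rw [coeff_pw, if_pos (Dvd.intro_left _ rfl), Nat.mul_div_cancel _ (by positivity)]

theorem coeff_alg (p : P2) (a : ℕ) : PowerSeries.coeff a (algebraMap P2 S2 p) = p.coeff a := by
  simp [PowerSeries.algebraMap_apply']

theorem ne_one (x : ZMod 2) (h : x ≠ 0) : x = 1 := by
  revert x
  decide

end INM

open INM

/-- **IN** -/
theorem specIN (hGR : SpecGR) : SpecIN := by
  classical
  intro μ hμ s N b c hb hc hne
  by_cases hall : ∀ i j, c i j = 0
  · obtain ⟨m, hm⟩ : ∃ j, b j ≠ 0 := by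
      rcases hne with h | ⟨i, j, h⟩
      · exact h
      · exact absurd (hall i j) h
    refine ⟨m, ?_⟩
    simp only [hall, map_zero, zero_mul, Finset.sum_const_zero, add_zero]
    intro h
    apply hm
    ext a
    rw [← coeff_alg, h, map_zero, coeff_zero]
  · have hex : ∃ i : ℕ, ∃ h : i < s, ∃ j, c ⟨i, h⟩ j ≠ 0 := by
      by_contra hcon
      apply hall
      intro i j
      by_contra hij
      exact hcon ⟨i.1, i.2, j, hij⟩
    obtain ⟨his, j₁, hj₁⟩ := Nat.find_spec hex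
    set i₀ := Nat.find hex with hi₀
    have hmin : ∀ i : Fin s, i.1 < i₀ → ∀ j, c i j = 0 := by
      intro i hi j
      by_contra hij
      exact Nat.find_min hex hi ⟨i.2, j, hij⟩
    have hex2 : ∃ e : ℕ, ∃ j, (c ⟨i₀, his⟩ j).coeff e ≠ 0 := by
      by_contra hcon
      apply hj₁
      ext e
      rw [coeff_zero]
      by_contra h
      exact hcon ⟨e, j₁, h⟩
    obtain ⟨j₂, hj₂⟩ := Nat.find_spec hex2
    set e := Nat.find hex2 with he
    have hemin : ∀ a < e, ∀ j, (c ⟨i₀, his⟩ j).coeff a = 0 := by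
      intro a ha j
      by_contra h
      exact Nat.find_min hex2 ha ⟨j, h⟩
    have hjN : ∀ j, (c ⟨i₀, his⟩ j).coeff e ≠ 0 → j ≤ N := by
      intro j hj
      by_contra h
      rw [hc _ j (by omega), coeff_zero] at hj
      exact hj rfl
    obtain ⟨j₀, hj₀, hmax⟩ := Finset.exists_max_image
      ((Finset.range (N + 1)).filter fun j => (c ⟨i₀, his⟩ j).coeff e ≠ 0) id
      ⟨j₂, Finset.mem_filter.2 ⟨Finset.mem_range.2 (by have := hjN j₂ hj₂; omega), hj₂⟩⟩
    rw [Finset.mem_filter] at hj₀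
    have hjmax : ∀ j, j₀ < j → (c ⟨i₀, his⟩ j).coeff e = 0 := by
      intro j hj
      by_contra h
      have := hmax j (Finset.mem_filter.2 ⟨Finset.mem_range.2 (by have := hjN j h; omega), h⟩)
      simp only [id] at this
      omega
    obtain ⟨K, hK⟩ : ∃ K : ℕ, K = e + N + 1 := ⟨_, rfl⟩
    obtain ⟨k, hk⟩ : ∃ k : ℕ, k = 2 * K := ⟨_, rfl⟩
    have hN2 : N < 2 ^ N := Nat.lt_two_pow_self
    have hp0 : 2 ^ (N + 2) ≤ 2 ^ k := Nat.pow_le_pow_right two_pos (by omega)
    have hp1 : N + 4 ≤ 2 ^ k := by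
      have h4 : 2 ^ (N + 2) = 4 * 2 ^ N := by ring
      omega
    have hp2 : 2 ^ (e + K + 1) ≤ 2 ^ k := Nat.pow_le_pow_right two_pos (by omega)
    have hp3 : 2 ^ (k + 1) = 2 * 2 ^ k := by rw [pow_succ, mul_comm]
    have hgr := hGR μ hμ
    have hzero : ∀ t y : ℕ, 2 ^ (t + 1) - 2 < y → PowerSeries.coeff t (μ y) = 0 :=
      fun t y h => (hgr t).1 y h
    -- the indices
    obtain ⟨w, hw⟩ : ∃ w : ℕ, w = 2 ^ (k + 1) - 2 := ⟨_, rfl⟩
    have hw1 : PowerSeries.coeff k (μ w) = 1 := by rw [hw]; exact (hgr k).2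
    have hsmall : ∀ t < k, ∀ y, w ≤ y + N → PowerSeries.coeff t (μ y) = 0 := by
      intro t ht y hy
      apply hzero
      have h1 : 2 ^ (t + 1) ≤ 2 ^ k := Nat.pow_le_pow_right two_pos (by omega)
      omega
    have hsmall2 : ∀ t < e + K + 1, ∀ y, w ≤ y + N → PowerSeries.coeff t (μ y) = 0 := by
      intro t ht y hy
      apply hzero
      have h1 : 2 ^ (t + 1) ≤ 2 ^ (e + K + 1) := Nat.pow_le_pow_right two_pos (by omega)
      omega
    refine ⟨j₀ + w, fun hcon => ?_⟩
    have hcoef := congrArg (PowerSeries.coeff (e + k * 2 ^ i₀)) hcon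
    have hbm : b (j₀ + w) = 0 := by
      apply hb
      omega
    rw [hbm, map_zero, zero_add, map_zero, map_sum] at hcoef
    -- all terms with `i ≠ i₀` vanish
    have hA : ∀ i : Fin s, i ≠ ⟨i₀, his⟩ → PowerSeries.coeff (e + k * 2 ^ i₀)
        (∑ x ∈ Finset.HasAntidiagonal.antidiagonal (j₀ + w),
          algebraMap P2 S2 (c i x.1) * (μ x.2) ^ (2 ^ (i : ℕ))) = 0 := by
      intro i hi
      rw [map_sum]
      refine Finset.sum_eq_zero fun x hx => ?_
      have hx' := Finset.HasAntidiagonal.mem_antidiagonal.1 hx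
      rcases lt_or_gt_of_ne (fun h => hi (Fin.ext h) : i.1 ≠ i₀) with h | h
      · rw [hmin i h, map_zero, zero_mul, map_zero]
      · by_cases hxN : N < x.1
        · rw [hc i x.1 hxN, map_zero, zero_mul, map_zero]
        · rw [PowerSeries.coeff_mul]
          refine Finset.sum_eq_zero fun y hy => ?_
          have hy' := Finset.HasAntidiagonal.mem_antidiagonal.1 hy
          have h1 : 2 * 2 ^ i₀ ≤ 2 ^ (i : ℕ) := by
            rw [← pow_succ']
            exact Nat.pow_le_pow_right two_pos h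
          have h2 : 0 < 2 ^ i₀ := by positivity
          have h3 : y.2 < (e + K + 1) * 2 ^ (i : ℕ) := by
            have h4 : (e + K + 1) * (2 * 2 ^ i₀) ≤ (e + K + 1) * 2 ^ (i : ℕ) :=
              Nat.mul_le_mul_left _ h1
            have h5 : e + k * 2 ^ i₀ < (e + K + 1) * (2 * 2 ^ i₀) := by
              rw [hk]
              nlinarith
            omega
          rw [pw_zero (μ x.2) i (e + K + 1) (fun t ht => hsmall2 t ht x.2 (by omega)) y.2 h3,
            mul_zero]
    rw [Finset.sum_eq_single (⟨i₀, his⟩ : Fin s) (fun i _ hi => hA i hi)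
      (fun h => absurd (Finset.mem_univ _) h), map_sum] at hcoef
    -- the terms with `j ≠ j₀` vanish
    have hB : ∀ x ∈ Finset.HasAntidiagonal.antidiagonal (j₀ + w), x ≠ (j₀, w) →
        PowerSeries.coeff (e + k * 2 ^ i₀)
          (algebraMap P2 S2 (c ⟨i₀, his⟩ x.1) * (μ x.2) ^ (2 ^ i₀)) = 0 := by
      intro x hx hne'
      have hx' := Finset.HasAntidiagonal.mem_antidiagonal.1 hx
      by_cases hxN : N < x.1
      · rw [hc _ x.1 hxN, map_zero, zero_mul, map_zero]
      · rw [PowerSeries.coeff_mul]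
        refine Finset.sum_eq_zero fun y hy => ?_
        have hy' := Finset.HasAntidiagonal.mem_antidiagonal.1 hy
        rcases lt_trichotomy y.1 e with h | h | h
        · rw [coeff_alg, hemin y.1 h, zero_mul]
        · have h2 : y.2 = k * 2 ^ i₀ := by omega
          rw [h2, pw_val, coeff_alg, h]
          rcases lt_trichotomy x.1 j₀ with h3 | h3 | h3
          · rw [hzero k x.2 (by omega), mul_zero]
          · exfalso
            apply hne'
            ext
            · exact h3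
            · change x.2 = w
              omega
          · rw [hjmax x.1 h3, zero_mul]
        · rw [pw_zero (μ x.2) i₀ k (fun t ht => hsmall t ht x.2 (by omega)) y.2 (by omega),
            mul_zero]
    have hC : PowerSeries.coeff (e + k * 2 ^ i₀)
        (algebraMap P2 S2 (c ⟨i₀, his⟩ j₀) * (μ w) ^ (2 ^ i₀)) = 1 := by
      rw [PowerSeries.coeff_mul, Finset.sum_eq_single (e, k * 2 ^ i₀)]
      · rw [pw_val, coeff_alg, hw1, mul_one]
        exact ne_one _ hj₀.2
      · intro y hy hne'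
        have hy' := Finset.HasAntidiagonal.mem_antidiagonal.1 hy
        rcases lt_trichotomy y.1 e with h | h | h
        · rw [coeff_alg, hemin y.1 h, zero_mul]
        · exfalso
          apply hne'
          ext
          · exact h
          · change y.2 = k * 2 ^ i₀
            omega
        · rw [pw_zero (μ w) i₀ k (fun t ht => hsmall t ht w (by omega)) y.2 (by omega), mul_zero]
      · intro h
        have h9 : (e, k * 2 ^ i₀) ∈ Finset.HasAntidiagonal.antidiagonal (e + k * 2 ^ i₀) :=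
          Finset.HasAntidiagonal.mem_antidiagonal.2 rfl
        exact absurd h9 h
    have h10 : (j₀, w) ∈ Finset.HasAntidiagonal.antidiagonal (j₀ + w) :=
      Finset.HasAntidiagonal.mem_antidiagonal.2 rfl
    rw [Finset.sum_eq_single (j₀, w) hB (fun h => absurd h10 h)] at hcoef
    change PowerSeries.coeff (e + k * 2 ^ i₀)
      (algebraMap P2 S2 (c ⟨i₀, his⟩ j₀) * (μ w) ^ (2 ^ i₀)) = 0 at hcoef
    rw [hC] at hcoef
    exact one_ne_zero hcoef

end Pool.Agent.Lib.MPba1bba.TR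
end

section
/-!
# Module EV: elementary facts on `LM`, `ev0`, `ev1`, `dv1`
-/
set_option autoImplicit false

namespace Pool.Agent.Lib.MPba1bba.TR.EVM

open Polynomial

variable {R : Type} [CommRing R]

/-- the image of `u ^ v` -/
noncomputable def im (R : Type) [CommRing R] (v : ℕ) : R[X] :=
  if v = 0 then 1 else X ^ (v / 2) + X ^ ((v - 1) / 2)

theorem lm_def (p : R[X]) : lm p = p.sum fun v a => C a * im R v := rfl

theorem lm_add (p q : R[X]) : lm (p + q) = lm p + lm q := by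
  rw [lm_def, lm_def, lm_def]
  exact Polynomial.sum_add_index p q _ (fun v => by rw [C_0, zero_mul])
    (fun v a b => by rw [C_add, add_mul])

theorem lm_monomial (v : ℕ) (a : R) : lm (monomial v a) = C a * im R v := by
  rw [lm_def, Polynomial.sum_monomial_index]
  rw [C_0, zero_mul]

theorem lm_zero : lm (0 : R[X]) = 0 := by
  rw [lm_def, Polynomial.sum_zero_index]

theorem lm_neg (p : R[X]) : lm (-p) = -lm p := by
  have h := lm_add p (-p)
  rw [add_neg_cancel, lm_zero] at h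
  exact (neg_eq_of_add_eq_zero_right h.symm).symm

theorem lm_one : lm (1 : R[X]) = 1 := by
  have h := lm_monomial (R := R) 0 1
  rw [monomial_zero_left, C_1, one_mul] at h
  rw [h]
  simp [im]

theorem lm_eval (p : R[X]) : (lm p).eval 1 = 2 * p.eval 1 - p.coeff 0 := by
  induction p using Polynomial.induction_on' with
  | add p q hp hq =>
    rw [lm_add, eval_add, hp, hq, eval_add, coeff_add]
    ring
  | monomial v a =>
    rw [lm_monomial, eval_mul, eval_C, eval_monomial, coeff_monomial, one_pow, mul_one]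
    by_cases h : v = 0
    · simp [im, h]
      ring
    · simp [im, h]
      ring

theorem lm_deriv (p : R[X]) :
    (derivative (lm p)).eval 1 = (derivative p).eval 1 - p.eval 1 + p.coeff 0 := by
  induction p using Polynomial.induction_on' with
  | add p q hp hq =>
    rw [lm_add, derivative_add, eval_add, hp, hq, derivative_add, eval_add, eval_add, coeff_add]
    ring
  | monomial v a =>
    rw [lm_monomial, derivative_C_mul, eval_mul, eval_C, derivative_monomial, eval_monomial,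
      eval_monomial, coeff_monomial]
    simp only [one_pow, mul_one]
    by_cases h : v = 0
    · simp [im, h]
    · have h1 : v / 2 + (v - 1) / 2 = v - 1 := by omega
      have h2 : ((v / 2 : ℕ) : R) + (((v - 1) / 2 : ℕ) : R) = v - 1 := by
        have h3 : ((v / 2 + (v - 1) / 2 : ℕ) : R) = ((v - 1 : ℕ) : R) := by rw [h1]
        rw [Nat.cast_add, Nat.cast_sub (by omega), Nat.cast_one] at h3
        exact h3
      rw [im, if_neg h, if_neg h]
      simp only [derivative_add, derivative_X_pow, eval_add, eval_mul, eval_C, eval_pow, eval_X,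
        one_pow, mul_one]
      rw [h2]
      ring

/-- coefficients of `LM F` -/
theorem coeff_up_ev0 (F : PowerSeries R[X]) (n : ℕ) :
    PowerSeries.coeff n (up (ev0 F)) = C ((PowerSeries.coeff n F).coeff 0) := by
  rw [up, PowerSeries.coeff_map, ev0, PowerSeries.coeff_mk]

theorem coeff_corr (F : PowerSeries R[X]) (n : ℕ) :
    PowerSeries.coeff n (zz ^ 2 * uu * up (ev0 F)) =
      if 2 ≤ n then X * C ((PowerSeries.coeff (n - 2) F).coeff 0) else 0 := by
  rw [mul_assoc, PowerSeries.coeff_X_pow_mul']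
  split_ifs
  · rw [uu, PowerSeries.coeff_C_mul, coeff_up_ev0]
  · rfl

theorem coeff_LM (F : PowerSeries R[X]) (n : ℕ) :
    PowerSeries.coeff n (LM F) = lm (PowerSeries.coeff n F) +
      if 2 ≤ n then X * C ((PowerSeries.coeff (n - 2) F).coeff 0) else 0 := by
  rw [LM, map_add, PowerSeries.coeff_mk, coeff_corr]

theorem LM_add (F G : PowerSeries R[X]) : LM (F + G) = LM F + LM G := by
  ext1 n
  rw [map_add, coeff_LM, coeff_LM, coeff_LM, map_add, lm_add, map_add, coeff_add]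
  split_ifs
  · rw [C_add]
    ring
  · ring

theorem LM_zero : LM (0 : PowerSeries R[X]) = 0 := by
  have h := LM_add (0 : PowerSeries R[X]) 0
  rw [add_zero] at h
  exact left_eq_add.mp h

theorem LM_neg (F : PowerSeries R[X]) : LM (-F) = -LM F := by
  have h := LM_add F (-F)
  rw [add_neg_cancel, LM_zero] at h
  exact (neg_eq_of_add_eq_zero_right h.symm).symm

theorem LM_zz (F : PowerSeries R[X]) : LM (zz * F) = zz * LM F := by
  ext1 n
  rw [coeff_LM]
  cases n with
  | zero =>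
    simp [lm_zero]
  | succ n =>
    rw [PowerSeries.coeff_succ_X_mul, PowerSeries.coeff_succ_X_mul, coeff_LM]
    congr 1
    rcases n with _ | _ | n
    · simp
    · simp
    · have h1 : n + 1 + 1 + 1 - 2 = n + 1 := by omega
      have h2 : n + 1 + 1 - 2 = n := by omega
      rw [if_pos (by omega), if_pos (by omega), h1, h2, PowerSeries.coeff_succ_X_mul]

/-- a series with a single coefficient -/
theorem LM_C (p : R[X]) : LM (PowerSeries.C p) = PowerSeries.C (lm p) +
    zz ^ 2 * uu * PowerSeries.C (C (p.coeff 0)) := by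
  ext1 n
  rw [coeff_LM, map_add, mul_assoc, PowerSeries.coeff_X_pow_mul', uu]
  congr 1
  · by_cases hn : n = 0
    · rw [hn, PowerSeries.coeff_C, PowerSeries.coeff_C, if_pos rfl, if_pos rfl]
    · rw [PowerSeries.coeff_C, PowerSeries.coeff_C, if_neg hn, if_neg hn, lm_zero]
  · by_cases h : 2 ≤ n
    · rw [if_pos h, if_pos h, PowerSeries.coeff_C_mul]
      by_cases hn : n - 2 = 0
      · rw [hn, PowerSeries.coeff_C, PowerSeries.coeff_C, if_pos rfl, if_pos rfl]
      · rw [PowerSeries.coeff_C, PowerSeries.coeff_C, if_neg hn, if_neg hn]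
        simp
    · rw [if_neg h, if_neg h]

theorem ev1_add (F G : PowerSeries R[X]) : ev1 (F + G) = ev1 F + ev1 G := by
  ext n
  simp [ev1]

theorem ev0_add (F G : PowerSeries R[X]) : ev0 (F + G) = ev0 F + ev0 G := by
  ext n
  simp [ev0]

theorem dv1_add (F G : PowerSeries R[X]) : dv1 (F + G) = dv1 F + dv1 G := by
  ext n
  simp [dv1]

theorem ev1_mul (F G : PowerSeries R[X]) : ev1 (F * G) = ev1 F * ev1 G := by
  ext n
  simp [ev1, PowerSeries.coeff_mul, eval_finsetSum]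

theorem ev0_mul (F G : PowerSeries R[X]) : ev0 (F * G) = ev0 F * ev0 G := by
  ext n
  simp [ev0, PowerSeries.coeff_mul, mul_coeff_zero]

theorem dv1_mul (F G : PowerSeries R[X]) : dv1 (F * G) = dv1 F * ev1 G + ev1 F * dv1 G := by
  ext n
  simp only [dv1, ev1, PowerSeries.coeff_mk, map_add, PowerSeries.coeff_mul, derivative_sum,
    derivative_mul, eval_finsetSum, eval_add, eval_mul, Finset.sum_add_distrib]

theorem ev1_C (p : R[X]) : ev1 (PowerSeries.C p) = PowerSeries.C (p.eval 1) := by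
  ext n
  rw [ev1, PowerSeries.coeff_mk, PowerSeries.coeff_C, PowerSeries.coeff_C]
  split_ifs <;> simp

theorem ev0_C (p : R[X]) : ev0 (PowerSeries.C p) = PowerSeries.C (p.coeff 0) := by
  ext n
  rw [ev0, PowerSeries.coeff_mk, PowerSeries.coeff_C, PowerSeries.coeff_C]
  split_ifs <;> simp

theorem dv1_C (p : R[X]) : dv1 (PowerSeries.C p) = PowerSeries.C ((derivative p).eval 1) := by
  ext n
  rw [dv1, PowerSeries.coeff_mk, PowerSeries.coeff_C, PowerSeries.coeff_C]
  split_ifs <;> simp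

theorem ev1_zz : ev1 (zz : PowerSeries R[X]) = zz := by
  ext n
  rw [ev1, PowerSeries.coeff_mk, PowerSeries.coeff_X, PowerSeries.coeff_X]
  split_ifs <;> simp

theorem ev0_zz : ev0 (zz : PowerSeries R[X]) = zz := by
  ext n
  rw [ev0, PowerSeries.coeff_mk, PowerSeries.coeff_X, PowerSeries.coeff_X]
  split_ifs <;> simp

theorem dv1_zz : dv1 (zz : PowerSeries R[X]) = 0 := by
  ext n
  rw [dv1, PowerSeries.coeff_mk, PowerSeries.coeff_X]
  split_ifs <;> simp

theorem ev1_one : ev1 (1 : PowerSeries R[X]) = 1 := by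
  have h := ev1_C (1 : R[X])
  rw [map_one, eval_one, map_one] at h
  exact h

theorem ev0_one : ev0 (1 : PowerSeries R[X]) = 1 := by
  have h := ev0_C (1 : R[X])
  rw [map_one, coeff_one_zero, map_one] at h
  exact h

theorem dv1_one : dv1 (1 : PowerSeries R[X]) = 0 := by
  have h := dv1_C (1 : R[X])
  rw [map_one, derivative_one, eval_zero, map_zero] at h
  exact h

/-- the values of `LM F` -/
theorem ev1_LM (F : PowerSeries R[X]) :
    ev1 (LM F) = 2 * ev1 F - (1 - zz ^ 2) * ev0 F := by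
  have h1 : ev1 (zz ^ 2 * uu * up (ev0 F)) = zz ^ 2 * ev0 F := by
    have h2 : ev1 (up (ev0 F)) = ev0 F := by
      ext n
      rw [ev1, PowerSeries.coeff_mk, coeff_up_ev0, eval_C, ev0, PowerSeries.coeff_mk]
    have h3 : ev1 (uu : PowerSeries R[X]) = 1 := by
      rw [uu, ev1_C, eval_X, map_one]
    rw [ev1_mul, ev1_mul, h2, h3, pow_two, ev1_mul, ev1_zz, mul_one, pow_two]
  have h2 : ev1 (PowerSeries.mk fun n => lm (PowerSeries.coeff n F)) = 2 * ev1 F - ev0 F := by
    ext n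
    rw [ev1, PowerSeries.coeff_mk, PowerSeries.coeff_mk, lm_eval, map_sub, two_mul (ev1 F),
      map_add, ev1, PowerSeries.coeff_mk, ev0, PowerSeries.coeff_mk]
    ring
  rw [LM, ev1_add, h1, h2]
  ring

theorem dv1_LM (F : PowerSeries R[X]) :
    dv1 (LM F) = dv1 F - ev1 F + (1 + zz ^ 2) * ev0 F := by
  have h1 : dv1 (zz ^ 2 * uu * up (ev0 F)) = zz ^ 2 * ev0 F := by
    have h2 : ev1 (up (ev0 F)) = ev0 F := by
      ext n
      rw [ev1, PowerSeries.coeff_mk, coeff_up_ev0, eval_C, ev0, PowerSeries.coeff_mk]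
    have h2' : dv1 (up (ev0 F)) = 0 := by
      ext n
      rw [dv1, PowerSeries.coeff_mk, coeff_up_ev0, derivative_C, eval_zero, map_zero]
    have h3 : ev1 (uu : PowerSeries R[X]) = 1 := by
      rw [uu, ev1_C, eval_X, map_one]
    have h3' : dv1 (uu : PowerSeries R[X]) = 1 := by
      rw [uu, dv1_C, derivative_X, eval_one, map_one]
    rw [dv1_mul, dv1_mul, h2, h2', h3, h3', pow_two, dv1_mul, ev1_mul, dv1_zz, ev1_zz]
    ring
  have h2 : dv1 (PowerSeries.mk fun n => lm (PowerSeries.coeff n F)) = dv1 F - ev1 F + ev0 F := by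
    ext n
    rw [dv1, PowerSeries.coeff_mk, PowerSeries.coeff_mk, lm_deriv, map_add, map_sub, dv1,
      PowerSeries.coeff_mk, ev1, PowerSeries.coeff_mk, ev0, PowerSeries.coeff_mk]
  rw [LM, dv1_add, h1, h2]
  ring

end Pool.Agent.Lib.MPba1bba.TR.EVM

namespace Pool.Agent.Lib.MPba1bba.TR

open Polynomial EVM

theorem specEV : SpecEV := by
  intro R _
  refine ⟨LM_add, LM_zz, LM_neg, ?_, ?_, ev1_LM, dv1_LM, ?_, ?_⟩
  · have h := LM_C (1 : R[X])
    rw [lm_one, coeff_one_zero] at h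
    simpa using h
  · intro v hv
    have h := LM_C (X ^ v : R[X])
    have h1 : lm (X ^ v : R[X]) = X ^ (v / 2) + X ^ ((v - 1) / 2) := by
      have h2 := lm_monomial (R := R) v 1
      rw [C_1, one_mul, im, if_neg (by omega), monomial_one_right_eq_X_pow] at h2
      exact h2
    rw [h1, coeff_X_pow, if_neg (by omega), map_zero, map_zero, mul_zero, add_zero, map_pow,
      map_add, map_pow, map_pow] at h
    exact h
  · intro F G
    exact ⟨ev1_add F G, ev1_mul F G, ev0_add F G, ev0_mul F G, dv1_add F G, dv1_mul F G⟩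
  · refine ⟨ev1_one, ev0_one, dv1_one, ev1_zz, ev0_zz, dv1_zz, ?_, ?_, ?_⟩
    · rw [uu, ev1_C, eval_X, map_one]
    · rw [uu, ev0_C, coeff_X_zero, map_zero]
    · rw [uu, dv1_C, derivative_X, eval_one, map_one]

end Pool.Agent.Lib.MPba1bba.TR
end

section
/-!
# Module BA: reduction modulo `2`
-/
set_option autoImplicit false

namespace Pool.Agent.Lib.MPba1bba.TR.BAM

open Polynomial EVM

/-- the reduction of polynomials -/
noncomputable abbrev φ : ℤ[X] →+* (ZMod 2)[X] := Polynomial.mapRingHom (Int.castRingHom (ZMod 2))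

theorem coeff_bar (F : PowerSeries ℤ[X]) (n : ℕ) :
    PowerSeries.coeff n (bar F) = φ (PowerSeries.coeff n F) := by
  rw [bar, PowerSeries.coeff_map]

theorem coeff_bar0 (F : PowerSeries ℤ) (n : ℕ) :
    PowerSeries.coeff n (bar0 F) = ((PowerSeries.coeff n F : ℤ) : ZMod 2) := by
  rw [bar0, PowerSeries.coeff_map]
  rfl

theorem lm_map (p : ℤ[X]) : φ (lm p) = lm (φ p) := by
  induction p using Polynomial.induction_on' with
  | add p q hp hq => rw [lm_add, map_add, hp, hq, map_add, lm_add]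
  | monomial v a =>
    rw [lm_monomial, map_mul]
    have h1 : φ (monomial v a) = monomial v ((a : ℤ) : ZMod 2) := by
      simp
    have h2 : φ (C a) = C ((a : ℤ) : ZMod 2) := by
      simp
    have h3 : φ (im ℤ v) = im (ZMod 2) v := by
      unfold im
      split_ifs <;> simp
    rw [h1, h2, h3, lm_monomial]

theorem two_dvd {p : ℤ[X]} (h : φ p = 0) : ∃ q : ℤ[X], p = 2 * q := by
  have h1 : ∀ k, (2 : ℤ) ∣ p.coeff k := by
    intro k
    have h2 : (φ p).coeff k = 0 := by rw [h, coeff_zero]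
    rw [coe_mapRingHom, coeff_map] at h2
    exact (ZMod.intCast_zmod_eq_zero_iff_dvd (p.coeff k) 2).mp h2
  have h2 : C (2 : ℤ) ∣ p := (C_dvd_iff_dvd_coeff 2 p).mpr h1
  obtain ⟨q, hq⟩ := h2
  exact ⟨q, by rw [hq]; simp⟩

end Pool.Agent.Lib.MPba1bba.TR.BAM

namespace Pool.Agent.Lib.MPba1bba.TR

open Polynomial EVM BAM

theorem specBA : SpecBA := by
  refine ⟨fun F G => ⟨map_add _ _ _, map_mul _ _ _⟩, map_one _, ?_, ?_, ?_, ?_, ?_, ?_⟩
  · rw [bar, PowerSeries.map_X]
  · rw [bar, uu, PowerSeries.map_C, uu]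
    simp
  · intro F
    ext1 n
    rw [coeff_bar, coeff_LM, coeff_LM, map_add, lm_map, coeff_bar]
    congr 1
    split_ifs
    · rw [coeff_bar, map_mul]
      simp
    · rw [map_zero]
  · intro F
    refine ⟨?_, ?_, ?_⟩
    · ext n
      rw [coeff_bar0, ev0, ev0, PowerSeries.coeff_mk, PowerSeries.coeff_mk, coeff_bar,
        coe_mapRingHom, coeff_map]
      rfl
    · ext n
      rw [coeff_bar0, ev1, ev1, PowerSeries.coeff_mk, PowerSeries.coeff_mk, coeff_bar,
        coe_mapRingHom, eval_map, eval₂_at_one]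
      rfl
    · ext n
      rw [coeff_bar0, dv1, dv1, PowerSeries.coeff_mk, PowerSeries.coeff_mk, coeff_bar,
        coe_mapRingHom, derivative_map, eval_map, eval₂_at_one]
      rfl
  · intro F hF
    have h1 : ∀ n, ∃ q : ℤ[X], PowerSeries.coeff n F = 2 * q := by
      intro n
      apply two_dvd
      rw [← coeff_bar, hF, map_zero]
    choose q hq using h1
    refine ⟨PowerSeries.mk q, ?_⟩
    ext1 n
    rw [hq, two_mul, two_mul, map_add, PowerSeries.coeff_mk]
  · intro f hf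
    have h1 : ∀ n, ∃ q : ℤ, PowerSeries.coeff n f = 2 * q := by
      intro n
      have h2 := coeff_bar0 f n
      rw [hf, map_zero] at h2
      exact (ZMod.intCast_zmod_eq_zero_iff_dvd _ 2).mp h2.symm
    choose q hq using h1
    refine ⟨PowerSeries.mk q, ?_⟩
    ext1 n
    rw [hq, two_mul, two_mul, map_add, PowerSeries.coeff_mk]

end Pool.Agent.Lib.MPba1bba.TR
end

section
/-!
# DU: the dual sequence (resolvent of a contraction)
-/
set_option autoImplicit false

namespace Pool.Agent.Lib.MPba1bba.TR.DUM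

open Polynomial Finset
open Pool.Agent.Lib.MPba1bba

/-- series over `𝔽₂[u]` -/
abbrev W : Type := PowerSeries (ZMod 2)[X]

theorem two_W : (2 : W) = 0 := by
  have h : (2 : (ZMod 2)[X]) = 0 := by
    have h0 : (2 : ZMod 2) = 0 := rfl
    rw [← map_ofNat (Polynomial.C : ZMod 2 →+* (ZMod 2)[X]) 2, h0, map_zero]
  rw [← map_ofNat (PowerSeries.C : (ZMod 2)[X] →+* W) 2, h, map_zero]

theorem two_S : (2 : S2) = 0 := by
  have h0 : (2 : ZMod 2) = 0 := rfl
  rw [← map_ofNat (PowerSeries.C : ZMod 2 →+* S2) 2, h0, map_zero]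

theorem add_self_W (x : W) : x + x = 0 := by
  rw [← two_mul, two_W, zero_mul]

theorem add_self_S (x : S2) : x + x = 0 := by
  rw [← two_mul, two_S, zero_mul]

/-- the operator -/
noncomputable def TT (A : W) (G : W) : W := zz * LM (A * G)

section

variable (hEV : SpecEV) (A : W)

include hEV in
theorem TT_add (F G : W) : TT A (F + G) = TT A F + TT A G := by
  rw [TT, TT, TT, mul_add, (hEV (ZMod 2)).1, mul_add]

include hEV in
theorem TT_zz (F : W) : TT A (zz * F) = zz * TT A F := by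
  rw [TT, TT, mul_left_comm, (hEV (ZMod 2)).2.1]

include hEV in
theorem TT_iter_add (n : ℕ) (F G : W) : (TT A)^[n] (F + G) = (TT A)^[n] F + (TT A)^[n] G := by
  induction n generalizing F G with
  | zero => rfl
  | succ n ih => rw [Function.iterate_succ_apply, Function.iterate_succ_apply,
      Function.iterate_succ_apply, TT_add hEV, ih]

include hEV in
theorem TT_iter_zz (n : ℕ) (F : W) : (TT A)^[n] (zz * F) = zz * (TT A)^[n] F := by
  induction n generalizing F with
  | zero => rfl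
  | succ n ih => rw [Function.iterate_succ_apply, Function.iterate_succ_apply, TT_zz hEV, ih]

include hEV in
theorem TT_pow (n : ℕ) (F : W) : TT A (zz ^ n * F) = zz ^ n * TT A F := by
  induction n with
  | zero => rw [pow_zero, one_mul, one_mul]
  | succ n ih => rw [pow_succ', mul_assoc, TT_zz hEV, ih, mul_assoc]

include hEV in
theorem TT_dvd (n : ℕ) (F : W) : ∃ S : W, (TT A)^[n] F = zz ^ n * S := by
  induction n with
  | zero => exact ⟨F, by rw [pow_zero, one_mul]; rfl⟩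
  | succ n ih =>
    obtain ⟨S, hS⟩ := ih
    refine ⟨LM (A * S), ?_⟩
    rw [Function.iterate_succ_apply', hS, TT_pow hEV, TT, pow_succ, mul_assoc]

/-- the resolvent, at `u = 0` -/
noncomputable def LL (G : W) : S2 :=
  PowerSeries.mk fun k => ∑ n ∈ range (k + 1), PowerSeries.coeff k (ev0 ((TT A)^[n] G))

theorem coeff_LL (G : W) (k : ℕ) : PowerSeries.coeff k (LL A G) =
    ∑ n ∈ range (k + 1), PowerSeries.coeff k (ev0 ((TT A)^[n] G)) := by
  rw [LL, PowerSeries.coeff_mk]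

theorem ev0_zz_pow (n : ℕ) : ev0 (zz ^ n * (1 : W)) = (zz : S2) ^ n := by
  ext k
  rw [ev0, PowerSeries.coeff_mk, mul_one, PowerSeries.coeff_X_pow, PowerSeries.coeff_X_pow]
  split_ifs <;> simp

include hEV in
theorem ev0_mul (F G : W) : ev0 (F * G) = ev0 F * ev0 G :=
  ((hEV (ZMod 2)).2.2.2.2.2.2.2.1 F G).2.2.2.1

include hEV in
theorem ev0_add (F G : W) : ev0 (F + G) = ev0 F + ev0 G :=
  ((hEV (ZMod 2)).2.2.2.2.2.2.2.1 F G).2.2.1

include hEV in
theorem coeff_ev0_iter {k n : ℕ} (h : k < n) (G : W) :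
    PowerSeries.coeff k (ev0 ((TT A)^[n] G)) = 0 := by
  obtain ⟨S, hS⟩ := TT_dvd hEV A n G
  rw [hS, ← mul_one (zz ^ n), ev0_mul hEV, ev0_zz_pow, PowerSeries.coeff_X_pow_mul',
    if_neg (by omega)]

include hEV in
theorem LL_add (F G : W) : LL A (F + G) = LL A F + LL A G := by
  ext k
  rw [map_add, coeff_LL, coeff_LL, coeff_LL, ← Finset.sum_add_distrib]
  refine Finset.sum_congr rfl fun n _ => ?_
  rw [TT_iter_add hEV, ev0_add hEV, map_add]

include hEV in
theorem LL_zz (G : W) : LL A (zz * G) = zz * LL A G := by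
  have hz : ev0 (zz : W) = (zz : S2) := (hEV (ZMod 2)).2.2.2.2.2.2.2.2.2.2.2.2.1
  ext k
  rw [coeff_LL]
  rcases k with _ | k
  · rw [PowerSeries.coeff_zero_X_mul, Finset.sum_range_one, Function.iterate_zero, id, ev0_mul hEV,
      hz, PowerSeries.coeff_zero_X_mul]
  · rw [PowerSeries.coeff_succ_X_mul, coeff_LL, Finset.sum_range_succ]
    have h1 : ∀ n, PowerSeries.coeff (k + 1) (ev0 ((TT A)^[n] (zz * G))) =
        PowerSeries.coeff k (ev0 ((TT A)^[n] G)) := by
      intro n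
      rw [TT_iter_zz hEV, ev0_mul hEV, hz, PowerSeries.coeff_succ_X_mul]
    rw [h1, coeff_ev0_iter hEV A (by omega), add_zero]
    exact Finset.sum_congr rfl fun n _ => h1 n

include hEV in
theorem LL_pow (n : ℕ) (G : W) : LL A (zz ^ n * G) = zz ^ n * LL A G := by
  induction n with
  | zero => rw [pow_zero, one_mul, pow_zero, one_mul]
  | succ n ih => rw [pow_succ', mul_assoc, LL_zz hEV, ih, pow_succ', mul_assoc]

include hEV in
theorem LL_eq (G : W) : LL A G = ev0 G + LL A (TT A G) := by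
  ext k
  rw [map_add, coeff_LL, coeff_LL, Finset.sum_range_succ', Finset.sum_range_succ]
  have h1 : PowerSeries.coeff k (ev0 ((TT A)^[k] (TT A G))) = 0 := by
    rw [← Function.iterate_succ_apply]
    exact coeff_ev0_iter hEV A (by omega) G
  rw [h1, add_zero, add_comm]
  rfl

include hEV in
theorem LL_zero : LL A 0 = 0 := by
  have h := LL_add hEV A 0 0
  rw [add_zero] at h
  exact left_eq_add.1 h

end

end Pool.Agent.Lib.MPba1bba.TR.DUM

namespace Pool.Agent.Lib.MPba1bba.TR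

open DUM in
theorem specDU (hEV : SpecEV) : SpecDU := by
  intro A H hA hH
  obtain ⟨eAdd, eZ, eNeg, eOne, eU, -, -, -, eVal⟩ := hEV (ZMod 2)
  obtain ⟨-, e01, -, -, e0z, -, -, e0u, -⟩ := eVal
  -- the numbers `w`
  let w : ℕ → S2 := fun j => LL A (uu ^ j)
  have hw : ∀ j, w j = ev0 (uu ^ j) + LL A (TT A (uu ^ j)) := fun j => LL_eq hEV A _
  have e0pow : ∀ j, 1 ≤ j → ev0 ((uu : W) ^ j) = 0 := by
    intro j hj
    obtain ⟨i, rfl⟩ : ∃ i, j = i + 1 := ⟨j - 1, by omega⟩
    rw [pow_succ, ev0_mul hEV, e0u, mul_zero]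
  have hT : ∀ j, TT A (uu ^ j) + zz ^ 5 * TT A (uu ^ (j + 2)) =
      zz * (LM (uu ^ j) + zz * LM (uu ^ (j + 1))) := by
    intro j
    have e : A * (uu ^ j + zz ^ 5 * uu ^ (j + 2)) = uu ^ j + zz * uu ^ (j + 1) := by
      have : A * (uu ^ j + zz ^ 5 * uu ^ (j + 2)) = ((1 + zz ^ 5 * uu ^ 2) * A) * uu ^ j := by ring
      rw [this, hA]
      ring
    rw [← TT_pow hEV, ← TT_add hEV, TT, e, eAdd, eZ]
  have hrec : ∀ j, w j + zz ^ 5 * w (j + 2) = ev0 (uu ^ j) +
      zz * (LL A (LM (uu ^ j)) + zz * LL A (LM (uu ^ (j + 1)))) := by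
    intro j
    rw [hw j, hw (j + 2), e0pow (j + 2) (by omega), zero_add, ← LL_pow hEV, add_assoc,
      ← LL_add hEV, hT, LL_zz hEV, LL_add hEV, LL_zz hEV]
  have hodd : ∀ i, 1 ≤ i → LM ((uu : W) ^ (2 * i - 1)) = 0 := by
    intro i hi
    rw [eU _ (by omega), show (2 * i - 1) / 2 = i - 1 by omega,
      show (2 * i - 1 - 1) / 2 = i - 1 by omega, add_self_W]
  have heven : ∀ i, 1 ≤ i → LM ((uu : W) ^ (2 * i)) = uu ^ i + uu ^ (i - 1) := by
    intro i hi
    rw [eU _ (by omega), show (2 * i) / 2 = i by omega, show (2 * i - 1) / 2 = i - 1 by omega]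
  -- even indices
  have h1 : ∀ i, 1 ≤ i → w (2 * i) + zz ^ 5 * w (2 * i + 2) = zz * (w i + w (i - 1)) := by
    intro i hi
    rw [hrec, e0pow _ (by omega), zero_add, heven i hi, LL_add hEV,
      show 2 * i + 1 = 2 * (i + 1) - 1 by omega, hodd (i + 1) (by omega), LL_zero hEV, mul_zero,
      add_zero]
  -- odd indices
  have h2 : ∀ i, 1 ≤ i → w (2 * i - 1) + zz ^ 5 * w (2 * i + 1) =
      zz ^ 2 * (w i + w (i - 1)) := by
    intro i hi
    have h3 := hrec (2 * i - 1)
    rw [show 2 * i - 1 + 2 = 2 * i + 1 by omega, show 2 * i - 1 + 1 = 2 * i by omega,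
      e0pow _ (by omega), zero_add, hodd i hi, LL_zero hEV, zero_add, heven i hi,
      LL_add hEV] at h3
    rw [h3]
    ring
  -- index 0
  have h0 : w 0 + zz ^ 5 * w 2 = 1 + zz * (w 0 + zz ^ 2 * w 1) := by
    have h3 := hrec 0
    have h4 : LM ((uu : W) ^ 1) = 0 := hodd 1 le_rfl
    rw [zero_add, zero_add, h4, LL_zero hEV, mul_zero, add_zero, pow_zero, e01, eOne, LL_add hEV,
      LL_pow hEV] at h3
    have e1 : LL A 1 = w 0 := by
      change LL A 1 = LL A (uu ^ 0)
      rw [pow_zero]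
    have e2 : LL A uu = w 1 := by
      change LL A uu = LL A (uu ^ 1)
      rw [pow_one]
    rw [e1, e2] at h3
    exact h3
  -- the relation between neighbours
  have hg : ∀ i, 1 ≤ i → w (2 * i - 1) = zz * w (2 * i) := by
    intro i hi
    let g : ℕ → S2 := fun i => zz * w (2 * i) + w (2 * i - 1)
    have hgr : ∀ i, 1 ≤ i → g i = zz ^ 5 * g (i + 1) := by
      intro i hi
      have h3 : g i + zz ^ 5 * g (i + 1) = 0 := by
        change zz * w (2 * i) + w (2 * i - 1) + zz ^ 5 * (zz * w (2 * (i + 1)) +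
          w (2 * (i + 1) - 1)) = 0
        rw [show 2 * (i + 1) = 2 * i + 2 by ring, show 2 * i + 2 - 1 = 2 * i + 1 by omega]
        have h4 : zz * w (2 * i) + w (2 * i - 1) + zz ^ 5 * (zz * w (2 * i + 2) + w (2 * i + 1)) =
            zz * (w (2 * i) + zz ^ 5 * w (2 * i + 2)) +
              (w (2 * i - 1) + zz ^ 5 * w (2 * i + 1)) := by ring
        rw [h4, h1 i hi, h2 i hi]
        have h5 : zz * (zz * (w i + w (i - 1))) + zz ^ 2 * (w i + w (i - 1)) =
            zz ^ 2 * (w i + w (i - 1)) + zz ^ 2 * (w i + w (i - 1)) := by ring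
        rw [h5, add_self_S]
      have h6 := add_self_S (zz ^ 5 * g (i + 1))
      exact add_right_cancel (h3.trans h6.symm)
    have hdvd : ∀ n i, 1 ≤ i → (zz : S2) ^ n ∣ g i := by
      intro n
      induction n with
      | zero =>
        intro i _
        rw [pow_zero]
        exact one_dvd _
      | succ n ih =>
        intro i hi
        rw [hgr i hi]
        obtain ⟨q, hq⟩ := ih (i + 1) (by omega)
        refine ⟨zz ^ 4 * q, ?_⟩
        rw [hq]
        ring
    have hz : g i = 0 := by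
      ext k
      have h3 := PowerSeries.X_pow_dvd_iff.1 (hdvd (k + 1) i hi) k (by omega)
      rw [h3, map_zero]
    have h6 := add_self_S (zz * w (2 * i))
    exact add_left_cancel (hz.trans h6.symm)
  have hg1 : w 1 = zz * w 2 := hg 1 le_rfl
  refine ⟨fun j => (1 + zz) * w j, ⟨?_, ?_, ?_⟩, ?_⟩
  · -- `z⁴ μ 2 = μ 0 + 1`
    change zz ^ 4 * ((1 + zz) * w 2) = (1 + zz) * w 0 + 1
    rw [hg1] at h0
    have h3 : zz ^ 4 * ((1 + zz) * w 2) - ((1 + zz) * w 0 + 1) =
        (w 0 + zz ^ 5 * w 2 - (1 + zz * (w 0 + zz ^ 2 * (zz * w 2)))) +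
          2 * (zz ^ 4 * w 2 - w 0) := by ring
    rw [h0, sub_self, zero_add, two_S, zero_mul] at h3
    exact sub_eq_zero.1 h3
  · intro i hi
    change (1 + zz) * w (2 * i - 1) = zz * ((1 + zz) * w (2 * i))
    rw [hg i hi]
    ring
  · intro i hi
    change (1 + zz) * w (2 * i) + zz ^ 5 * ((1 + zz) * w (2 * i + 2)) =
      zz * ((1 + zz) * w i + (1 + zz) * w (i - 1))
    have h3 : (1 + zz) * w (2 * i) + zz ^ 5 * ((1 + zz) * w (2 * i + 2)) =
        (1 + zz) * (w (2 * i) + zz ^ 5 * w (2 * i + 2)) := by ring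
    rw [h3, h1 i hi]
    ring
  · -- the value of `ev0 H`
    have h3 : ev0 H = LL A (zz * 1 + zz ^ 3 * uu) := by
      have h4 := LL_eq hEV A H
      have h5 : LL A H = LL A (TT A H) + LL A (zz * 1 + zz ^ 3 * uu) := by
        rw [← LL_add hEV]
        congr 1
        rw [TT, mul_one, ← add_assoc]
        exact hH
      rw [h5, add_comm] at h4
      exact (add_right_cancel h4).symm
    have e1 : LL A 1 = w 0 := by
      change LL A 1 = LL A (uu ^ 0)
      rw [pow_zero]
    have e2 : LL A uu = w 1 := by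
      change LL A uu = LL A (uu ^ 1)
      rw [pow_one]
    rw [h3, LL_add hEV, LL_zz hEV, LL_pow hEV, e1, e2, hg1]
    change (1 + zz) * (zz * w 0 + zz ^ 3 * (zz * w 2)) = (1 + zz) * ((1 + zz) * w 0) + 1
    rw [hg1] at h0
    have h4 : (1 + zz) * (zz * w 0 + zz ^ 3 * (zz * w 2)) - ((1 + zz) * ((1 + zz) * w 0) + 1) =
        (w 0 + zz ^ 5 * w 2 - (1 + zz * (w 0 + zz ^ 2 * (zz * w 2)))) +
          2 * (zz ^ 4 * w 2 - w 0) := by ring
    rw [h0, sub_self, zero_add, two_S, zero_mul] at h4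
    exact sub_eq_zero.1 h4

end Pool.Agent.Lib.MPba1bba.TR
end

section
/-!
# EM: the system modulo 2
-/
namespace Pool.Agent.Lib.MPba1bba.TR

open Polynomial

namespace EMM

theorem two_zero : (2 : PowerSeries (ZMod 2)[X]) = 0 := by
  have h : (2 : ZMod 2) = 0 := by decide
  have : (2 : PowerSeries (ZMod 2)[X]) = PowerSeries.C (Polynomial.C (2 : ZMod 2)) := by
    rw [map_ofNat, map_ofNat]
  rw [this, h, map_zero, map_zero]

theorem LM_pow (hEV : SpecEV) (n : ℕ) (F : PowerSeries (ZMod 2)[X]) :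
    LM (zz ^ n * F) = zz ^ n * LM F := by
  obtain ⟨_, hz, _⟩ := hEV (ZMod 2)
  induction n with
  | zero => simp
  | succ n ih => rw [pow_succ', mul_assoc, hz, ih, mul_assoc]

theorem isUnit_aux (F : PowerSeries (ZMod 2)[X]) : IsUnit (1 + zz * F) := by
  rw [PowerSeries.isUnit_iff_constantCoeff]
  simp

theorem eq_zero_of_dvd (F : PowerSeries (ZMod 2)[X]) (h : ∀ n : ℕ, zz ^ n ∣ F) : F = 0 := by
  ext1 n
  have := (PowerSeries.X_pow_dvd_iff.1 (h (n + 1))) n (Nat.lt_succ_self n)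
  simpa using this

end EMM

open EMM in
theorem specEM (hEV : SpecEV) (hBA : SpecBA) (hPA : SpecPA) : SpecEM := by
  intro Q E H hS
  obtain ⟨hQ, hE, hH⟩ := hS
  obtain ⟨badd, b1, bz, bu, bLM, -, -, -⟩ := hBA
  obtain ⟨hpar, hsq, ev1', evz, ou, hkill, hdiv⟩ := hPA
  obtain ⟨Ladd, Lz, Lneg, L1, -, -, -, -, -⟩ := hEV (ZMod 2)
  have t0 := two_zero
  have bsub : ∀ F G : PowerSeries ℤ[X], bar (F - G) = bar F - bar G := fun F G => map_sub _ F G
  have bpow : ∀ (F : PowerSeries ℤ[X]) (n : ℕ), bar (F ^ n) = bar F ^ n := fun F n => map_pow _ F n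
  have bm : ∀ F G : PowerSeries ℤ[X], bar (F * G) = bar F * bar G := fun F G => (badd F G).2
  have ba : ∀ F G : PowerSeries ℤ[X], bar (F + G) = bar F + bar G := fun F G => (badd F G).1
  have b2 : bar (2 : PowerSeries ℤ[X]) = 0 := by
    have : bar (2 : PowerSeries ℤ[X]) = 2 := map_ofNat _ 2
    rw [this, t0]
  have q0 : bar Q = zz * uu + zz * uu * bar E * bar Q := by
    have := congrArg bar hQ
    simpa only [ba, bm, bz, bu] using this
  have e0 : bar E = zz ^ 2 * (LM (1 + bar E + bar Q * (1 + bar E) ^ 2) - 1) := by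
    have := congrArg bar hE
    simpa only [ba, bm, bz, bu, bsub, bpow, bLM, b1] using this
  have h0 : bar H = zz * LM ((1 + bar Q * (1 + bar E)) * (1 + bar E + bar H)) := by
    have := congrArg bar hH
    simpa only [ba, bm, bz, bu, bsub, bpow, bLM, b1] using this
  have f0 : bar (FF2 Q E H) = 1 + bar E + bar Q * (1 + bar E + bar H) ^ 2 := by
    simp only [FF2, ba, bm, bpow, b1, b2, zero_mul, add_zero]
  generalize bar Q = q at *
  generalize bar E = e at *
  generalize bar H = h at *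
  -- the solution modulo 2
  obtain ⟨w, hw⟩ := (isUnit_aux (zz ^ 4 * uu ^ 2)).exists_right_inv
  have hw' : (1 + zz ^ 5 * uu ^ 2) * w = 1 := by linear_combination hw
  set q' : PowerSeries (ZMod 2)[X] := w * (zz * uu) with hq'
  have q1 : (1 + zz ^ 5 * uu ^ 2) * q' = zz * uu := by
    rw [hq', ← mul_assoc, hw', one_mul]
  have evzp : ∀ n : ℕ, EvenU (zz ^ n) := by
    intro n
    induction n with
    | zero => simpa using ev1'
    | succ n ih => rw [pow_succ]; exact ((hpar _ _).1 ih evz).2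
  have oe' : OddU (zz ^ 4 * uu) := by
    rw [mul_comm]
    exact (hpar _ _).2.2 ou (evzp 4)
  have ozu : OddU (zz * uu) := by
    rw [mul_comm]
    exact (hpar _ _).2.2 ou evz
  have ed : EvenU (1 + zz ^ 5 * uu ^ 2) := ((hpar _ _).1 ev1' (((hpar _ _).1 (evzp 5) (hsq _)).2)).1
  have oq : ∀ x : PowerSeries (ZMod 2)[X], (1 + zz ^ 5 * uu ^ 2) * x = zz * uu → OddU x := by
    intro x hx
    refine hdiv (1 + zz ^ 5 * uu ^ 2) x ed ?_ ?_
    · simp
    · rw [hx]; exact ozu
  have key : ∀ x : PowerSeries (ZMod 2)[X], OddU x →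
      LM (1 + zz ^ 4 * uu + x * (1 + zz ^ 4 * uu) ^ 2) = 1 + zz ^ 2 * uu := by
    intro x hx
    rw [add_assoc, Ladd, L1, (hkill _ ((hpar _ _).2.1 oe' ((hpar _ _).2.2 hx (hsq _))).1).1, add_zero]
  have e1 : (zz ^ 4 * uu : PowerSeries (ZMod 2)[X]) =
      zz ^ 2 * (LM (1 + zz ^ 4 * uu + q' * (1 + zz ^ 4 * uu) ^ 2) - 1) := by
    rw [key q' (oq q' q1)]
    ring
  have hdv : ∀ n : ℕ, zz ^ n ∣ e - zz ^ 4 * uu := by
    intro n
    induction n with
    | zero => simp
    | succ n ih =>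
      have hqq : zz ^ n ∣ q - q' := by
        have h1 : (1 + zz * (-(uu * e))) * (q - q') = zz * uu * (e - zz ^ 4 * uu) * q' := by
          have : (1 + zz ^ 5 * uu ^ 2 : PowerSeries (ZMod 2)[X]) = 1 - zz ^ 5 * uu ^ 2 := by
            linear_combination (zz ^ 5 * uu ^ 2) * t0
          rw [this] at q1
          linear_combination q0 - q1
        have h2 : zz ^ n ∣ (1 + zz * (-(uu * e))) * (q - q') := by
          rw [h1]
          exact Dvd.dvd.mul_right (Dvd.dvd.mul_left ih _) _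
        exact (IsUnit.dvd_mul_left (isUnit_aux _)).1 h2
      have h3 : zz ^ n ∣ (1 + e + q * (1 + e) ^ 2) -
          (1 + zz ^ 4 * uu + q' * (1 + zz ^ 4 * uu) ^ 2) := by
        have : (1 + e + q * (1 + e) ^ 2) - (1 + zz ^ 4 * uu + q' * (1 + zz ^ 4 * uu) ^ 2) =
            (e - zz ^ 4 * uu) * (1 + q * ((1 + e) + (1 + zz ^ 4 * uu))) +
            (q - q') * (1 + zz ^ 4 * uu) ^ 2 := by ring
        rw [this]
        exact dvd_add (Dvd.dvd.mul_right ih _) (Dvd.dvd.mul_right hqq _)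
      obtain ⟨g, hg⟩ := h3
      have h4 : LM (1 + e + q * (1 + e) ^ 2) -
          LM (1 + zz ^ 4 * uu + q' * (1 + zz ^ 4 * uu) ^ 2) = zz ^ n * LM g := by
        have h5 : 1 + e + q * (1 + e) ^ 2 =
            (1 + zz ^ 4 * uu + q' * (1 + zz ^ 4 * uu) ^ 2) + zz ^ n * g := by
          linear_combination hg
        rw [h5, Ladd (1 + zz ^ 4 * uu + q' * (1 + zz ^ 4 * uu) ^ 2) (zz ^ n * g), LM_pow hEV]
        ring
      refine ⟨zz * LM g, ?_⟩
      rw [e0, e1]
      linear_combination zz ^ 2 * h4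
  have he : e = zz ^ 4 * uu := sub_eq_zero.1 (eq_zero_of_dvd _ hdv)
  subst he
  have q2 : (1 + zz ^ 5 * uu ^ 2) * q = zz * uu := by
    linear_combination q0 + (zz ^ 5 * uu ^ 2) * q * t0
  have o2 := oq q q2
  refine ⟨rfl, q2, ?_, ?_, ?_⟩
  · linear_combination (1 + zz ^ 4 * uu) * q2 + zz ^ 5 * uu ^ 2 * t0
  · have h5 : (1 + q * (1 + zz ^ 4 * uu)) * (1 + zz ^ 4 * uu + h) =
        (1 + q * (1 + zz ^ 4 * uu)) * h + (1 + zz ^ 4 * uu + q * (1 + zz ^ 4 * uu) ^ 2) := by
      ring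
    rw [h5, Ladd, key q o2] at h0
    linear_combination h0
  · rw [f0]
    have : (1 + zz ^ 4 * uu + q * (1 + zz ^ 4 * uu + h) ^ 2 - 1 : PowerSeries (ZMod 2)[X]) =
        zz ^ 4 * uu + q * (1 + zz ^ 4 * uu + h) ^ 2 := by ring
    rw [this]
    exact ((hpar _ _).2.1 oe' ((hpar _ _).2.2 o2 (hsq _))).1

end Pool.Agent.Lib.MPba1bba.TR
end

section
/-!
# The growth series of `B(2,4)` is transcendental: assembly
-/
namespace Pool.Agent.Lib.MPba1bba.TR

open Polynomial

theorem fin (hMain : Pool.Agent.Lib.MPba1bba.MainStatement) (hZS : SpecZS) (hPV : SpecPV)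
    (hMO : SpecMO) (hEM : SpecEM) (hQU : SpecQU) (hRE : SpecRE) (hAL : SpecAL) (hDU : SpecDU)
    (hMA : SpecMA) : MainStatement := by
  intro halg
  obtain ⟨Q, E, H, hSys, _, hsp⟩ := hMain 2 2 le_rfl le_rfl
  obtain ⟨Q', E', H', hS2, hpsi⟩ := hZS Q E H hSys
  obtain ⟨S₁, hS₁, σ, h, h', κ, e1, e2, e3, e4, e5⟩ := hMO _ Q' E' H' hPV hS2
  obtain ⟨A, B, C, D, hC, hD, hq⟩ := hQU
  have hq := hq (bar0 S₁) (ev0 (bar H')) σ h h' κ e1 e2 e3 e4 e5
  have hs : growthSeries 2 4 = PowerSeries.map (Int.castRingHom ℚ)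
      (psi2 (fun v => PowerSeries.mk fun n => (pcoef 2 2 (Multiset.replicate v 0) n : ℤ))
        (FF2 Q' E' H')) := by
    ext n
    rw [← hpsi, growthSeries, PowerSeries.coeff_mk, PowerSeries.coeff_map, ← hsp n]
    simp
  rw [hs] at halg
  have h1 : IsAlgebraic P2 (bar0 S₁) := hRE _ S₁ hS₁ halg
  have h2 : IsAlgebraic P2 (ev0 (bar H')) := hAL A B C D _ _ hC hq h1
  obtain ⟨_, _, m3, m4, _⟩ := hEM Q' E' H' hS2
  obtain ⟨μ, hμ, hrel⟩ := hDU _ (bar H') m3 m4
  refine hMA μ hμ ?_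
  have hz : IsAlgebraic P2 ((1 : S2) + zz) := by
    have : (1 : S2) + zz = algebraMap P2 S2 (1 + X) := by
      simp [PowerSeries.algebraMap_apply']
    rw [this]
    exact isAlgebraic_algebraMap _
  have h3 : (1 + zz) * μ 0 = (1 + zz) * ev0 (bar H') - 1 := by
    rw [hrel]
    ring
  have h4 : IsAlgebraic P2 ((1 + zz) * μ 0) := by
    rw [h3]
    exact (hz.mul h2).sub isAlgebraic_one
  refine IsAlgebraic.of_mul (mem_nonZeroDivisors_of_ne_zero ?_) hz h4
  intro h0
  have := congrArg PowerSeries.constantCoeff h0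
  simp at this

end Pool.Agent.Lib.MPba1bba.TR
end

section
/-!
# The growth series of `B(2,4)` is transcendental: module GR
-/
namespace Pool.Agent.Lib.MPba1bba.TR

open Polynomial

theorem specGR : SpecGR := by
  intro μ ⟨h0, ho, he⟩ k
  have hX : ∀ (n : ℕ) (f : S2), PowerSeries.coeff (n + 1) (zz * f) = PowerSeries.coeff n f :=
    fun n f => PowerSeries.coeff_succ_X_mul n f
  have hX0 : ∀ f : S2, PowerSeries.coeff 0 (zz * f) = 0 := fun f =>
    PowerSeries.coeff_zero_X_mul f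
  induction k using Nat.strong_induction_on with
  | _ k ih =>
    rcases k with _ | k
    · have heven : ∀ i, 1 ≤ i → PowerSeries.coeff 0 (μ (2 * i)) = 0 := by
        intro i hi
        have h1 := congrArg (PowerSeries.coeff 0) (he i hi)
        rw [map_add, hX0, show (zz ^ 5 * μ (2 * i + 2) : S2) = zz * (zz ^ 4 * μ (2 * i + 2)) by ring,
          hX0, add_zero] at h1
        exact h1
      constructor
      · intro j hj
        have hj' : 1 ≤ j := by
          simp at hj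
          omega
        rcases Nat.even_or_odd' j with ⟨i, rfl | rfl⟩
        · exact heven i (by omega)
        · have h1 := ho (i + 1) (by omega)
          rw [show 2 * (i + 1) - 1 = 2 * i + 1 by omega] at h1
          rw [h1, hX0]
      · have h1 := congrArg (PowerSeries.coeff 0) h0
        rw [map_add, show (zz ^ 4 * μ 2 : S2) = zz * (zz ^ 3 * μ 2) by ring, hX0,
          PowerSeries.coeff_zero_eq_constantCoeff_apply 1, map_one] at h1
        have h2 : (0 + 1) = 1 := rfl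
        rw [h2, pow_one, Nat.sub_self]
        have h3 : PowerSeries.coeff 0 (μ 0) = -1 := by
          rw [eq_neg_iff_add_eq_zero]
          exact h1.symm
        rw [h3]
        rfl
    · have ihk := ih k (Nat.lt_succ_self k)
      have h5 : ∀ j, 2 ^ (k + 2) - 2 < j →
          PowerSeries.coeff (k + 1) (zz ^ 5 * μ j : S2) = 0 := by
        intro j hj
        rw [PowerSeries.coeff_X_pow_mul']
        split_ifs with hk
        · refine (ih (k + 1 - 5) (by omega)).1 j (lt_of_le_of_lt ?_ hj)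
          have : 2 ^ (k + 1 - 5 + 1) ≤ 2 ^ (k + 2) := Nat.pow_le_pow_right (by norm_num) (by omega)
          omega
        · rfl
      have heven : ∀ i, 1 ≤ i → 2 ^ (k + 2) - 2 ≤ 2 * i →
          PowerSeries.coeff (k + 1) (μ (2 * i)) =
            PowerSeries.coeff k (μ i) + PowerSeries.coeff k (μ (i - 1)) := by
        intro i hi h
        have h1 := congrArg (PowerSeries.coeff (k + 1)) (he i hi)
        rw [map_add, hX, h5 _ (by omega), add_zero, map_add] at h1
        exact h1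
      have hp : 2 ^ (k + 2) = 2 * 2 ^ (k + 1) := by ring
      have hp1 : 2 ≤ 2 ^ (k + 1) := by
        calc 2 = 2 ^ 1 := rfl
          _ ≤ 2 ^ (k + 1) := Nat.pow_le_pow_right (by norm_num) (by omega)
      constructor
      · intro j hj
        rw [show k + 1 + 1 = k + 2 from rfl] at hj
        rcases Nat.even_or_odd' j with ⟨i, rfl | rfl⟩
        · rw [heven i (by omega) (by omega), ihk.1 i (by omega), ihk.1 (i - 1) (by omega),
            add_zero]
        · have h1 := ho (i + 1) (by omega)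
          rw [show 2 * (i + 1) - 1 = 2 * i + 1 by omega] at h1
          rw [h1, hX, ihk.1 _ (by omega)]
      · rw [show k + 1 + 1 = k + 2 from rfl, show 2 ^ (k + 2) - 2 = 2 * (2 ^ (k + 1) - 1) by omega,
          heven _ (by omega) (by omega), ihk.1 _ (by omega), zero_add,
          show 2 ^ (k + 1) - 1 - 1 = 2 ^ (k + 1) - 2 by omega]
        exact ihk.2

end Pool.Agent.Lib.MPba1bba.TR
end

section
/-!
# Module LI: Siegel's lemma and Liouville's inequality over `𝔽₂[z]`
-/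
namespace Pool.Agent.Lib.MPba1bba.TR

open Polynomial

namespace LIM

theorem alg_inj : Function.Injective (algebraMap P2 S2) := by
  intro a b h
  have : (a : PowerSeries (ZMod 2)) = b := h
  exact Polynomial.coe_injective _ this

theorem alg_ne {a : P2} (h : a ≠ 0) : algebraMap P2 S2 a ≠ 0 := by
  intro h0
  exact h (alg_inj (by rw [h0, map_zero]))

/-- `a x^m` is in the span of the smaller powers. -/
def QQ (x : S2) (D : ℕ) : Prop := ∃ a : P2, a ≠ 0 ∧ ∃ c : Fin D → P2,
  algebraMap P2 S2 a * x ^ D = ∑ i, algebraMap P2 S2 (c i) * x ^ (i : ℕ)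

theorem exists_QQ (x : S2) (h : IsAlgebraic P2 x) : ∃ D, QQ x D := by
  obtain ⟨p, hp, hx⟩ := h
  refine ⟨p.natDegree, p.leadingCoeff, leadingCoeff_ne_zero.mpr hp,
    fun i => - p.coeff i, ?_⟩
  rw [aeval_eq_sum_range, Finset.sum_range_succ] at hx
  have h1 : algebraMap P2 S2 p.leadingCoeff * x ^ p.natDegree =
      - ∑ i ∈ Finset.range p.natDegree, p.coeff i • x ^ i := by
    rw [← Algebra.smul_def]
    exact eq_neg_of_add_eq_zero_right hx
  rw [h1, Finset.sum_fin_eq_sum_range, ← Finset.sum_neg_distrib]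
  apply Finset.sum_congr rfl
  intro i hi
  rw [dif_pos (Finset.mem_range.mp hi), Algebra.smul_def, map_neg, neg_mul]

theorem lin_indep (x : S2) (D : ℕ) (hmin : ∀ m, m < D → ¬ QQ x m) (c : Fin D → P2)
    (h : ∑ i, algebraMap P2 S2 (c i) * x ^ (i : ℕ) = 0) : c = 0 := by
  by_contra hc
  have hne : (Finset.univ.filter fun i => c i ≠ 0).Nonempty := by
    by_contra hn
    apply hc
    funext i
    by_contra hi
    exact hn ⟨i, Finset.mem_filter.mpr ⟨Finset.mem_univ _, hi⟩⟩
  obtain ⟨i₀, hi₀, hmax⟩ := Finset.exists_max_image _ (fun i : Fin D => (i : ℕ)) hne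
  have hi0 : c i₀ ≠ 0 := by simpa using hi₀
  apply hmin i₀ i₀.2
  refine ⟨c i₀, hi0, fun i => - c ⟨i, lt_trans i.2 i₀.2⟩, ?_⟩
  have h1 : ∑ i : Fin D, algebraMap P2 S2 (c i) * x ^ (i : ℕ) =
      ∑ i ∈ Finset.range D, if hi : i < D then algebraMap P2 S2 (c ⟨i, hi⟩) * x ^ i else 0 := by
    rw [Finset.sum_fin_eq_sum_range]
  rw [h1, ← Finset.sum_range_add_sum_Ico _ (show (i₀ : ℕ) + 1 ≤ D from i₀.2),
    Finset.sum_range_succ] at h
  have h2 : ∑ i ∈ Finset.Ico ((i₀ : ℕ) + 1) D,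
      (if hi : i < D then algebraMap P2 S2 (c ⟨i, hi⟩) * x ^ i else 0) = 0 := by
    apply Finset.sum_eq_zero
    intro i hi
    rw [Finset.mem_Ico] at hi
    rw [dif_pos hi.2]
    have h3 : c ⟨i, hi.2⟩ = 0 := by
      by_contra h4
      have := hmax ⟨i, hi.2⟩ (by simpa using h4)
      simp only at this
      omega
    rw [h3, map_zero, zero_mul]
  rw [h2, add_zero, dif_pos i₀.2] at h
  have h5 := eq_neg_of_add_eq_zero_right h
  rw [show (⟨(i₀ : ℕ), i₀.2⟩ : Fin D) = i₀ from rfl] at h5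
  rw [h5, Finset.sum_fin_eq_sum_range, ← Finset.sum_neg_distrib]
  apply Finset.sum_congr rfl
  intro i hi
  have hi' := Finset.mem_range.mp hi
  rw [dif_pos hi', dif_pos (lt_trans hi' i₀.2), map_neg, neg_mul]

/-- The matrix of multiplication by `a x`. -/
theorem exists_mat (x : S2) (D : ℕ) (a : P2) (c : Fin D → P2)
    (h : algebraMap P2 S2 a * x ^ D = ∑ i, algebraMap P2 S2 (c i) * x ^ (i : ℕ)) :
    ∃ A : Matrix (Fin D) (Fin D) P2, ∀ i : Fin D,
      algebraMap P2 S2 a * x * x ^ (i : ℕ) = ∑ j, algebraMap P2 S2 (A i j) * x ^ (j : ℕ) := by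
  have key : ∀ i : Fin D, ∃ r : Fin D → P2,
      algebraMap P2 S2 a * x * x ^ (i : ℕ) = ∑ j, algebraMap P2 S2 (r j) * x ^ (j : ℕ) := by
    intro i
    by_cases hi : (i : ℕ) + 1 < D
    · refine ⟨Pi.single ⟨i + 1, hi⟩ a, ?_⟩
      rw [Finset.sum_eq_single (⟨i + 1, hi⟩ : Fin D)]
      · rw [Pi.single_eq_same, pow_succ]
        ring
      · intro b _ hb
        rw [Pi.single_eq_of_ne hb, map_zero, zero_mul]
      · intro h; exact absurd (Finset.mem_univ _) h
    · have hi' : (i : ℕ) + 1 = D := by have := i.2; omega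
      refine ⟨c, ?_⟩
      have h3 : x ^ D = x ^ (i : ℕ) * x := by
        rw [← pow_succ, hi']
      rw [← h, h3]
      ring
  choose r hr using key
  exact ⟨Matrix.of r, hr⟩

theorem main_mat (x : S2) (D : ℕ) (hQ : QQ x D) :
    ∃ a : P2, a ≠ 0 ∧ ∃ A : Matrix (Fin D) (Fin D) P2,
      ∀ (t : ℕ) (T : Polynomial P2), T.natDegree ≤ t → ∀ i : Fin D,
        (algebraMap P2 S2 a ^ t * aeval x T) * x ^ (i : ℕ) =
          ∑ j, algebraMap P2 S2 ((∑ l ∈ Finset.range (t + 1),
            (T.coeff l * a ^ (t - l)) • A ^ l : Matrix (Fin D) (Fin D) P2) i j) * x ^ (j : ℕ) := by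
  obtain ⟨a, ha, c, hc⟩ := hQ
  obtain ⟨A, hA⟩ := exists_mat x D a c hc
  refine ⟨a, ha, A, ?_⟩
  have hpow : ∀ (l : ℕ) (i : Fin D), (algebraMap P2 S2 a * x) ^ l * x ^ (i : ℕ) =
      ∑ j, algebraMap P2 S2 ((A ^ l) i j) * x ^ (j : ℕ) := by
    intro l
    induction l with
    | zero =>
      intro i
      rw [Finset.sum_eq_single i]
      · simp
      · intro b _ hb
        rw [pow_zero, Matrix.one_apply_ne (Ne.symm hb), map_zero, zero_mul]
      · intro h; exact absurd (Finset.mem_univ _) h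
    | succ l ih =>
      intro i
      rw [pow_succ', mul_assoc, ih i, Finset.mul_sum]
      have h1 : ∀ j : Fin D, algebraMap P2 S2 a * x *
          (algebraMap P2 S2 ((A ^ l) i j) * x ^ (j : ℕ)) =
          ∑ k, algebraMap P2 S2 ((A ^ l) i j * A j k) * x ^ (k : ℕ) := by
        intro j
        calc algebraMap P2 S2 a * x * (algebraMap P2 S2 ((A ^ l) i j) * x ^ (j : ℕ))
            = algebraMap P2 S2 ((A ^ l) i j) * (algebraMap P2 S2 a * x * x ^ (j : ℕ)) := by ring
          _ = _ := by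
            rw [hA j, Finset.mul_sum]
            apply Finset.sum_congr rfl
            intro k _
            rw [map_mul]
            ring
      rw [Finset.sum_congr rfl fun j _ => h1 j, Finset.sum_comm]
      apply Finset.sum_congr rfl
      intro k _
      rw [← Finset.sum_mul, ← map_sum, pow_succ, Matrix.mul_apply]
  intro t T hT i
  have h2 : algebraMap P2 S2 a ^ t * aeval x T =
      ∑ l ∈ Finset.range (t + 1), algebraMap P2 S2 (T.coeff l * a ^ (t - l)) *
        (algebraMap P2 S2 a * x) ^ l := by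
    rw [aeval_eq_sum_range' (Nat.lt_succ_of_le hT), Finset.mul_sum]
    apply Finset.sum_congr rfl
    intro l hl
    have hl' : l ≤ t := Nat.lt_succ_iff.mp (Finset.mem_range.mp hl)
    rw [Algebra.smul_def, map_mul, map_pow, mul_pow]
    have h3 : algebraMap P2 S2 a ^ t = algebraMap P2 S2 a ^ (t - l) * algebraMap P2 S2 a ^ l := by
      rw [← pow_add]
      congr 1
      omega
    rw [h3]
    ring
  rw [h2, Finset.sum_mul]
  have h4 : ∀ l ∈ Finset.range (t + 1), algebraMap P2 S2 (T.coeff l * a ^ (t - l)) *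
      (algebraMap P2 S2 a * x) ^ l * x ^ (i : ℕ) =
      ∑ j, algebraMap P2 S2 ((T.coeff l * a ^ (t - l)) * (A ^ l) i j) * x ^ (j : ℕ) := by
    intro l _
    rw [mul_assoc, hpow l i, Finset.mul_sum]
    apply Finset.sum_congr rfl
    intro j _
    rw [map_mul (algebraMap P2 S2) (T.coeff l * a ^ (t - l))]
    ring
  rw [Finset.sum_congr rfl h4, Finset.sum_comm]
  apply Finset.sum_congr rfl
  intro j _
  rw [← Finset.sum_mul, ← map_sum]
  congr 2
  rw [Matrix.sum_apply]
  apply Finset.sum_congr rfl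
  intro l _
  rw [Matrix.smul_apply, smul_eq_mul]

/-- A homogeneous linear system over `𝔽₂[z]` with more unknowns than equations. -/
theorem siegel {J : Type} [Fintype J] {M D : ℕ} (h : D * M < Fintype.card J)
    (v : Fin M → J → Fin D → P2) :
    ∃ c : J → P2, c ≠ 0 ∧ ∀ m i, ∑ j, c j * v m j i = 0 := by
  classical
  let f : (J → P2) →ₗ[P2] (Fin M × Fin D → P2) :=
    { toFun := fun c p => ∑ j, c j * v p.1 j p.2
      map_add' := by
        intro a b
        funext p
        simp only [Pi.add_apply, add_mul, Finset.sum_add_distrib]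
      map_smul' := by
        intro r a
        funext p
        simp only [Pi.smul_apply, smul_eq_mul, RingHom.id_apply, Finset.mul_sum, mul_assoc] }
  have hf : ¬ Function.Injective f := by
    intro hinj
    have := card_le_of_injective P2 f hinj
    rw [Fintype.card_prod, Fintype.card_fin, Fintype.card_fin] at this
    have h2 : D * M = M * D := mul_comm _ _
    omega
  rw [injective_iff_map_eq_zero] at hf
  push Not at hf
  obtain ⟨c, hc, hc0⟩ := hf
  exact ⟨c, hc0, fun m i => congrFun hc (m, i)⟩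

theorem natDegree_det_le {D : ℕ} (N : Matrix (Fin D) (Fin D) P2) (B : ℕ)
    (h : ∀ i j, (N i j).natDegree ≤ B) : N.det.natDegree ≤ D * B := by
  rw [Matrix.det_apply]
  apply natDegree_sum_le_of_forall_le
  intro σ _
  refine le_trans (natDegree_smul_le _ _) ?_
  refine le_trans (natDegree_prod_le _ _) ?_
  refine le_trans (Finset.sum_le_sum fun i _ => h _ _) ?_
  simp

theorem liouville (x : S2) (D : ℕ) (hD : 1 ≤ D) (hmin : ∀ m, m < D → ¬ QQ x m) (B : ℕ)
    (y : S2) (N : Matrix (Fin D) (Fin D) P2)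
    (hy : ∀ i : Fin D, y * x ^ (i : ℕ) = ∑ j, algebraMap P2 S2 (N i j) * x ^ (j : ℕ))
    (hN : ∀ i j, (N i j).natDegree ≤ B) (n : ℕ) (hn : D * B < n) (hz : zz ^ n ∣ y) : y = 0 := by
  classical
  by_cases hdet : N.det = 0
  · obtain ⟨w, hw, hw0⟩ := Matrix.exists_vecMul_eq_zero_iff.mpr hdet
    have h1 : y * ∑ i, algebraMap P2 S2 (w i) * x ^ (i : ℕ) = 0 := by
      rw [Finset.mul_sum]
      have h2 : ∀ i : Fin D, y * (algebraMap P2 S2 (w i) * x ^ (i : ℕ)) =
          ∑ j, algebraMap P2 S2 (w i * N i j) * x ^ (j : ℕ) := by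
        intro i
        calc y * (algebraMap P2 S2 (w i) * x ^ (i : ℕ))
            = algebraMap P2 S2 (w i) * (y * x ^ (i : ℕ)) := by ring
          _ = _ := by
            rw [hy i, Finset.mul_sum]
            apply Finset.sum_congr rfl
            intro j _
            rw [map_mul]
            ring
      rw [Finset.sum_congr rfl fun i _ => h2 i, Finset.sum_comm]
      apply Finset.sum_eq_zero
      intro j _
      rw [← Finset.sum_mul, ← map_sum]
      have h3 : ∑ i, w i * N i j = 0 := congrFun hw0 j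
      rw [h3, map_zero, zero_mul]
    rcases mul_eq_zero.mp h1 with h4 | h4
    · exact h4
    · exact absurd (lin_indep x D hmin w h4) hw
  · exfalso
    have h5 : ∀ i : Fin D, ∑ j, algebraMap P2 S2 ((N.adjugate * N) i j) * x ^ (j : ℕ) =
        y * ∑ j, algebraMap P2 S2 (N.adjugate i j) * x ^ (j : ℕ) := by
      intro i
      rw [Finset.mul_sum]
      have h6 : ∀ j : Fin D, y * (algebraMap P2 S2 (N.adjugate i j) * x ^ (j : ℕ)) =
          ∑ k, algebraMap P2 S2 (N.adjugate i j * N j k) * x ^ (k : ℕ) := by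
        intro j
        calc y * (algebraMap P2 S2 (N.adjugate i j) * x ^ (j : ℕ))
            = algebraMap P2 S2 (N.adjugate i j) * (y * x ^ (j : ℕ)) := by ring
          _ = _ := by
            rw [hy j, Finset.mul_sum]
            apply Finset.sum_congr rfl
            intro k _
            rw [map_mul]
            ring
      rw [Finset.sum_congr rfl fun j _ => h6 j, Finset.sum_comm]
      apply Finset.sum_congr rfl
      intro k _
      rw [← Finset.sum_mul, ← map_sum, Matrix.mul_apply]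
    have h7 := h5 ⟨0, hD⟩
    rw [Matrix.adjugate_mul, Finset.sum_eq_single (⟨0, hD⟩ : Fin D)] at h7
    · rw [Matrix.smul_apply, Matrix.one_apply_eq, smul_eq_mul, mul_one, pow_zero, mul_one] at h7
      have h8 : zz ^ n ∣ algebraMap P2 S2 N.det := by
        rw [h7]
        exact Dvd.dvd.mul_right hz _
      have h9 : ∀ m < n, N.det.coeff m = 0 := by
        intro m hm
        have := PowerSeries.X_pow_dvd_iff.mp h8 m hm
        have e : (algebraMap P2 S2 N.det) = (N.det : PowerSeries (ZMod 2)) := rfl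
        rw [e, Polynomial.coeff_coe] at this
        exact this
      have h10 := natDegree_det_le N B hN
      apply hdet
      have h11 : N.det.leadingCoeff = 0 := h9 _ (lt_of_le_of_lt h10 hn)
      exact leadingCoeff_eq_zero.mp h11
    · intro b _ hb
      rw [Matrix.smul_apply, Matrix.one_apply_ne (Ne.symm hb), smul_zero, map_zero, zero_mul]
    · intro h; exact absurd (Finset.mem_univ _) h

end LIM

/-- Module LI. -/
theorem specLI : SpecLI := by
  classical
  intro x hx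
  obtain ⟨D, hD, hmin⟩ : ∃ D, LIM.QQ x D ∧ ∀ m, m < D → ¬ LIM.QQ x m := by
    have := LIM.exists_QQ x hx
    exact ⟨Nat.find this, Nat.find_spec this, fun m hm => Nat.find_min this hm⟩
  have hD1 : 1 ≤ D := by
    by_contra h
    have h0 : D = 0 := by omega
    subst h0
    obtain ⟨a, ha, c, hc⟩ := hD
    rw [pow_zero, mul_one, Finset.univ_eq_empty, Finset.sum_empty] at hc
    exact LIM.alg_ne ha hc
  obtain ⟨a, ha, A, hA⟩ := LIM.main_mat x D hD
  refine ⟨D, hD1, ?_, ?_⟩
  · intro J _ M θ hcard hθ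
    choose d hd T hT using hθ
    -- all entries in the span after multiplication by a common factor
    have h1 : ∀ m j, ∃ d' : P2, d' ≠ 0 ∧ ∃ r : Fin D → P2,
        algebraMap P2 S2 d' * θ m j = ∑ i, algebraMap P2 S2 (r i) * x ^ (i : ℕ) := by
      intro m j
      refine ⟨a ^ (T m j).natDegree * d m j, mul_ne_zero (pow_ne_zero _ ha) (hd m j),
        fun i => (∑ l ∈ Finset.range ((T m j).natDegree + 1),
          ((T m j).coeff l * a ^ ((T m j).natDegree - l)) • A ^ l :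
            Matrix (Fin D) (Fin D) P2) ⟨0, hD1⟩ i, ?_⟩
      rw [map_mul, map_pow, mul_assoc, hT m j]
      have := hA (T m j).natDegree (T m j) le_rfl ⟨0, hD1⟩
      rw [pow_zero, mul_one] at this
      exact this
    choose d' hd' r hr using h1
    have h2 : ∀ m j, ∃ r' : Fin D → P2,
        algebraMap P2 S2 (∏ m, ∏ j, d' m j) * θ m j =
          ∑ i, algebraMap P2 S2 (r' i) * x ^ (i : ℕ) := by
      intro m j
      have h3 : d' m j ∣ ∏ m, ∏ j, d' m j :=
        dvd_trans (Finset.dvd_prod_of_mem (d' m) (Finset.mem_univ j))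
          (Finset.dvd_prod_of_mem (fun m => ∏ j, d' m j) (Finset.mem_univ m))
      obtain ⟨q, hq⟩ := h3
      refine ⟨fun i => q * r m j i, ?_⟩
      rw [hq, mul_comm (d' m j) q, map_mul, mul_assoc, hr m j, Finset.mul_sum]
      apply Finset.sum_congr rfl
      intro i _
      rw [map_mul]
      ring
    choose v hv using h2
    obtain ⟨c, hc, hc2⟩ := LIM.siegel hcard v
    refine ⟨c, hc, ?_⟩
    intro m
    have hP : (∏ m, ∏ j, d' m j) ≠ 0 :=
      Finset.prod_ne_zero_iff.mpr fun m _ => Finset.prod_ne_zero_iff.mpr fun j _ => hd' m j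
    have h4 : algebraMap P2 S2 (∏ m, ∏ j, d' m j) * ∑ j, algebraMap P2 S2 (c j) * θ m j = 0 := by
      rw [Finset.mul_sum]
      have h5 : ∀ j, algebraMap P2 S2 (∏ m, ∏ j, d' m j) * (algebraMap P2 S2 (c j) * θ m j) =
          ∑ i, algebraMap P2 S2 (c j * v m j i) * x ^ (i : ℕ) := by
        intro j
        calc algebraMap P2 S2 (∏ m, ∏ j, d' m j) * (algebraMap P2 S2 (c j) * θ m j)
            = algebraMap P2 S2 (c j) * (algebraMap P2 S2 (∏ m, ∏ j, d' m j) * θ m j) := by ring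
          _ = _ := by
            rw [hv m j, Finset.mul_sum]
            apply Finset.sum_congr rfl
            intro i _
            rw [map_mul]
            ring
      rw [Finset.sum_congr rfl fun j _ => h5 j, Finset.sum_comm]
      apply Finset.sum_eq_zero
      intro i _
      rw [← Finset.sum_mul, ← map_sum, hc2 m i, map_zero, zero_mul]
    rcases mul_eq_zero.mp h4 with h6 | h6
    · exact absurd h6 (LIM.alg_ne hP)
    · exact h6
  · intro t
    -- bound of the degrees of the entries of `a ^ (t - l) A ^ l`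
    obtain ⟨e, he⟩ : ∃ e : ℕ, ∀ l ∈ Finset.range (t + 1), ∀ i j : Fin D,
        (a ^ (t - l)).natDegree + ((A ^ l) i j).natDegree ≤ e := by
      refine ⟨∑ l ∈ Finset.range (t + 1), ∑ i, ∑ j,
        ((a ^ (t - l)).natDegree + ((A ^ l) i j).natDegree), ?_⟩
      intro l hl i j
      calc (a ^ (t - l)).natDegree + ((A ^ l) i j).natDegree
          ≤ ∑ j, ((a ^ (t - l)).natDegree + ((A ^ l) i j).natDegree) :=
            Finset.single_le_sum
              (f := fun j => (a ^ (t - l)).natDegree + ((A ^ l) i j).natDegree)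
              (fun _ _ => Nat.zero_le _) (Finset.mem_univ j)
        _ ≤ ∑ i, ∑ j, ((a ^ (t - l)).natDegree + ((A ^ l) i j).natDegree) :=
            Finset.single_le_sum
              (f := fun i => ∑ j, ((a ^ (t - l)).natDegree + ((A ^ l) i j).natDegree))
              (fun _ _ => Nat.zero_le _) (Finset.mem_univ i)
        _ ≤ _ := Finset.single_le_sum
              (f := fun l => ∑ i, ∑ j, ((a ^ (t - l)).natDegree + ((A ^ l) i j).natDegree))
              (fun _ _ => Nat.zero_le _) hl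
    refine ⟨D * e, ?_⟩
    intro T H hT hH n hn hz
    have h7 : algebraMap P2 S2 a ^ t * aeval x T = 0 := by
      apply LIM.liouville x D hD1 hmin (H + e) _ _ (hA t T hT) _ n
      · rw [mul_add]; exact hn
      · exact Dvd.dvd.mul_left hz _
      · intro i j
        rw [Matrix.sum_apply]
        apply natDegree_sum_le_of_forall_le
        intro l hl
        rw [Matrix.smul_apply, smul_eq_mul]
        refine le_trans natDegree_mul_le ?_
        refine le_trans (Nat.add_le_add_right natDegree_mul_le _) ?_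
        have := he l hl i j
        have := hH l
        omega
    rcases mul_eq_zero.mp h7 with h8 | h8
    · exact absurd h8 (pow_ne_zero _ (LIM.alg_ne ha))
    · exact h8

end Pool.Agent.Lib.MPba1bba.TR
end

section
/-!
# Module MA: Mahler's method, the values `μ_0` of a solution is transcendental over `𝔽₂[z]`
-/
namespace Pool.Agent.Lib.MPba1bba.TR

open Polynomial

namespace MAM

theorem alg_inj : Function.Injective (algebraMap P2 S2) := by
  intro a b h
  have : (a : PowerSeries (ZMod 2)) = b := h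
  exact Polynomial.coe_injective _ this

theorem alg_ne {a : P2} (h : a ≠ 0) : algebraMap P2 S2 a ≠ 0 := by
  intro h0
  exact h (alg_inj (by rw [h0, map_zero]))

theorem alg_X : algebraMap P2 S2 X = zz := by
  simp [zz, PowerSeries.algebraMap_apply']

theorem charP_S2 : CharP S2 2 := charP_of_injective_algebraMap alg_inj 2

theorem add_pow_two (a b : S2) (i : ℕ) : (a + b) ^ (2 ^ i) = a ^ (2 ^ i) + b ^ (2 ^ i) := by
  have := charP_S2
  have : Fact (Nat.Prime 2) := ⟨Nat.prime_two⟩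
  exact add_pow_char_pow a b 2 i

/-- The substitution as a ring homomorphism. -/
theorem exists_hom (hEC : SpecEC) (n : ℕ) (hn : 1 ≤ n) :
    ∃ φ : PowerSeries S2 →+* S2, ∀ F, φ F = ev n F := by
  obtain ⟨h1, h2, -⟩ := hEC.1 n hn
  refine ⟨{ toFun := ev n
            map_one' := ?_
            map_mul' := fun F G => (h1 F G).2
            map_zero' := ?_
            map_add' := fun F G => (h1 F G).1 }, fun F => rfl⟩
  · have := h2 1
    rwa [map_one] at this
  · have := h2 0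
    rwa [map_zero] at this

theorem mk_eq_sum (a : ℕ → S2) (N : ℕ) (ha : ∀ j, N < j → a j = 0) :
    PowerSeries.mk a = ∑ j ∈ Finset.range (N + 1), PowerSeries.C (a j) * PowerSeries.X ^ j := by
  ext1 m
  rw [PowerSeries.coeff_mk, map_sum]
  by_cases hm : m ≤ N
  · rw [Finset.sum_eq_single m]
    · rw [PowerSeries.coeff_C_mul, PowerSeries.coeff_X_pow_self, mul_one]
    · intro j _ hj
      rw [PowerSeries.coeff_C_mul, PowerSeries.coeff_X_pow, if_neg (Ne.symm hj), mul_zero]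
    · intro h
      exact absurd (Finset.mem_range.mpr (by omega)) h
  · rw [ha m (by omega), Finset.sum_eq_zero]
    intro j hj
    have := Finset.mem_range.mp hj
    rw [PowerSeries.coeff_C_mul, PowerSeries.coeff_X_pow, if_neg (by omega), mul_zero]

theorem ev_poly (hEC : SpecEC) (n : ℕ) (hn : 1 ≤ n) (b : ℕ → P2) (N : ℕ)
    (hb : ∀ j, N < j → b j = 0) :
    ev n (PowerSeries.mk fun j => algebraMap P2 S2 (b j)) =
      algebraMap P2 S2 (∑ j ∈ Finset.range (N + 1), b j * X ^ (n * j)) := by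
  obtain ⟨φ, hφ⟩ := exists_hom hEC n hn
  obtain ⟨-, h2, h3, -⟩ := hEC.1 n hn
  rw [mk_eq_sum _ N (fun j hj => by rw [hb j hj, map_zero]), ← hφ, map_sum, map_sum]
  apply Finset.sum_congr rfl
  intro j _
  rw [map_mul, map_pow, hφ, hφ, h2, h3, map_mul, map_pow, alg_X, pow_mul]

theorem ev_frob (hEC : SpecEC) (μ : ℕ → S2) (i : ℕ) : ∀ k : ℕ, i ≤ k →
    ev (5 * 2 ^ k) (PowerSeries.mk fun j => μ j ^ (2 ^ i)) =
      (ev (5 * 2 ^ (k - i)) (PowerSeries.mk μ)) ^ (2 ^ i) := by
  induction i with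
  | zero => intro k _; simp
  | succ i ih =>
    intro k hk
    obtain ⟨k', rfl⟩ : ∃ k', k = k' + 1 := ⟨k - 1, by omega⟩
    have h4 := (hEC.1 (5 * 2 ^ k') (by have := Nat.one_le_two_pow (n := k'); omega)).2.2.2.1
      (PowerSeries.mk fun j => μ j ^ (2 ^ i))
    have e1 : 2 * (5 * 2 ^ k') = 5 * 2 ^ (k' + 1) := by rw [pow_succ]; ring
    have e2 : (PowerSeries.mk fun j => (PowerSeries.coeff j
        (PowerSeries.mk fun j => μ j ^ (2 ^ i))) ^ 2 : PowerSeries S2) =
        PowerSeries.mk fun j => μ j ^ (2 ^ (i + 1)) := by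
      ext1 m
      rw [PowerSeries.coeff_mk, PowerSeries.coeff_mk, PowerSeries.coeff_mk, ← pow_mul, ← pow_succ]
    rw [e1, e2] at h4
    rw [h4, ih k' (by omega), ← pow_mul, ← pow_succ]
    congr 3
    congr 1
    omega

/-- All coefficients have degree at most `H`. -/
def BD (H : ℕ) (T : Polynomial P2) : Prop := ∀ l, (T.coeff l).natDegree ≤ H

theorem bd_add {H : ℕ} {T T' : Polynomial P2} (h : BD H T) (h' : BD H T') : BD H (T + T') := by
  intro l
  rw [coeff_add]
  exact le_trans (natDegree_add_le _ _) (max_le (h l) (h' l))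

theorem bd_sum {ι : Type} {H : ℕ} (s : Finset ι) (T : ι → Polynomial P2)
    (h : ∀ i ∈ s, BD H (T i)) : BD H (∑ i ∈ s, T i) := by
  intro l
  rw [finsetSum_coeff]
  exact natDegree_sum_le_of_forall_le _ _ fun i hi => h i hi l

theorem bd_mon {H : ℕ} (a : P2) (m : ℕ) (h : a.natDegree ≤ H) : BD H (C a * X ^ m) := by
  intro l
  rw [coeff_C_mul_X_pow]
  split_ifs
  · exact h
  · simp

end MAM

/-- Module MA. -/
theorem specMA (hEC : SpecEC) (hHG : SpecHG) (hIN : SpecIN) (hLI : SpecLI) (hRA : SpecRA) :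
    SpecMA := by
  classical
  intro μ hμ halg
  obtain ⟨D, hD1, hS, hL⟩ := hLI (μ 0) halg
  obtain ⟨s, hs⟩ : ∃ s, s = D ^ 2 := ⟨_, rfl⟩
  obtain ⟨N, hN⟩ : ∃ N, N = D * (6 * D ^ 3 + 1) := ⟨_, rfl⟩
  obtain ⟨M', hM'⟩ : ∃ M', M' = D * N + 6 * D ^ 3 + 1 := ⟨_, rfl⟩
  have hcard : D * M' < Fintype.card (Option (Fin s) × Fin (N + 1)) := by
    rw [Fintype.card_prod, Fintype.card_option, Fintype.card_fin, Fintype.card_fin]
    have h1 : D * M' = (s + 1) * N := by
      rw [hM', hs, hN]; ring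
    rw [h1]
    exact Nat.mul_lt_mul_of_pos_left (Nat.lt_succ_self _) (Nat.succ_pos _)
  -- the auxiliary function
  obtain ⟨c, hc, hc0⟩ := hS (Option (Fin s) × Fin (N + 1)) M'
    (fun m p => match p with
      | (none, j) => if (j : ℕ) = m then 1 else 0
      | (some i, j) => if (j : ℕ) ≤ m then μ (m - j) ^ (2 ^ (i : ℕ)) else 0) hcard
    (by
      rintro m ⟨o, j⟩
      cases o with
      | none =>
        refine ⟨1, one_ne_zero, if (j : ℕ) = m then 1 else 0, ?_⟩
        simp only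
        by_cases h : (j : ℕ) = m
        · rw [if_pos h, if_pos h, map_one, map_one, mul_one]
        · rw [if_neg h, if_neg h, map_zero, mul_zero]
      | some i =>
        by_cases hj : (j : ℕ) ≤ m
        · obtain ⟨d, hd, T, hT⟩ := hRA μ hμ (m - j) (2 ^ (i : ℕ))
          refine ⟨d, hd, T, ?_⟩
          simp only [if_pos hj]
          exact hT
        · refine ⟨1, one_ne_zero, 0, ?_⟩
          simp only [if_neg hj]
          simp)
  obtain ⟨b, hb⟩ : ∃ b : ℕ → P2, b = fun j => if h : j < N + 1 then c (none, ⟨j, h⟩) else 0 :=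
    ⟨_, rfl⟩
  obtain ⟨cc, hcc⟩ : ∃ cc : Fin s → ℕ → P2, cc = fun i j =>
    if h : j < N + 1 then c (some i, ⟨j, h⟩) else 0 := ⟨_, rfl⟩
  have hbN : ∀ j, N < j → b j = 0 := by
    intro j hj
    rw [hb]
    simp only
    rw [dif_neg (by omega)]
  have hcN : ∀ i j, N < j → cc i j = 0 := by
    intro i j hj
    rw [hcc]
    simp only
    rw [dif_neg (by omega)]
  have hne : (∃ j, b j ≠ 0) ∨ ∃ i j, cc i j ≠ 0 := by
    by_contra h
    push Not at h
    apply hc
    funext p
    obtain ⟨o, j⟩ := p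
    cases o with
    | none =>
      have := h.1 j
      rw [hb] at this
      simp only at this
      rw [dif_pos j.2] at this
      exact this
    | some i =>
      have := h.2 i j
      rw [hcc] at this
      simp only at this
      rw [dif_pos j.2] at this
      exact this
  obtain ⟨F, hF⟩ : ∃ F : PowerSeries S2, F = PowerSeries.mk (fun m => algebraMap P2 S2 (b m)) +
    ∑ i : Fin s, PowerSeries.mk (fun m => algebraMap P2 S2 (cc i m)) *
      PowerSeries.mk (fun j => μ j ^ (2 ^ (i : ℕ))) := ⟨_, rfl⟩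
  have hFc : ∀ m, PowerSeries.coeff m F = algebraMap P2 S2 (b m) +
      ∑ i, ∑ x ∈ Finset.HasAntidiagonal.antidiagonal m,
        algebraMap P2 S2 (cc i x.1) * (μ x.2) ^ (2 ^ (i : ℕ)) := by
    intro m
    rw [hF, map_add, PowerSeries.coeff_mk, map_sum]
    congr 1
    apply Finset.sum_congr rfl
    intro i _
    rw [PowerSeries.coeff_mul]
    apply Finset.sum_congr rfl
    intro x _
    rw [PowerSeries.coeff_mk, PowerSeries.coeff_mk]
  have hF0 : F ≠ 0 := by
    obtain ⟨m, hm⟩ := hIN μ hμ s N b cc hbN hcN hne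
    intro h
    apply hm
    rw [← hFc m, h, map_zero]
  have hdvd : PowerSeries.X ^ M' ∣ F := by
    rw [PowerSeries.X_pow_dvd_iff]
    intro m hm
    rw [hFc m]
    have h1 := hc0 ⟨m, hm⟩
    rw [Fintype.sum_prod_type, Fintype.sum_option] at h1
    simp only at h1
    rw [← h1]
    congr 1
    · rw [hb, Finset.sum_fin_eq_sum_range]
      simp only
      by_cases hmN : m < N + 1
      · rw [dif_pos hmN, Finset.sum_eq_single m]
        · rw [dif_pos hmN, if_pos rfl, mul_one]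
        · intro j hj hjm
          rw [dif_pos (Finset.mem_range.mp hj), if_neg hjm, mul_zero]
        · intro h; exact absurd (Finset.mem_range.mpr hmN) h
      · rw [dif_neg hmN, map_zero]
        symm
        apply Finset.sum_eq_zero
        intro j hj
        have hj' := Finset.mem_range.mp hj
        rw [dif_pos hj', if_neg (by omega), mul_zero]
    · apply Finset.sum_congr rfl
      intro i _
      rw [Finset.Nat.sum_antidiagonal_eq_sum_range_succ_mk, Finset.sum_fin_eq_sum_range]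
      have e1 : ∑ k ∈ Finset.range m.succ, algebraMap P2 S2 (cc i k) * μ (m - k) ^ 2 ^ (i : ℕ) =
          ∑ k ∈ Finset.range (m + 1 + (N + 1)), if k ≤ m then
            algebraMap P2 S2 (cc i k) * μ (m - k) ^ 2 ^ (i : ℕ) else 0 := by
        rw [← Finset.sum_filter]
        apply Finset.sum_congr _ fun _ _ => rfl
        ext k
        simp only [Finset.mem_range, Finset.mem_filter]
        omega
      have e2 : ∑ j ∈ Finset.range (N + 1), (if h : j < N + 1 then
          algebraMap P2 S2 (c (some i, ⟨j, h⟩)) *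
            (if ((⟨j, h⟩ : Fin (N + 1)) : ℕ) ≤ m then
              μ (m - ((⟨j, h⟩ : Fin (N + 1)) : ℕ)) ^ 2 ^ (i : ℕ) else 0) else 0) =
          ∑ k ∈ Finset.range (m + 1 + (N + 1)), if k ≤ m then
            algebraMap P2 S2 (cc i k) * μ (m - k) ^ 2 ^ (i : ℕ) else 0 := by
        rw [← Finset.sum_subset (Finset.range_mono (show N + 1 ≤ m + 1 + (N + 1) by omega))]
        · apply Finset.sum_congr rfl
          intro j hj
          have hj' := Finset.mem_range.mp hj
          rw [dif_pos hj', hcc]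
          simp only
          rw [dif_pos hj']
          split_ifs
          · rfl
          · rw [mul_zero]
        · intro j _ hj
          have hj' : N < j := by
            by_contra h
            exact hj (Finset.mem_range.mpr (by omega))
          rw [hcN i j hj', map_zero, zero_mul]
          split_ifs <;> rfl
      exact e1.trans e2.symm
  -- evaluation
  obtain ⟨n₀, hn₀⟩ := hEC.2 F hF0
  obtain ⟨α, β, γ, hαβγ⟩ := hHG μ hμ
  obtain ⟨e, he⟩ := hL (2 ^ s)
  obtain ⟨Cd, hCd1, hCd2⟩ : ∃ Cd : ℕ, (∀ j, (b j).natDegree ≤ Cd) ∧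
      ∀ i j, (cc i j).natDegree ≤ Cd := by
    refine ⟨∑ p, (c p).natDegree, ?_, ?_⟩
    · intro j
      by_cases h : j < N + 1
      · rw [hb]
        simp only
        rw [dif_pos h]
        exact Finset.single_le_sum (f := fun p => (c p).natDegree) (fun _ _ => Nat.zero_le _)
          (Finset.mem_univ _)
      · rw [hbN j (by omega)]; simp
    · intro i j
      by_cases h : j < N + 1
      · rw [hcc]
        simp only
        rw [dif_pos h]
        exact Finset.single_le_sum (f := fun p => (c p).natDegree) (fun _ _ => Nat.zero_le _)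
          (Finset.mem_univ _)
      · rw [hcN i j (by omega)]; simp
  obtain ⟨k, hk1, hk2, hk3⟩ : ∃ k : ℕ, s ≤ k ∧ n₀ ≤ 5 * 2 ^ k ∧ D * Cd + e < 5 * 2 ^ k := by
    refine ⟨s + n₀ + (D * Cd + e), by omega, ?_, ?_⟩
    · have := Nat.lt_two_pow_self (n := s + n₀ + (D * Cd + e))
      omega
    · have := Nat.lt_two_pow_self (n := s + n₀ + (D * Cd + e))
      omega
  have hn1 : 1 ≤ 5 * 2 ^ k := by have := Nat.one_le_two_pow (n := k); omega
  obtain ⟨φ, hφ⟩ := MAM.exists_hom hEC (5 * 2 ^ k) hn1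
  -- the polynomials
  obtain ⟨Bp, hBp⟩ : ∃ Bp : P2, Bp = ∑ j ∈ Finset.range (N + 1), b j * X ^ (5 * 2 ^ k * j) :=
    ⟨_, rfl⟩
  obtain ⟨Cp, hCp⟩ : ∃ Cp : Fin s → P2, Cp = fun i =>
    ∑ j ∈ Finset.range (N + 1), cc i j * X ^ (5 * 2 ^ k * j) := ⟨_, rfl⟩
  have hBd : Bp.natDegree ≤ Cd + 5 * 2 ^ k * N := by
    rw [hBp]
    apply natDegree_sum_le_of_forall_le
    intro j hj
    have hj' := Finset.mem_range.mp hj
    refine le_trans natDegree_mul_le ?_
    rw [natDegree_X_pow]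
    exact Nat.add_le_add (hCd1 j) (Nat.mul_le_mul_left _ (by omega))
  have hCpd : ∀ i, (Cp i).natDegree ≤ Cd + 5 * 2 ^ k * N := by
    intro i
    rw [hCp]
    apply natDegree_sum_le_of_forall_le
    intro j hj
    have hj' := Finset.mem_range.mp hj
    refine le_trans natDegree_mul_le ?_
    rw [natDegree_X_pow]
    exact Nat.add_le_add (hCd2 i j) (Nat.mul_le_mul_left _ (by omega))
  have hpowd : ∀ (f : ℕ → P2), (∀ k, (f k).natDegree ≤ 30 * 2 ^ k) → ∀ i : Fin s,
      (f (k - i) ^ (2 ^ (i : ℕ))).natDegree ≤ 30 * 2 ^ k := by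
    intro f hf i
    refine le_trans natDegree_pow_le ?_
    have h1 : 2 ^ (i : ℕ) * 2 ^ (k - i) = 2 ^ k := by
      rw [← pow_add]
      congr 1
      have := i.2
      omega
    calc 2 ^ (i : ℕ) * (f (k - i)).natDegree ≤ 2 ^ (i : ℕ) * (30 * 2 ^ (k - i)) :=
          Nat.mul_le_mul_left _ (hf _)
      _ = 30 * (2 ^ (i : ℕ) * 2 ^ (k - i)) := by ring
      _ = 30 * 2 ^ k := by rw [h1]
  have hevF : ev (5 * 2 ^ k) F = algebraMap P2 S2 Bp + ∑ i : Fin s, algebraMap P2 S2 (Cp i) *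
      (ev (5 * 2 ^ (k - i)) (PowerSeries.mk μ)) ^ (2 ^ (i : ℕ)) := by
    rw [← hφ, hF, map_add, map_sum, hφ, MAM.ev_poly hEC _ hn1 b N hbN, hBp]
    congr 1
    apply Finset.sum_congr rfl
    intro i _
    rw [map_mul, hφ, hφ, MAM.ev_poly hEC _ hn1 (cc i) N (hcN i),
      MAM.ev_frob hEC μ i k (by have := i.2; omega), hCp]
  obtain ⟨Γ, hΓ⟩ : ∃ Γ : P2, Γ = ∏ i : Fin s, γ (k - i) ^ (2 ^ (i : ℕ)) := ⟨_, rfl⟩
  obtain ⟨Γi, hΓi⟩ : ∃ Γi : Fin s → P2, Γi = fun i => ∏ i' ∈ (Finset.univ : Finset (Fin s)).erase i,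
    γ (k - (i' : ℕ)) ^ (2 ^ (i' : ℕ)) := ⟨_, rfl⟩
  have hΓ0 : Γ ≠ 0 := by
    rw [hΓ]
    exact Finset.prod_ne_zero_iff.mpr fun i _ => pow_ne_zero _ (hαβγ _).1
  have hΓmul : ∀ i : Fin s, Γ = γ (k - i) ^ (2 ^ (i : ℕ)) * Γi i := by
    intro i
    rw [hΓ, hΓi]
    exact (Finset.mul_prod_erase Finset.univ
      (fun i' : Fin s => γ (k - (i' : ℕ)) ^ (2 ^ (i' : ℕ))) (Finset.mem_univ i)).symm
  have hΓd : Γ.natDegree ≤ s * (30 * 2 ^ k) := by
    rw [hΓ]
    refine le_trans (natDegree_prod_le _ _) ?_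
    refine le_trans (Finset.sum_le_card_nsmul _ _ (30 * 2 ^ k) fun i _ =>
      hpowd γ (fun k => (hαβγ k).2.2.2.1) i) ?_
    rw [Finset.card_univ, Fintype.card_fin, smul_eq_mul]
  have hΓid : ∀ i, (Γi i).natDegree ≤ (s - 1) * (30 * 2 ^ k) := by
    intro i
    rw [hΓi]
    refine le_trans (natDegree_prod_le _ _) ?_
    refine le_trans (Finset.sum_le_card_nsmul _ _ (30 * 2 ^ k) fun i _ =>
      hpowd γ (fun k => (hαβγ k).2.2.2.1) i) ?_
    rw [Finset.card_erase_of_mem (Finset.mem_univ i), Finset.card_univ, Fintype.card_fin,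
      smul_eq_mul]
  obtain ⟨T, hT⟩ : ∃ T : Polynomial P2, T = C (Γ * Bp) * X ^ 0 +
      ∑ i : Fin s, (C (Cp i * Γi i * α (k - i) ^ (2 ^ (i : ℕ))) * X ^ (2 ^ (i : ℕ)) +
        C (Cp i * Γi i * β (k - i) ^ (2 ^ (i : ℕ))) * X ^ 0) := ⟨_, rfl⟩
  obtain ⟨H, hH⟩ : ∃ H, H = Cd + 5 * 2 ^ k * N + s * (30 * 2 ^ k) := ⟨_, rfl⟩
  have hterm : ∀ (f : ℕ → P2), (∀ k, (f k).natDegree ≤ 30 * 2 ^ k) → ∀ i : Fin s,
      (Cp i * Γi i * f (k - i) ^ (2 ^ (i : ℕ))).natDegree ≤ H := by
    intro f hf i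
    refine le_trans natDegree_mul_le ?_
    refine le_trans (Nat.add_le_add natDegree_mul_le (hpowd f hf i)) ?_
    have h1 := hCpd i
    have h2 := hΓid i
    have h3 : (s - 1) * (30 * 2 ^ k) + 30 * 2 ^ k = s * (30 * 2 ^ k) := by
      have : 1 ≤ s := by have := i.2; omega
      obtain ⟨s', rfl⟩ : ∃ s', s = s' + 1 := ⟨s - 1, by omega⟩
      rw [Nat.add_sub_cancel]
      ring
    omega
  have hTbd : MAM.BD H T := by
    rw [hT]
    apply MAM.bd_add
    · apply MAM.bd_mon
      refine le_trans natDegree_mul_le ?_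
      omega
    · apply MAM.bd_sum
      intro i _
      apply MAM.bd_add
      · exact MAM.bd_mon _ _ (hterm α (fun k => (hαβγ k).2.1) i)
      · exact MAM.bd_mon _ _ (hterm β (fun k => (hαβγ k).2.2.1) i)
  have hTdeg : T.natDegree ≤ 2 ^ s := by
    rw [hT]
    refine le_trans (natDegree_add_le _ _) (max_le ?_ ?_)
    · refine le_trans (natDegree_C_mul_X_pow_le _ _) (Nat.zero_le _)
    · apply natDegree_sum_le_of_forall_le
      intro i _
      refine le_trans (natDegree_add_le _ _) (max_le ?_ ?_)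
      · refine le_trans (natDegree_C_mul_X_pow_le _ _) ?_
        exact Nat.pow_le_pow_right (by norm_num) (le_of_lt i.2)
      · refine le_trans (natDegree_C_mul_X_pow_le _ _) (Nat.zero_le _)
  have hTev : aeval (μ 0) T = algebraMap P2 S2 Γ * ev (5 * 2 ^ k) F := by
    rw [hevF, mul_add, Finset.mul_sum, hT, map_add, map_sum]
    congr 1
    · rw [map_mul, aeval_C, pow_zero, map_one, mul_one, map_mul]
    · apply Finset.sum_congr rfl
      intro i _
      have h1 := (hαβγ (k - i)).2.2.2.2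
      have h2 : algebraMap P2 S2 (γ (k - i)) ^ (2 ^ (i : ℕ)) *
          (ev (5 * 2 ^ (k - (i : ℕ))) (PowerSeries.mk μ)) ^ (2 ^ (i : ℕ)) =
          algebraMap P2 S2 (α (k - i)) ^ (2 ^ (i : ℕ)) * (μ 0) ^ (2 ^ (i : ℕ)) +
            algebraMap P2 S2 (β (k - i)) ^ (2 ^ (i : ℕ)) := by
        rw [← mul_pow, h1, MAM.add_pow_two, mul_pow]
      rw [hΓmul i]
      simp only [map_add, map_mul, map_pow, aeval_C, aeval_X, pow_zero, mul_one]
      calc _ = algebraMap P2 S2 (Cp i) * algebraMap P2 S2 (Γi i) *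
            (algebraMap P2 S2 (α (k - i)) ^ (2 ^ (i : ℕ)) * (μ 0) ^ (2 ^ (i : ℕ)) +
            algebraMap P2 S2 (β (k - i)) ^ (2 ^ (i : ℕ))) := by ring
        _ = _ := by rw [← h2]; ring
  have hfin : aeval (μ 0) T = 0 := by
    apply he T H hTdeg hTbd (5 * 2 ^ k * M')
    · have h1 : D * s = D ^ 3 := by rw [hs]; ring
      have h2 : D * H = D * Cd + 5 * 2 ^ k * (D * N) + 30 * 2 ^ k * D ^ 3 := by
        rw [hH, ← h1]; ring
      have h3 : 5 * 2 ^ k * M' = 5 * 2 ^ k * (D * N) + 30 * 2 ^ k * D ^ 3 + 5 * 2 ^ k := by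
        rw [hM']; ring
      rw [h2, h3]
      omega
    · rw [hTev]
      apply Dvd.dvd.mul_left
      exact (hEC.1 (5 * 2 ^ k) hn1).2.2.2.2 F M' hdvd
  rw [hTev] at hfin
  rcases mul_eq_zero.mp hfin with h | h
  · exact MAM.alg_ne hΓ0 h
  · exact hn₀ _ hk2 h

end Pool.Agent.Lib.MPba1bba.TR
end

section
/-!
# The growth series of `B(2,4)` is transcendental, MO: the value modulo 4
-/
namespace Pool.Agent.Lib.MPba1bba.TR

open Polynomial

namespace MOM

/-- reduction modulo `2` as a ring homomorphism -/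
noncomputable def φ : PowerSeries ℤ →+* S2 := PowerSeries.map (Int.castRingHom (ZMod 2))

theorem φ_eq (f : PowerSeries ℤ) : bar0 f = φ f := rfl

theorem φ_z : φ zz = zz := PowerSeries.map_X _

theorem two_eq : (2 : S2) = 0 := by
  have : ((2 : ZMod 2)) = 0 := rfl
  have h2 : (2 : S2) = PowerSeries.C (2 : ZMod 2) := (map_ofNat PowerSeries.C 2).symm
  rw [h2, this, map_zero]

theorem two_ne : (2 : PowerSeries ℤ) ≠ 0 := by
  intro h
  have h1 := congrArg (PowerSeries.coeff 0) h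
  have h2 : (2 : PowerSeries ℤ) = PowerSeries.C (2 : ℤ) := (map_ofNat PowerSeries.C 2).symm
  rw [h2, PowerSeries.coeff_zero_C, map_zero] at h1
  exact two_ne_zero h1

theorem T_ne : (1 + zz ^ 5 : S2) ≠ 0 := by
  intro h
  have h1 := congrArg (PowerSeries.coeff 0) h
  simp at h1

end MOM

open MOM in
theorem specMO (hEV : SpecEV) (hBA : SpecBA) (hEM : SpecEM) (hKA : SpecKA) : SpecMO := by
  intro P Q E H hP hS
  obtain ⟨-, -, -, -, -, hL1, hLd, hm, ⟨e11, e01, d11, e1z, e0z, d1z, e1u, e0u, d1u⟩⟩ := hEV ℤ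
  obtain ⟨-, -, -, -, -, -, -, hm', ⟨e11', e01', d11', e1z', e0z', d1z', e1u', e0u', d1u'⟩⟩ :=
    hEV (ZMod 2)
  have e1a := fun F G => (hm F G).1
  have e1m := fun F G => (hm F G).2.1
  have e0a := fun F G => (hm F G).2.2.1
  have e0m := fun F G => (hm F G).2.2.2.1
  have d1a := fun F G => (hm F G).2.2.2.2.1
  have d1m := fun F G => (hm F G).2.2.2.2.2
  have e1a' := fun F G => (hm' F G).1
  have e1m' := fun F G => (hm' F G).2.1
  have e0a' := fun F G => (hm' F G).2.2.1
  have e0m' := fun F G => (hm' F G).2.2.2.1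
  have d1a' := fun F G => (hm' F G).2.2.2.2.1
  have d1m' := fun F G => (hm' F G).2.2.2.2.2
  obtain ⟨bE, bQ, -, -, bF⟩ := hEM Q E H hS
  obtain ⟨-, -, -, -, -, bev, -, bdiv⟩ := hBA
  obtain ⟨κ, hκ, hκ'⟩ := hKA P hP (FF2 Q E H)
  obtain ⟨hQ, hE, hH⟩ := hS
  -- values at `u = 1` over `ℤ`
  have q1 : ev1 Q = zz + zz * ev1 E * ev1 Q := by
    have h := congrArg ev1 hQ
    simp only [e1a, e1m, e1z, e1u] at h
    linear_combination h
  have q2 : dv1 Q = zz + zz * ev1 E * ev1 Q + zz * dv1 E * ev1 Q + zz * ev1 E * dv1 Q := by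
    have h := congrArg dv1 hQ
    simp only [e1a, e1m, e1z, e1u, d1a, d1m, d1z, d1u] at h
    linear_combination h
  have q0 : ev0 Q = 0 := by
    have h := congrArg ev0 hQ
    simp only [e0a, e0m, e0z, e0u] at h
    linear_combination h
  have neg1 : ∀ F G : PowerSeries ℤ[X], ev1 (F - G) = ev1 F - ev1 G := by
    intro F G
    have := e1a (F - G) G
    rw [sub_add_cancel] at this
    linear_combination -this
  have negd : ∀ F G : PowerSeries ℤ[X], dv1 (F - G) = dv1 F - dv1 G := by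
    intro F G
    have := d1a (F - G) G
    rw [sub_add_cancel] at this
    linear_combination -this
  have a1 : ev1 E = zz ^ 2 * (2 * (1 + ev1 E + ev1 Q * (1 + ev1 E) ^ 2) -
      (1 - zz ^ 2) * (1 + ev0 E) - 1) := by
    have h := congrArg ev1 hE
    rw [pow_two zz, pow_two (1 + E)] at h
    simp only [e1m, neg1, hL1, e1a, e1z, e11, e0a, e0m, e01, q0] at h
    linear_combination h
  have a2 : dv1 E = zz ^ 2 * ((dv1 E + dv1 Q * (1 + ev1 E) ^ 2 +
      2 * ev1 Q * (1 + ev1 E) * dv1 E) - (1 + ev1 E + ev1 Q * (1 + ev1 E) ^ 2) +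
      (1 + zz ^ 2) * (1 + ev0 E)) := by
    have h := congrArg dv1 hE
    rw [pow_two zz, pow_two (1 + E)] at h
    simp only [e1m, neg1, negd, hL1, hLd, e1a, e1z, e11, e0a, e0m, e01, q0, d1m, d1a, d1z, d11] at h
    linear_combination h
  have h1 : ev1 H = zz * (2 * ((1 + ev1 Q * (1 + ev1 E)) * (1 + ev1 E + ev1 H)) -
      (1 - zz ^ 2) * (1 + ev0 E + ev0 H)) := by
    have h := congrArg ev1 hH
    simp only [e1m, hL1, e1a, e1z, e11, e0a, e0m, e01, q0] at h
    linear_combination h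
  have h2 : dv1 H = zz * (((dv1 Q * (1 + ev1 E) + ev1 Q * dv1 E) * (1 + ev1 E + ev1 H) +
      (1 + ev1 Q * (1 + ev1 E)) * (dv1 E + dv1 H)) -
      ((1 + ev1 Q * (1 + ev1 E)) * (1 + ev1 E + ev1 H)) +
      (1 + zz ^ 2) * (1 + ev0 E + ev0 H)) := by
    have h := congrArg dv1 hH
    simp only [e1m, hL1, hLd, e1a, e1z, e11, e0a, e0m, e01, q0, d1m, d1a, d1z, d11] at h
    linear_combination h
  have f1 : ev1 (FF2 Q E H) = 1 + ev1 E + 2 * ev1 H + ev1 Q * (1 + ev1 E + ev1 H) ^ 2 := by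
    unfold FF2
    rw [pow_two, two_mul]
    simp only [e1a, e1m, e11]
    ring
  have f2 : dv1 (FF2 Q E H) = dv1 E + 2 * dv1 H + dv1 Q * (1 + ev1 E + ev1 H) ^ 2 +
      2 * ev1 Q * (1 + ev1 E + ev1 H) * (dv1 E + dv1 H) := by
    unfold FF2
    rw [pow_two, two_mul]
    simp only [e1a, e1m, e11, d1a, d1m, d11]
    ring
  rw [f1, f2] at hκ
  -- reductions
  have rE1 : φ (ev1 E) = zz ^ 4 := by
    rw [← φ_eq, (bev E).2.1, bE]
    rw [show (zz ^ 4 * uu : PowerSeries (ZMod 2)[X]) = zz * zz * zz * zz * uu by ring]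
    simp only [e1m', e1z', e1u']
    ring
  have rE2 : φ (dv1 E) = zz ^ 4 := by
    rw [← φ_eq, (bev E).2.2, bE]
    rw [show (zz ^ 4 * uu : PowerSeries (ZMod 2)[X]) = zz * zz * zz * zz * uu by ring]
    simp only [e1m', e1z', e1u', d1m', d1z', d1u']
    ring
  have rE0 : φ (ev0 E) = 0 := by
    rw [← φ_eq, (bev E).1, bE]
    rw [show (zz ^ 4 * uu : PowerSeries (ZMod 2)[X]) = zz * zz * zz * zz * uu by ring]
    simp only [e0m', e0z', e0u']
    ring
  have bQ' : (1 + zz * zz * zz * zz * zz * (uu * uu)) * bar Q = zz * uu := by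
    rw [← bQ]
    ring
  have rQ1 : (1 + zz ^ 5) * φ (ev1 Q) = zz := by
    rw [← φ_eq, (bev Q).2.1]
    have h := congrArg ev1 bQ'
    simp only [e1a', e1m', e11', e1z', e1u'] at h
    linear_combination h
  have rQ2 : (1 + zz ^ 5) * φ (dv1 Q) = zz := by
    rw [← φ_eq, (bev Q).2.2]
    have h := congrArg dv1 bQ'
    simp only [e1a', e1m', e11', e1z', e1u', d1a', d1m', d11', d1z', d1u'] at h
    linear_combination h - zz ^ 5 * ev1 (bar Q) * two_eq
  have rQ : φ (dv1 Q) = φ (ev1 Q) := mul_left_cancel₀ T_ne (rQ2.trans rQ1.symm)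
  obtain ⟨σ, hσ⟩ := bdiv (ev1 E + dv1 E) (by
    rw [φ_eq, map_add, rE1, rE2]
    linear_combination zz ^ 4 * two_eq)
  obtain ⟨y, hy⟩ := bdiv (ev1 Q + dv1 Q) (by
    rw [φ_eq, map_add, rQ]
    linear_combination φ (ev1 Q) * two_eq)
  have two_c := two_ne
  -- the equations divided by `2`
  have hy' : (1 - zz * ev1 E) * y = zz + zz * ev1 Q * σ := by
    refine mul_left_cancel₀ two_c ?_
    linear_combination (-(1 - zz * ev1 E)) * hy + q1 + q2 + zz * ev1 Q * hσ
  have hσ' : σ = zz ^ 2 * (σ + y * (1 + ev1 E) ^ 2 + ev1 Q * (1 + ev1 E) * dv1 E +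
      zz ^ 2 * (1 + ev0 E)) := by
    refine mul_left_cancel₀ two_c ?_
    linear_combination (-1) * hσ + a1 + a2 + zz ^ 2 * hσ + zz ^ 2 * (1 + ev1 E) ^ 2 * hy
  -- existence of `S₁`
  have hpsi : bar0 (psi2 P (FF2 Q E H) - 1) = 0 := by
    rw [φ_eq, map_sub, map_one]
    have h := congrArg φ hκ
    simp only [map_mul, map_sub, map_add, map_one, map_pow, map_ofNat, two_eq, zero_mul, sub_zero,
      one_mul, rE1, rE2, rQ] at h
    rw [h]
    linear_combination (zz ^ 4 + φ (ev1 Q) * (1 + zz ^ 4 + φ (ev1 H)) ^ 2) * two_eq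
  obtain ⟨S₁, hS₁⟩ := bdiv _ hpsi
  have hS₁' : psi2 P (FF2 Q E H) = 1 + 2 * S₁ := by linear_combination hS₁
  rw [hS₁'] at hκ
  have hmain : S₁ - zz ^ 2 - 2 * zz ^ 2 * S₁ = σ + (ev1 H + dv1 H) +
      y * (1 + ev1 E + ev1 H) ^ 2 + ev1 Q * (1 + ev1 E + ev1 H) * (dv1 E + dv1 H) -
      zz ^ 4 * (1 + ev1 E + 2 * ev1 H + ev1 Q * (1 + ev1 E + ev1 H) ^ 2) -
      zz ^ 2 * (dv1 E + 2 * dv1 H + dv1 Q * (1 + ev1 E + ev1 H) ^ 2 +
      2 * ev1 Q * (1 + ev1 E + ev1 H) * (dv1 E + dv1 H)) - zz ^ 8 * κ := by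
    refine mul_left_cancel₀ two_c ?_
    linear_combination hκ + hσ + (1 + ev1 E + ev1 H) ^ 2 * hy
  refine ⟨S₁, hS₁', φ σ, φ (ev1 H), φ (dv1 H), φ κ, ?_, ?_, ?_, ?_, ?_⟩
  · have e1 := congrArg φ hσ'
    have e2 := congrArg φ hy'
    simp only [map_mul, map_sub, map_add, map_one, map_pow, φ_z, rE1, rE2, rE0] at e1 e2
    have e3 : (1 + zz ^ 5) ^ 2 * φ y = zz * (1 + zz ^ 5) + zz ^ 2 * φ σ := by
      linear_combination (1 + zz ^ 5) * e2 + zz * φ σ * rQ1 + (1 + zz ^ 5) * zz ^ 5 * φ y * two_eq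
    linear_combination (1 + zz ^ 5) ^ 2 * e1 + zz ^ 2 * (1 + zz ^ 4) ^ 2 * e3 +
      zz ^ 2 * (1 + zz ^ 5) * (1 + zz ^ 4) * zz ^ 4 * rQ1 + (
      φ σ * zz + φ σ * zz ^ 2 * 2 + φ σ * zz ^ 3 + φ σ * zz ^ 4 + φ σ * zz ^ 6 + φ σ * zz ^ 7 *
      2 + φ σ * zz ^ 8 + φ σ * zz ^ 12 + zz ^ 7 + zz ^ 11 + zz ^ 12 + zz ^ 16) * two_eq
  · have e1 := congrArg φ h1
    simp only [map_mul, map_sub, map_add, map_one, map_pow, map_ofNat, φ_z, rE1, rE2, rE0] at e1
    rw [← (bev H).1, φ_eq]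
    linear_combination e1 + (
      φ (ev1 H) * zz + φ (ev1 H) * zz * φ (ev1 Q) + φ (ev1 H) * zz ^ 5 * φ (ev1 Q) + zz * φ
      (ev1 Q) - zz * φ (ev0 H) + zz ^ 5 + zz ^ 5 * φ (ev1 Q) * 2 + zz ^ 9 * φ (ev1 Q)) * two_eq
  · have e1 := congrArg φ h1
    have e2 := congrArg φ h2
    simp only [map_mul, map_sub, map_add, map_one, map_pow, map_ofNat, φ_z, rE1, rE2, rE0,
      rQ] at e1 e2
    linear_combination (1 + zz ^ 5) * e2 + zz * (zz ^ 4 * (1 + zz ^ 4 + φ (ev1 H)) +
      (1 + zz ^ 4) * (zz ^ 4 + φ (dv1 H))) * rQ1 + (1 + zz ^ 5) * e1 + (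
      φ (dv1 H) * zz + φ (dv1 H) * zz ^ 2 + φ (dv1 H) * zz ^ 6 + zz * φ (ev1 Q) + zz * φ (ev1
      Q) * φ (ev1 H) + zz ^ 3 + zz ^ 3 * φ (ev0 H) + zz ^ 5 + zz ^ 5 * φ (ev1 Q) * 2 + zz ^ 5 *
      φ (ev1 Q) * φ (ev1 H) - zz ^ 5 * φ (ev1 H) + zz ^ 6 + zz ^ 6 * φ (ev1 Q) + zz ^ 6 * φ
      (ev1 Q) * φ (ev1 H) + zz ^ 6 * φ (ev1 H) + zz ^ 8 + zz ^ 8 * φ (ev0 H) + zz ^ 9 * φ (ev1
      Q) + zz ^ 10 * 2 + zz ^ 10 * φ (ev1 Q) * 2 + zz ^ 10 * φ (ev1 Q) * φ (ev1 H) + zz ^ 14 *
      φ (ev1 Q) - φ (ev1 H)) * two_eq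
  · rw [← φ_eq, mul_comm]
    exact hκ' bF
  · have e1 := congrArg φ hmain
    have e2 := congrArg φ hy'
    simp only [map_mul, map_sub, map_add, map_one, map_pow, map_ofNat, φ_z, rE1, rE2, rE0,
      rQ] at e1 e2
    have e3 : (1 + zz ^ 5) ^ 2 * φ y = zz * (1 + zz ^ 5) + zz ^ 2 * φ σ := by
      linear_combination (1 + zz ^ 5) * e2 + zz * φ σ * rQ1 + (1 + zz ^ 5) * zz ^ 5 * φ y * two_eq
    rw [φ_eq]
    linear_combination (1 + zz ^ 5) ^ 2 * e1 + (1 + zz ^ 4 + φ (ev1 H)) ^ 2 * e3 +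
      (1 + zz ^ 5) * ((1 + zz ^ 4 + φ (ev1 H)) * (zz ^ 4 + φ (dv1 H)) -
      (zz ^ 2 + zz ^ 4) * (1 + zz ^ 4 + φ (ev1 H)) ^ 2) * rQ1 + (
      zz ^ 2 * φ S₁ - zz ^ 2 * φ (ev1 H) * φ (dv1 H) * φ (ev1 Q) - zz ^ 2 * φ (dv1 H) - zz ^ 2
      * φ (dv1 H) * φ (ev1 Q) - zz ^ 3 - zz ^ 3 * φ (ev1 H) * 2 - zz ^ 3 * φ (ev1 H) ^ 2 - zz ^
      4 - zz ^ 4 * φ (ev1 H) - zz ^ 5 - zz ^ 5 * φ (ev1 H) * 2 - zz ^ 5 * φ (ev1 H) ^ 2 - zz ^
      6 - zz ^ 6 * φ (ev1 H) * φ (ev1 Q) - zz ^ 6 * φ (dv1 H) * φ (ev1 Q) - zz ^ 6 * φ (ev1 Q)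
      - zz ^ 7 * 2 + zz ^ 7 * φ S₁ * 2 - zz ^ 7 * φ (ev1 H) * 2 - zz ^ 7 * φ (ev1 H) * φ (dv1
      H) * φ (ev1 Q) * 2 - zz ^ 7 * φ (dv1 H) * 2 - zz ^ 7 * φ (dv1 H) * φ (ev1 Q) * 2 - zz ^ 8
      * 2 - zz ^ 8 * φ (ev1 H) * 2 - zz ^ 8 * φ (ev1 H) ^ 2 - zz ^ 8 * φ κ - zz ^ 9 * 4 - zz ^
      9 * φ (ev1 H) * 4 - zz ^ 10 - zz ^ 10 * φ (ev1 H) * 2 - zz ^ 10 * φ (ev1 H) ^ 2 - zz ^ 10
      * φ (ev1 Q) - zz ^ 11 * 3 - zz ^ 11 * φ (ev1 H) * φ (ev1 Q) * 2 - zz ^ 11 * φ (dv1 H) * φ
      (ev1 Q) * 2 - zz ^ 11 * φ (ev1 Q) * 2 - zz ^ 12 * 2 + zz ^ 12 * φ S₁ - zz ^ 12 * φ (ev1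
      H) * 2 - zz ^ 12 * φ (ev1 H) * φ (dv1 H) * φ (ev1 Q) - zz ^ 12 * φ (dv1 H) - zz ^ 12 * φ
      (dv1 H) * φ (ev1 Q) - zz ^ 13 * 3 - zz ^ 13 * φ κ * 2 - zz ^ 14 * 3 - zz ^ 14 * φ (ev1 H)
      * 3 - zz ^ 15 * φ (ev1 Q) * 2 - zz ^ 16 * 2 - zz ^ 16 * φ (ev1 H) * φ (ev1 Q) - zz ^ 16 *
      φ (dv1 H) * φ (ev1 Q) - zz ^ 16 * φ (ev1 Q) - zz ^ 18 * 2 - zz ^ 18 * φ κ - zz ^ 20 * φ
      (ev1 Q)) * two_eq

end Pool.Agent.Lib.MPba1bba.TR
end

section
/-!
# Module PA: parity in `u`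
-/
set_option autoImplicit false

namespace Pool.Agent.Lib.MPba1bba.TR.PAM

open Polynomial EVM

/-- the derivative with respect to `u` -/
noncomputable def dd (F : PowerSeries (ZMod 2)[X]) : PowerSeries (ZMod 2)[X] :=
  PowerSeries.mk fun n => derivative (PowerSeries.coeff n F)

theorem coeff_dd (F : PowerSeries (ZMod 2)[X]) (n : ℕ) :
    PowerSeries.coeff n (dd F) = derivative (PowerSeries.coeff n F) := by
  rw [dd, PowerSeries.coeff_mk]

theorem dd_add (F G : PowerSeries (ZMod 2)[X]) : dd (F + G) = dd F + dd G := by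
  ext1 n
  rw [coeff_dd, map_add (PowerSeries.coeff n) F G, map_add (PowerSeries.coeff n) (dd F) (dd G),
    coeff_dd, coeff_dd, derivative_add]

theorem dd_mul (F G : PowerSeries (ZMod 2)[X]) : dd (F * G) = dd F * G + F * dd G := by
  ext1 n
  simp only [coeff_dd, map_add, PowerSeries.coeff_mul, derivative_sum, derivative_mul,
    Finset.sum_add_distrib]

theorem odd_cast {k : ℕ} (hk : Odd k) : (k : ZMod 2) = 1 := by
  rw [ZMod.natCast_eq_one_iff_odd]
  exact hk

theorem even_cast {k : ℕ} (hk : Even k) : (k : ZMod 2) = 0 := by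
  rw [ZMod.natCast_eq_zero_iff_even]
  exact hk

theorem evenU_iff (F : PowerSeries (ZMod 2)[X]) : EvenU F ↔ dd F = 0 := by
  constructor
  · intro h
    ext n k
    rw [coeff_dd, coeff_derivative, map_zero, coeff_zero]
    rcases Nat.even_or_odd (k + 1) with h1 | h1
    · have h2 := even_cast h1
      push_cast at h2
      rw [h2, mul_zero]
    · rw [h n (k + 1) h1, zero_mul]
  · intro h n k hk
    obtain ⟨m, rfl⟩ : ∃ m, k = m + 1 := ⟨k - 1, by have := hk.pos; omega⟩
    have h1 : (PowerSeries.coeff n (dd F)).coeff m = 0 := by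
      rw [h, map_zero, coeff_zero]
    rw [coeff_dd, coeff_derivative] at h1
    have h2 := odd_cast hk
    push_cast at h2
    rwa [h2, mul_one] at h1

theorem oddU_iff (F : PowerSeries (ZMod 2)[X]) : OddU F ↔ uu * dd F = F := by
  have key : ∀ n k : ℕ, (PowerSeries.coeff n (uu * dd F)).coeff k =
      (k : ZMod 2) * (PowerSeries.coeff n F).coeff k := by
    intro n k
    rw [uu, PowerSeries.coeff_C_mul, coeff_dd]
    cases k with
    | zero => simp
    | succ k =>
      rw [coeff_X_mul, coeff_derivative]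
      push_cast
      ring
  constructor
  · intro h
    ext n k
    rw [key]
    rcases Nat.even_or_odd k with h1 | h1
    · rw [h n k h1, mul_zero]
    · rw [odd_cast h1, one_mul]
  · intro h n k hk
    have h1 := key n k
    rw [h, even_cast hk, zero_mul] at h1
    exact h1

theorem two_zero : (2 : PowerSeries (ZMod 2)[X]) = 0 := by
  have h : (2 : ZMod 2) = 0 := by decide
  have h1 : (2 : PowerSeries (ZMod 2)[X]) = PowerSeries.C (C (2 : ZMod 2)) := by
    rw [C_ofNat, map_ofNat]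
  rw [h1, h, map_zero, map_zero]

theorem uu_ne : (uu : PowerSeries (ZMod 2)[X]) ≠ 0 := by
  intro h
  have h1 : PowerSeries.coeff 0 (uu : PowerSeries (ZMod 2)[X]) = 0 := by rw [h, map_zero]
  rw [uu, PowerSeries.coeff_C, if_pos rfl] at h1
  exact X_ne_zero h1

theorem lm_odd {p : (ZMod 2)[X]} (h : ∀ k, Even k → p.coeff k = 0) : lm p = 0 := by
  rw [lm_def, Polynomial.sum_def]
  refine Finset.sum_eq_zero fun v _ => ?_
  rcases Nat.even_or_odd v with h1 | h1
  · rw [h v h1, C_0, zero_mul]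
  · obtain ⟨m, rfl⟩ := h1
    have h2 : (2 * m + 1) / 2 = m := by omega
    have h3 : (2 * m + 1 - 1) / 2 = m := by omega
    have h4 : im (ZMod 2) (2 * m + 1) = 0 := by
      rw [im, if_neg (by omega), h2, h3, ← two_mul]
      have h : (2 : (ZMod 2)[X]) = 0 := by
        have h5 : (2 : ZMod 2) = 0 := by decide
        have h6 : (2 : (ZMod 2)[X]) = C (2 : ZMod 2) := by rw [C_ofNat]
        rw [h6, h5, C_0]
      rw [h, zero_mul]
    rw [h4, mul_zero]

end Pool.Agent.Lib.MPba1bba.TR.PAM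

namespace Pool.Agent.Lib.MPba1bba.TR

open Polynomial EVM PAM

theorem specPA : SpecPA := by
  refine ⟨fun F G => ⟨fun hF hG => ?_, fun hF hG => ?_, fun hF hG => ?_⟩, fun F => ?_, ?_, ?_, ?_,
    fun F hF => ?_, fun F G hF hc h => ?_⟩
  · rw [evenU_iff] at hF hG
    rw [evenU_iff, evenU_iff, dd_add, dd_mul, hF, hG]
    simp
  · rw [oddU_iff] at hF hG
    rw [oddU_iff, evenU_iff, dd_add, dd_mul]
    refine ⟨by rw [mul_add, hF, hG], ?_⟩
    have h1 : uu * (dd F * G + F * dd G) = 0 := by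
      have h2 : uu * (dd F * G + F * dd G) = (uu * dd F) * G + F * (uu * dd G) := by ring
      rw [h2, hF, hG, ← two_mul, two_zero, zero_mul]
    exact (mul_eq_zero.mp h1).resolve_left uu_ne
  · rw [oddU_iff] at hF
    rw [evenU_iff] at hG
    rw [oddU_iff, dd_mul, hG, mul_zero, add_zero, ← mul_assoc, hF]
  · rw [evenU_iff, pow_two, dd_mul, mul_comm (dd F) F, ← two_mul, two_zero, zero_mul]
  · intro n k hk
    rw [PowerSeries.coeff_one]
    split_ifs
    · rw [coeff_one, if_neg]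
      rintro rfl
      exact absurd hk (by decide)
    · rw [coeff_zero]
  · intro n k hk
    rw [PowerSeries.coeff_X]
    split_ifs
    · rw [coeff_one, if_neg]
      rintro rfl
      exact absurd hk (by decide)
    · rw [coeff_zero]
  · intro n k hk
    rw [uu, PowerSeries.coeff_C]
    split_ifs
    · rw [coeff_X, if_neg]
      rintro rfl
      exact absurd hk (by decide)
    · rw [coeff_zero]
  · constructor
    · ext1 n
      rw [coeff_LM, lm_odd (hF n), zero_add, map_zero]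
      split_ifs
      · rw [hF (n - 2) 0 (by decide), C_0, mul_zero]
      · rfl
    · ext n
      rw [ev0, PowerSeries.coeff_mk, hF n 0 (by decide), map_zero]
  · rw [evenU_iff] at hF
    rw [oddU_iff, dd_mul, hF, zero_mul, zero_add] at h
    rw [oddU_iff]
    have hF0 : F ≠ 0 := by
      rintro rfl
      rw [map_zero] at hc
      exact zero_ne_one hc
    have h1 : F * (uu * dd G) = F * G := by
      rw [← h]
      ring
    exact mul_left_cancel₀ hF0 h1

end Pool.Agent.Lib.MPba1bba.TR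
end

section
/-!
# The growth series of `B(2,4)` is transcendental: module QU
-/
namespace Pool.Agent.Lib.MPba1bba.TR

open Polynomial

namespace QUM

/-- the coefficient `A` -/
noncomputable def pA : P2 :=
  X ^ 3 + X ^ 4 + X ^ 5 + X ^ 7 + X ^ 9 + X ^ 10 + X ^ 13 + X ^ 14 + X ^ 15 + X ^ 17 + X ^ 18 +
  X ^ 21 + X ^ 23 + X ^ 24 + X ^ 25 + X ^ 26

/-- the coefficient `B` -/
noncomputable def pB : P2 :=
  X ^ 2 + X ^ 5 + X ^ 6 + X ^ 7 + X ^ 8 + X ^ 9 + X ^ 11 + X ^ 15 + X ^ 16 + X ^ 17 + X ^ 18 + X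
  ^ 19 + X ^ 21 + X ^ 22

/-- the coefficient `C` -/
noncomputable def pC : P2 :=
  X ^ 6 + X ^ 10 + X ^ 11 + X ^ 12 + X ^ 13 + X ^ 15 + X ^ 16 + X ^ 18 + X ^ 19 + X ^ 21 + X ^
  22 + X ^ 23 + X ^ 24 + X ^ 28

/-- the coefficient `D` -/
noncomputable def pD : P2 := (1 + X ^ 2) * (1 + X ^ 5) ^ 2 * (1 + X + X ^ 2 + X ^ 5) ^ 2

theorem pC_ne : pC ≠ 0 := by
  intro h
  have h1 := congrArg (fun p : P2 => p.coeff 28) h
  simp only [pC, coeff_add, coeff_X_pow, coeff_zero] at h1
  norm_num at h1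

theorem pD_ne : pD ≠ 0 := by
  intro h
  have h1 := congrArg (fun p : P2 => p.eval 0) h
  simp [pD] at h1

theorem main {R : Type} [CommRing R] (h2 : (2 : R) = 0) (z S H σ h h' κ : R)
    (e1 : σ * (1 + z + z ^ 2 + z ^ 5) ^ 2 =
      z ^ 3 * (1 + z ^ 4) * (1 + z ^ 5) + z ^ 4 * (1 + z ^ 5) ^ 2)
    (e2 : h = (z + z ^ 3) * (1 + H))
    (e3 : h' * (1 + z + z ^ 2 + z ^ 5) = z * (1 + z ^ 5) + h * (1 + z ^ 5 + z))
    (e4 : κ * (1 + z ^ 2) = 1)
    (e5 : (1 + z ^ 5) ^ 2 * S = (1 + z ^ 5) ^ 2 * (σ + h + h') +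
      z * (1 + z ^ 5 + z * σ) * (1 + z ^ 4 + h) ^ 2 +
      z * (1 + z ^ 5) * (1 + z ^ 4 + h) * (z ^ 4 + h') +
      (z ^ 2 + z ^ 4) * ((1 + z ^ 5) ^ 2 * (1 + z ^ 4) +
        z * (1 + z ^ 5) * (1 + z ^ 4 + h) ^ 2) +
      z ^ 8 * (1 + z ^ 5) ^ 2 * κ) :
    ((1 + z ^ 2) * (1 + z ^ 5) ^ 2 * (1 + z + z ^ 2 + z ^ 5) ^ 2) * S =
      (z ^ 3 + z ^ 4 + z ^ 5 + z ^ 7 + z ^ 9 + z ^ 10 + z ^ 13 + z ^ 14 + z ^ 15 + z ^ 17 + z ^
      18 + z ^ 21 + z ^ 23 + z ^ 24 + z ^ 25 + z ^ 26) +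
      (z ^ 2 + z ^ 5 + z ^ 6 + z ^ 7 + z ^ 8 + z ^ 9 + z ^ 11 + z ^ 15 + z ^ 16 + z ^ 17 + z ^ 18
      + z ^ 19 + z ^ 21 + z ^ 22) * H +
      (z ^ 6 + z ^ 10 + z ^ 11 + z ^ 12 + z ^ 13 + z ^ 15 + z ^ 16 + z ^ 18 + z ^ 19 + z ^ 21 + z
      ^ 22 + z ^ 23 + z ^ 24 + z ^ 28) * H ^ 2 := by
  subst e2
  linear_combination
    ((1 + z ^ 2) * (1 + z + z ^ 2 + z ^ 5) ^ 2) * e5 +
    ((1 + z ^ 5) ^ 2 * (1 + z ^ 2) + z * (1 + z ^ 2) * z *
      (1 + z ^ 4 + (z + z ^ 3) * (1 + H)) ^ 2) * e1 +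
    ((1 + z ^ 5) ^ 2 * (1 + z ^ 2) * (1 + z + z ^ 2 + z ^ 5) + z * (1 + z ^ 2) * (1 + z ^ 5) *
      (1 + z ^ 4 + (z + z ^ 3) * (1 + H)) * (1 + z + z ^ 2 + z ^ 5)) * e3 +
    (z ^ 8 * (1 + z ^ 5) ^ 2 * (1 + z + z ^ 2 + z ^ 5) ^ 2) * e4 +
    (2 * z ^ 1 + 1 * z ^ 1 * H ^ 1 + 6 * z ^ 2 + 3 * z ^ 2 * H ^ 1 + 14 * z ^ 3 + 10 * z ^ 3 * H
    ^ 1 + 1 * z ^ 3 * H ^ 2 + 23 * z ^ 4 + 18 * z ^ 4 * H ^ 1 + 2 * z ^ 4 * H ^ 2 + 35 * z ^ 5 +
    30 * z ^ 5 * H ^ 1 + 6 * z ^ 5 * H ^ 2 + 55 * z ^ 6 + 46 * z ^ 6 * H ^ 1 + 8 * z ^ 6 * H ^ 2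
    + 75 * z ^ 7 + 66 * z ^ 7 * H ^ 1 + 15 * z ^ 7 * H ^ 2 + 107 * z ^ 8 + 93 * z ^ 8 * H ^ 1 +
    19 * z ^ 8 * H ^ 2 + 131 * z ^ 9 + 115 * z ^ 9 * H ^ 1 + 25 * z ^ 9 * H ^ 2 + 155 * z ^ 10 +
    143 * z ^ 10 * H ^ 1 + 32 * z ^ 10 * H ^ 2 + 178 * z ^ 11 + 157 * z ^ 11 * H ^ 1 + 34 * z ^
    11 * H ^ 2 + 190 * z ^ 12 + 176 * z ^ 12 * H ^ 1 + 43 * z ^ 12 * H ^ 2 + 210 * z ^ 13 + 188
    * z ^ 13 * H ^ 1 + 41 * z ^ 13 * H ^ 2 + 211 * z ^ 14 + 187 * z ^ 14 * H ^ 1 + 45 * z ^ 14 *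
    H ^ 2 + 211 * z ^ 15 + 191 * z ^ 15 * H ^ 1 + 44 * z ^ 15 * H ^ 2 + 196 * z ^ 16 + 168 * z ^
    16 * H ^ 1 + 38 * z ^ 16 * H ^ 2 + 172 * z ^ 17 + 157 * z ^ 17 * H ^ 1 + 40 * z ^ 17 * H ^ 2
    + 159 * z ^ 18 + 134 * z ^ 18 * H ^ 1 + 28 * z ^ 18 * H ^ 2 + 129 * z ^ 19 + 108 * z ^ 19 *
    H ^ 1 + 27 * z ^ 19 * H ^ 2 + 110 * z ^ 20 + 91 * z ^ 20 * H ^ 1 + 19 * z ^ 20 * H ^ 2 + 81
    * z ^ 21 + 62 * z ^ 21 * H ^ 1 + 14 * z ^ 21 * H ^ 2 + 57 * z ^ 22 + 47 * z ^ 22 * H ^ 1 +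
    11 * z ^ 22 * H ^ 2 + 44 * z ^ 23 + 31 * z ^ 23 * H ^ 1 + 5 * z ^ 23 * H ^ 2 + 26 * z ^ 24 +
    20 * z ^ 24 * H ^ 1 + 5 * z ^ 24 * H ^ 2 + 19 * z ^ 25 + 12 * z ^ 25 * H ^ 1 + 1 * z ^ 25 *
    H ^ 2 + 10 * z ^ 26 + 6 * z ^ 26 * H ^ 1 + 2 * z ^ 26 * H ^ 2 + 5 * z ^ 27 + 3 * z ^ 27 * H
    ^ 1 + 3 * z ^ 28 + 1 * z ^ 28 * H ^ 1 + 1 * z ^ 29 + 1 * z ^ 29 * H ^ 1 + 1 * z ^ 30) * h2

theorem two_eq : (2 : S2) = 0 := by
  have h : (2 : ZMod 2) = 0 := rfl
  have h1 := congrArg (PowerSeries.C : ZMod 2 →+* S2) h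
  rwa [map_ofNat, map_zero] at h1

theorem map_X : algebraMap P2 S2 X = zz := by
  simp [PowerSeries.algebraMap_apply']

end QUM

theorem specQU : SpecQU := by
  refine ⟨QUM.pA, QUM.pB, QUM.pC, QUM.pD, QUM.pC_ne, QUM.pD_ne, ?_⟩
  intro S₁ H₀ σ h h' κ e1 e2 e3 e4 e5
  have h1 := QUM.main QUM.two_eq zz S₁ H₀ σ h h' κ e1 e2 e3 e4 e5
  simp only [QUM.pA, QUM.pB, QUM.pC, QUM.pD, map_add, map_mul, map_pow, map_one, QUM.map_X]
  exact h1

end Pool.Agent.Lib.MPba1bba.TR
end

section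
/-!
# Module RA: every `μ_j ^ e` is a quotient of a polynomial in `μ_0` by a polynomial in `z`
-/
namespace Pool.Agent.Lib.MPba1bba.TR

open Polynomial

namespace RAM

/-- Up to a nonzero factor in `𝔽₂[z]` a polynomial in `x`. -/
def Good (x y : S2) : Prop := ∃ d : P2, d ≠ 0 ∧ ∃ T : Polynomial P2,
  algebraMap P2 S2 d * y = aeval x T

theorem good_self (x : S2) : Good x x :=
  ⟨1, one_ne_zero, X, by simp⟩

theorem good_one (x : S2) : Good x 1 :=
  ⟨1, one_ne_zero, 1, by simp⟩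

theorem good_alg (x : S2) (a : P2) : Good x (algebraMap P2 S2 a) :=
  ⟨1, one_ne_zero, C a, by simp⟩

theorem good_zz (x : S2) : Good x zz := by
  have h : (zz : S2) = algebraMap P2 S2 X := by
    simp [zz, PowerSeries.algebraMap_apply']
  rw [h]
  exact good_alg x X

theorem good_add {x y w : S2} (hy : Good x y) (hw : Good x w) : Good x (y + w) := by
  obtain ⟨d, hd, T, hT⟩ := hy
  obtain ⟨d', hd', T', hT'⟩ := hw
  refine ⟨d * d', mul_ne_zero hd hd', C d' * T + C d * T', ?_⟩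
  simp only [map_add, map_mul, aeval_C]
  rw [← hT, ← hT']
  ring

theorem good_mul {x y w : S2} (hy : Good x y) (hw : Good x w) : Good x (y * w) := by
  obtain ⟨d, hd, T, hT⟩ := hy
  obtain ⟨d', hd', T', hT'⟩ := hw
  refine ⟨d * d', mul_ne_zero hd hd', T * T', ?_⟩
  simp only [map_mul]
  rw [← hT, ← hT']
  ring

theorem good_pow {x y : S2} (hy : Good x y) (e : ℕ) : Good x (y ^ e) := by
  induction e with
  | zero => rw [pow_zero]; exact good_one x
  | succ n ih => rw [pow_succ]; exact good_mul ih hy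

theorem good_of_mul {x y : S2} (n : ℕ) (hy : Good x (zz ^ n * y)) : Good x y := by
  obtain ⟨d, hd, T, hT⟩ := hy
  refine ⟨d * X ^ n, mul_ne_zero hd (pow_ne_zero _ X_ne_zero), T, ?_⟩
  rw [← hT, map_mul, map_pow]
  have h : algebraMap P2 S2 X = (zz : S2) := by
    simp [zz, PowerSeries.algebraMap_apply']
  rw [h]
  ring

theorem two_eq_zero : (2 : S2) = 0 := by
  have : (2 : S2) = PowerSeries.C (2 : ZMod 2) := (map_ofNat _ 2).symm
  rw [this]
  have h2 : (2 : ZMod 2) = 0 := by decide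
  rw [h2, map_zero]

theorem good_even (μ : ℕ → S2) (h : Rec μ) (i : ℕ) : Good (μ 0) (μ (2 * i)) := by
  obtain ⟨h0, h1, h2⟩ := h
  induction i using Nat.strong_induction_on with
  | _ i ih =>
    have key : ∀ j : ℕ, j < i → Good (μ 0) (μ j) := by
      intro j hj
      rcases Nat.even_or_odd j with he | ho
      · obtain ⟨r, hr⟩ := he
        have hr' : j = 2 * r := by omega
        rw [hr']
        exact ih r (by omega)
      · obtain ⟨r, hr⟩ := ho
        have hj2 : j = 2 * (r + 1) - 1 := by omega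
        rw [hj2, h1 (r + 1) (by omega)]
        exact good_mul (good_zz _) (ih (r + 1) (by omega))
    rcases Nat.lt_trichotomy i 1 with hi | hi | hi
    · have : i = 0 := by omega
      subst this
      exact good_self _
    · subst hi
      apply good_of_mul 4
      rw [h0]
      exact good_add (good_self _) (good_one _)
    · obtain ⟨k, rfl⟩ : ∃ k, i = k + 1 := ⟨i - 1, by omega⟩
      have hk : 1 ≤ k := by omega
      have e := h2 k hk
      have e' : zz ^ 5 * μ (2 * (k + 1)) = zz * (μ k + μ (k - 1)) + μ (2 * k) := by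
        have h3 : μ (2 * k) + μ (2 * k) = 0 := by
          rw [← two_mul, two_eq_zero, zero_mul]
        have h4 : 2 * (k + 1) = 2 * k + 2 := by ring
        rw [h4]
        calc zz ^ 5 * μ (2 * k + 2) = (μ (2 * k) + zz ^ 5 * μ (2 * k + 2)) + μ (2 * k) -
              (μ (2 * k) + μ (2 * k)) := by ring
          _ = zz * (μ k + μ (k - 1)) + μ (2 * k) := by rw [e, h3, sub_zero]
      apply good_of_mul 5
      rw [e']
      exact good_add (good_mul (good_zz _) (good_add (key k (by omega)) (key (k - 1) (by omega))))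
        (ih k (by omega))

theorem good (μ : ℕ → S2) (h : Rec μ) (j : ℕ) : Good (μ 0) (μ j) := by
  rcases Nat.even_or_odd j with he | ho
  · obtain ⟨r, hr⟩ := he
    have hr' : j = 2 * r := by omega
    rw [hr']
    exact good_even μ h r
  · obtain ⟨r, hr⟩ := ho
    have hj2 : j = 2 * (r + 1) - 1 := by omega
    rw [hj2, h.2.1 (r + 1) (by omega)]
    exact good_mul (good_zz _) (good_even μ h (r + 1))

end RAM

/-- Module RA. -/
theorem specRA : SpecRA := fun μ h j e => RAM.good_pow (RAM.good μ h j) e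

end Pool.Agent.Lib.MPba1bba.TR
end

section
/-!
# The growth series of `B(2,4)` is transcendental: module RE
-/
namespace Pool.Agent.Lib.MPba1bba.TR

open Polynomial

namespace REM

attribute [local instance] Polynomial.algebra

/-- the series over `ℚ` -/
noncomputable abbrev mq : PowerSeries ℤ →+* PowerSeries ℚ := PowerSeries.map (Int.castRingHom ℚ)

theorem mq_inj : Function.Injective mq := PowerSeries.map_injective _ Int.cast_injective

theorem tower : IsScalarTower ℤ[X] ℚ[X] (PowerSeries ℚ) := by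
  refine IsScalarTower.of_algebraMap_eq fun p => ?_
  rw [PowerSeries.algebraMap_apply', PowerSeries.algebraMap_apply']
  rw [Polynomial.algebraMap_def]
  ext n
  simp

/-- clearing denominators -/
theorem alg_int {s : PowerSeries ℤ} (h : IsAlgebraic ℚ[X] (mq s)) :
    ∃ p : Polynomial ℤ[X], p ≠ 0 ∧ aeval s p = 0 := by
  have ht := tower
  have ha : Algebra.IsAlgebraic ℤ ℚ := IsLocalization.isAlgebraic ℚ (nonZeroDivisors ℤ)
  have h1 : IsAlgebraic ℤ[X] (mq s) := h.restrictScalars ℤ[X]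
  obtain ⟨p, hp0, hp⟩ := h1
  refine ⟨p, hp0, mq_inj ?_⟩
  rw [map_zero, ← hp, aeval_def, aeval_def, hom_eval₂]
  congr 1

theorem two_eq (R : Type) [CommRing R] : (2 : R[X]) = C 2 := (map_ofNat (C : R →+* R[X]) 2).symm

theorem exists_not_two_dvd {q : Polynomial ℤ[X]} (hq : q ≠ 0) :
    ∃ (m : ℕ) (r : Polynomial ℤ[X]), q = (2 : Polynomial ℤ[X]) ^ m * r ∧
      ¬ (2 : Polynomial ℤ[X]) ∣ r := by
  have h2 : ¬ IsUnit (2 : Polynomial ℤ[X]) := by
    intro h
    rw [two_eq ℤ[X], two_eq ℤ, isUnit_C, isUnit_C] at h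
    exact absurd h (by decide)
  have hf : FiniteMultiplicity (2 : Polynomial ℤ[X]) q :=
    FiniteMultiplicity.of_not_isUnit h2 hq
  obtain ⟨c, hc, hd⟩ := hf.exists_eq_pow_mul_and_not_dvd
  exact ⟨_, c, hc, hd⟩

/-- reduction modulo `2` of the coefficients -/
noncomputable abbrev red : ℤ[X] →+* P2 := mapRingHom (Int.castRingHom (ZMod 2))

theorem red_eq_zero {f : ℤ[X]} (h : red f = 0) : (2 : ℤ[X]) ∣ f := by
  rw [two_eq ℤ, C_dvd_iff_dvd_coeff]
  intro n
  have h1 := congrArg (fun g : P2 => g.coeff n) h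
  simp only [red, coe_mapRingHom, coeff_map, coeff_zero] at h1
  exact (ZMod.intCast_zmod_eq_zero_iff_dvd _ _).1 h1

theorem map_red_ne {r : Polynomial ℤ[X]} (h : ¬ (2 : Polynomial ℤ[X]) ∣ r) : r.map red ≠ 0 := by
  intro h0
  apply h
  rw [two_eq ℤ[X], C_dvd_iff_dvd_coeff]
  intro n
  refine red_eq_zero ?_
  rw [← coeff_map, h0, coeff_zero]

theorem comp_eq : (algebraMap P2 S2).comp red =
    (PowerSeries.map (Int.castRingHom (ZMod 2))).comp (algebraMap ℤ[X] (PowerSeries ℤ)) := by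
  refine RingHom.ext fun f => ?_
  rw [RingHom.comp_apply, RingHom.comp_apply, PowerSeries.algebraMap_apply',
    PowerSeries.algebraMap_apply']
  ext n
  simp

end REM

theorem specRE : SpecRE := by
  intro s t hst hs
  obtain ⟨p, hp0, hp⟩ := REM.alg_int hs
  have hq1 : aeval t (p.comp (1 + 2 * X)) = 0 := by
    rw [aeval_comp]
    simp only [map_add, map_mul, map_one, map_ofNat, aeval_X]
    rw [← hst]
    exact hp
  have hq0 : p.comp (1 + 2 * X) ≠ 0 := by
    intro h
    rw [comp_eq_zero_iff] at h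
    rcases h with h | ⟨_, h⟩
    · exact hp0 h
    · have h1 := congrArg (fun g : Polynomial ℤ[X] => g.coeff 1) h
      have h2 : (1 + 2 * X : Polynomial ℤ[X]).coeff 1 = 2 := by
        rw [REM.two_eq ℤ[X], coeff_add, coeff_one, coeff_C_mul, coeff_X]
        simp
      simp only [h2, coeff_C] at h1
      norm_num at h1
  obtain ⟨m, r, hr, hr2⟩ := REM.exists_not_two_dvd hq0
  have hrt : aeval t r = 0 := by
    rw [hr, map_mul, map_pow, map_ofNat] at hq1
    rcases mul_eq_zero.1 hq1 with h | h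
    · exfalso
      have h3 : (2 : PowerSeries ℤ) ≠ 0 := by
        intro h4
        have h5 := congrArg (PowerSeries.constantCoeff) h4
        rw [map_ofNat, map_zero] at h5
        norm_num at h5
      exact pow_ne_zero m h3 h
    · exact h
  refine ⟨r.map REM.red, REM.map_red_ne hr2, ?_⟩
  have h6 := congrArg (PowerSeries.map (Int.castRingHom (ZMod 2))) hrt
  rw [aeval_def, hom_eval₂, map_zero, ← REM.comp_eq] at h6
  rw [aeval_def, eval₂_map]
  exact h6

end Pool.Agent.Lib.MPba1bba.TR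
end
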