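import Pool.Agent.Lib.MP_ba1bba_al.TR.Spec

/-!
# MP_ba1bba_al, TR, module KA: the summation series modulo 4
-/

set_option autoImplicit false

namespace Pool.Agent.Lib.MPba1bba.TR

open Polynomial

namespace KAM

/-! ### linearity of `psi2` -/

/-- the double sum `∑ z^i g_i` -/
noncomputable def dg (g : ℕ → PowerSeries ℤ) : PowerSeries ℤ :=
  PowerSeries.mk fun n => ∑ ij ∈ Finset.HasAntidiagonal.antidiagonal n,
    PowerSeries.coeff ij.2 (g ij.1)

theorem coeff_dg (g : ℕ → PowerSeries ℤ) (n N : ℕ) (h : n ≤ N) :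
    PowerSeries.coeff n (dg g) =
      PowerSeries.coeff n (∑ i ∈ Finset.range (N + 1), PowerSeries.X ^ i * g i) := by
  rw [dg, PowerSeries.coeff_mk, map_sum, Finset.Nat.sum_antidiagonal_eq_sum_range_succ_mk]
  symm
  rw [← Finset.sum_subset (s₁ := Finset.range n.succ)]
  · refine Finset.sum_congr rfl fun i hi => ?_
    have hi' : i ≤ n := by
      have := Finset.mem_range.1 hi
      omega
    rw [PowerSeries.coeff_X_pow_mul', if_pos hi']
  · intro i hi
    have := Finset.mem_range.1 hi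
    exact Finset.mem_range.2 (by omega)
  · intro i _ hi
    have : ¬ i ≤ n := by
      intro h'
      exact hi (Finset.mem_range.2 (by omega))
    rw [PowerSeries.coeff_X_pow_mul', if_neg this]

theorem dg_mul (A : PowerSeries ℤ) (g : ℕ → PowerSeries ℤ) :
    dg (fun i => A * g i) = A * dg g := by
  ext n
  rw [coeff_dg _ n n le_rfl, PowerSeries.coeff_mul]
  have h1 : ∑ p ∈ Finset.HasAntidiagonal.antidiagonal n,
      PowerSeries.coeff p.1 A * PowerSeries.coeff p.2 (dg g) =
      ∑ p ∈ Finset.HasAntidiagonal.antidiagonal n, PowerSeries.coeff p.1 A *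
        PowerSeries.coeff p.2 (∑ i ∈ Finset.range (n + 1), PowerSeries.X ^ i * g i) := by
    refine Finset.sum_congr rfl fun p hp => ?_
    rw [coeff_dg g p.2 n (by
      have := Finset.HasAntidiagonal.mem_antidiagonal.1 hp
      omega)]
  rw [h1, ← PowerSeries.coeff_mul, Finset.mul_sum]
  congr 1
  refine Finset.sum_congr rfl fun i _ => ?_
  ring

/-- the series `∑_v F_{i,v} P_v` -/
noncomputable def row (P : ℕ → PowerSeries ℤ) (F : PowerSeries ℤ[X]) (i : ℕ) : PowerSeries ℤ :=
  (PowerSeries.coeff i F).sum fun v a => PowerSeries.C a * P v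

theorem psi2_eq (P : ℕ → PowerSeries ℤ) (F : PowerSeries ℤ[X]) : psi2 P F = dg (row P F) := by
  ext n
  rw [psi2, dg, PowerSeries.coeff_mk, PowerSeries.coeff_mk]
  refine Finset.sum_congr rfl fun ij _ => ?_
  rw [row, Polynomial.sum_def, Polynomial.sum_def, map_sum]
  refine Finset.sum_congr rfl fun v _ => ?_
  rw [PowerSeries.coeff_C_mul]

theorem psi2_mul (A : PowerSeries ℤ) (P : ℕ → PowerSeries ℤ) (F : PowerSeries ℤ[X]) :
    psi2 (fun v => A * P v) F = A * psi2 P F := by
  rw [psi2_eq, psi2_eq, ← dg_mul]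
  congr 1
  funext i
  rw [row, row, Polynomial.sum_def, Polynomial.sum_def, Finset.mul_sum]
  refine Finset.sum_congr rfl fun v _ => ?_
  ring

theorem psi2_add (P P' : ℕ → PowerSeries ℤ) (F : PowerSeries ℤ[X]) :
    psi2 (fun v => P v + P' v) F = psi2 P F + psi2 P' F := by
  ext n
  rw [map_add, psi2, psi2, psi2, PowerSeries.coeff_mk, PowerSeries.coeff_mk, PowerSeries.coeff_mk,
    ← Finset.sum_add_distrib]
  refine Finset.sum_congr rfl fun ij _ => ?_
  rw [Polynomial.sum_def, Polynomial.sum_def, Polynomial.sum_def, ← Finset.sum_add_distrib]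
  refine Finset.sum_congr rfl fun v _ => ?_
  rw [map_add, mul_add]

theorem psi2_one (F : PowerSeries ℤ[X]) : psi2 (fun _ => 1) F = ev1 F := by
  rw [← mul_one (ev1 F)]
  ext n
  rw [psi2, PowerSeries.coeff_mk, PowerSeries.coeff_mul]
  refine Finset.sum_congr rfl fun ij _ => ?_
  rw [ev1, PowerSeries.coeff_mk, eval_eq_sum, Polynomial.sum_def, Polynomial.sum_def,
    Finset.sum_mul]
  refine Finset.sum_congr rfl fun v _ => ?_
  rw [one_pow, mul_one]

theorem psi2_nat (F : PowerSeries ℤ[X]) :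
    psi2 (fun v => (v : PowerSeries ℤ)) F = dv1 F := by
  rw [← mul_one (dv1 F)]
  ext n
  rw [psi2, PowerSeries.coeff_mk, PowerSeries.coeff_mul]
  refine Finset.sum_congr rfl fun ij _ => ?_
  rw [dv1, PowerSeries.coeff_mk, derivative_eval, Polynomial.sum_def, Polynomial.sum_def,
    Finset.sum_mul]
  refine Finset.sum_congr rfl fun v _ => ?_
  rw [one_pow, mul_one]
  have h : (v : PowerSeries ℤ) = PowerSeries.C (v : ℤ) * 1 := by simp
  rw [h, PowerSeries.coeff_C_mul]
  ring

/-! ### the series `T_v` -/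

/-- `T_v` -/
noncomputable def T (P : ℕ → PowerSeries ℤ) (v : ℕ) : PowerSeries ℤ :=
  (1 - 2 * zz ^ 2) * P v - (1 - 2 * zz ^ 4) - (1 - 2 * zz ^ 2) * (v : PowerSeries ℤ)

theorem T_pos {P : ℕ → PowerSeries ℤ} (hP : RecP P) (v : ℕ) (hv : 1 ≤ v) :
    T P v = zz ^ 2 * (T P (v / 2) + T P ((v - 1) / 2)) := by
  have h1 : ((v / 2 : ℕ) : PowerSeries ℤ) + (((v - 1) / 2 : ℕ) : PowerSeries ℤ) + 1 =
      (v : PowerSeries ℤ) := by
    exact_mod_cast congrArg (Nat.cast : ℕ → PowerSeries ℤ)
      (show v / 2 + (v - 1) / 2 + 1 = v by omega)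
  have h2 := hP.2 v hv
  rw [T, T, T]
  linear_combination (1 - 2 * zz ^ 2) * h2 + zz ^ 2 * (1 - 2 * zz ^ 2) * h1

theorem T_zero {P : ℕ → PowerSeries ℤ} (hP : RecP P) :
    T P 0 = zz ^ 2 * T P 0 + zz ^ 4 * T P 1 - 2 * zz ^ 8 := by
  have h2 := hP.1
  simp only [T, Nat.cast_zero, Nat.cast_one]
  linear_combination (1 - 2 * zz ^ 2) * h2

theorem coeff_z2 (n k : ℕ) (f : PowerSeries ℤ) :
    PowerSeries.coeff n (zz ^ k * f) = if k ≤ n then PowerSeries.coeff (n - k) f else 0 :=
  PowerSeries.coeff_X_pow_mul' f k n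

theorem T_coeff {P : ℕ → PowerSeries ℤ} (hP : RecP P) (n : ℕ) : ∀ v : ℕ,
    (n < 8 → PowerSeries.coeff n (T P v) = 0) ∧ (2 : ℤ) ∣ PowerSeries.coeff n (T P v) := by
  induction n using Nat.strong_induction_on with
  | _ n ih =>
    intro v
    rcases Nat.eq_zero_or_pos v with rfl | hv
    · have h8 : PowerSeries.coeff n (2 * zz ^ 8 : PowerSeries ℤ) = if n = 8 then 2 else 0 := by
        have e : (2 * zz ^ 8 : PowerSeries ℤ) = PowerSeries.C (2 : ℤ) * zz ^ 8 := by
          rw [map_ofNat]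
        rw [e, PowerSeries.coeff_C_mul, PowerSeries.coeff_X_pow]
        split_ifs <;> simp
      rw [T_zero hP, map_sub, map_add, coeff_z2, coeff_z2, h8]
      constructor
      · intro hn
        rw [if_neg (by omega : ¬ n = 8), sub_zero]
        have h1 : (if 2 ≤ n then PowerSeries.coeff (n - 2) (T P 0) else 0) = 0 := by
          split_ifs with h
          · exact (ih (n - 2) (by omega) 0).1 (by omega)
          · rfl
        have h2 : (if 4 ≤ n then PowerSeries.coeff (n - 4) (T P 1) else 0) = 0 := by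
          split_ifs with h
          · exact (ih (n - 4) (by omega) 1).1 (by omega)
          · rfl
        rw [h1, h2, add_zero]
      · refine dvd_sub (dvd_add ?_ ?_) ?_
        · split_ifs with h
          · exact (ih (n - 2) (by omega) 0).2
          · exact dvd_zero _
        · split_ifs with h
          · exact (ih (n - 4) (by omega) 1).2
          · exact dvd_zero _
        · split_ifs
          · exact dvd_refl _
          · exact dvd_zero _
    · rw [T_pos hP v hv, coeff_z2]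
      split_ifs with h
      · rw [map_add]
        refine ⟨fun hn => ?_, dvd_add (ih (n - 2) (by omega) _).2 (ih (n - 2) (by omega) _).2⟩
        rw [(ih (n - 2) (by omega) _).1 (by omega), (ih (n - 2) (by omega) _).1 (by omega),
          add_zero]
      · exact ⟨fun _ => rfl, dvd_zero _⟩

/-- `κ_v` -/
noncomputable def ka (P : ℕ → PowerSeries ℤ) (v : ℕ) : PowerSeries ℤ :=
  PowerSeries.mk fun n => -(PowerSeries.coeff (n + 8) (T P v) / 2)

theorem T_eq {P : ℕ → PowerSeries ℤ} (hP : RecP P) (v : ℕ) : T P v = -2 * zz ^ 8 * ka P v := by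
  ext n
  have e : (-2 * zz ^ 8 * ka P v : PowerSeries ℤ) =
      zz ^ 8 * (PowerSeries.C (-2 : ℤ) * ka P v) := by
    rw [map_neg, map_ofNat]
    ring
  rw [e, coeff_z2]
  split_ifs with h
  · rw [PowerSeries.coeff_C_mul, ka, PowerSeries.coeff_mk, Nat.sub_add_cancel h]
    have := (T_coeff hP n v).2
    omega
  · exact (T_coeff hP n v).1 (by omega)

theorem ne_zero8 : (-2 * zz ^ 8 : PowerSeries ℤ) ≠ 0 := by
  have h2 : (-2 : PowerSeries ℤ) ≠ 0 := by
    intro h
    have := congrArg (PowerSeries.coeff 0) h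
    have e : (-2 : PowerSeries ℤ) = PowerSeries.C (-2 : ℤ) := by rw [map_neg, map_ofNat]
    rw [e, PowerSeries.coeff_zero_C, map_zero] at this
    omega
  exact mul_ne_zero h2 (pow_ne_zero _ PowerSeries.X_ne_zero)

theorem ka_pos {P : ℕ → PowerSeries ℤ} (hP : RecP P) (v : ℕ) (hv : 1 ≤ v) :
    ka P v = zz ^ 2 * (ka P (v / 2) + ka P ((v - 1) / 2)) := by
  have h := T_pos hP v hv
  rw [T_eq hP, T_eq hP, T_eq hP] at h
  refine mul_left_cancel₀ ne_zero8 ?_
  rw [h]
  ring

theorem ka_zero {P : ℕ → PowerSeries ℤ} (hP : RecP P) :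
    ka P 0 = zz ^ 2 * ka P 0 + zz ^ 4 * ka P 1 + 1 := by
  have h := T_zero hP
  rw [T_eq hP, T_eq hP] at h
  refine mul_left_cancel₀ ne_zero8 ?_
  linear_combination h

theorem P_eq {P : ℕ → PowerSeries ℤ} (hP : RecP P) (v : ℕ) : (1 - 2 * zz ^ 2) * P v =
    ((1 - 2 * zz ^ 4) * 1 + (1 - 2 * zz ^ 2) * (v : PowerSeries ℤ)) + (-2 * zz ^ 8) * ka P v := by
  have h := T_eq hP v
  rw [T] at h
  linear_combination h

/-! ### modulo 2 -/

theorem bar0_mul (f g : PowerSeries ℤ) : bar0 (f * g) = bar0 f * bar0 g := map_mul _ f g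

theorem bar0_add (f g : PowerSeries ℤ) : bar0 (f + g) = bar0 f + bar0 g := map_add _ f g

theorem bar0_one : bar0 1 = 1 := map_one _

theorem bar0_z (k : ℕ) : bar0 (zz ^ k) = zz ^ k := by
  rw [bar0, map_pow, PowerSeries.map_X]

theorem two_zero : (2 : PowerSeries (ZMod 2)) = 0 := by
  have e : (2 : PowerSeries (ZMod 2)) = PowerSeries.C (2 : ZMod 2) := by rw [map_ofNat]
  have h2 : (2 : ZMod 2) = 0 := rfl
  rw [e, h2, map_zero]

theorem bar0_two : bar0 2 = 0 := by
  have : bar0 2 = (2 : PowerSeries (ZMod 2)) := map_ofNat _ 2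
  rw [this, two_zero]

theorem ka_odd {P : ℕ → PowerSeries ℤ} (hP : RecP P) (v : ℕ) (hv : Odd v) :
    bar0 (ka P v) = 0 := by
  obtain ⟨w, rfl⟩ := hv
  have h1 : (2 * w + 1) / 2 = w := by omega
  have h2 : (2 * w + 1 - 1) / 2 = w := by omega
  rw [ka_pos hP _ (by omega), h1, h2, ← two_mul, bar0_mul, bar0_mul, bar0_two, zero_mul, mul_zero]

theorem ka_bar_zero {P : ℕ → PowerSeries ℤ} (hP : RecP P) :
    (1 + zz ^ 2) * bar0 (ka P 0) = 1 := by
  have h := congrArg bar0 (ka_zero hP)
  rw [bar0_add, bar0_add, bar0_mul, bar0_mul, bar0_z, bar0_z, ka_odd hP 1 odd_one, mul_zero,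
    add_zero, bar0_one] at h
  linear_combination h + zz ^ 2 * bar0 (ka P 0) * two_zero

theorem psi2_bar {P : ℕ → PowerSeries ℤ} (hP : RecP P) (F : PowerSeries ℤ[X])
    (hF : OddU (bar F - 1)) : bar0 (psi2 (ka P) F) = bar0 (ka P 0) := by
  have hco : ∀ i v : ℕ, Even v →
      (((PowerSeries.coeff i F).coeff v : ℤ) : ZMod 2) = if i = 0 ∧ v = 0 then 1 else 0 := by
    intro i v hv
    have h := hF i v hv
    rw [map_sub, coeff_sub, sub_eq_zero, bar, PowerSeries.coeff_map, coe_mapRingHom, coeff_map,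
      PowerSeries.coeff_one] at h
    rw [eq_intCast] at h
    rw [h]
    by_cases hi : i = 0
    · rw [if_pos hi, coeff_one]
      by_cases hv0 : v = 0
      · rw [if_pos hv0, if_pos ⟨hi, hv0⟩]
      · rw [if_neg hv0, if_neg fun h' => hv0 h'.2]
    · rw [if_neg hi, coeff_zero, if_neg fun h' => hi h'.1]
  have hsum : ∀ i j : ℕ, (((PowerSeries.coeff i F).sum fun v a =>
      a * PowerSeries.coeff j (ka P v) : ℤ) : ZMod 2) =
        if i = 0 then PowerSeries.coeff j (bar0 (ka P 0)) else 0 := by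
    intro i j
    have hterm : ∀ v : ℕ, (((PowerSeries.coeff i F).coeff v *
        PowerSeries.coeff j (ka P v) : ℤ) : ZMod 2) =
          if v = 0 then (if i = 0 then PowerSeries.coeff j (bar0 (ka P 0)) else 0) else 0 := by
      intro v
      have hb : ((PowerSeries.coeff j (ka P v) : ℤ) : ZMod 2) =
          PowerSeries.coeff j (bar0 (ka P v)) := by
        rw [bar0, PowerSeries.coeff_map, eq_intCast]
      rw [Int.cast_mul, hb]
      rcases Nat.even_or_odd v with hv | hv
      · rw [hco i v hv]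
        by_cases hv0 : v = 0
        · subst hv0
          by_cases hi : i = 0
          · rw [if_pos ⟨hi, rfl⟩, if_pos rfl, if_pos hi, one_mul]
          · rw [if_neg fun h' => hi h'.1, if_pos rfl, if_neg hi, zero_mul]
        · rw [if_neg fun h' => hv0 h'.2, if_neg hv0, zero_mul]
      · rw [ka_odd hP v hv, map_zero, mul_zero, if_neg]
        rintro rfl
        exact absurd hv (by decide)
    rw [Polynomial.sum_def, Int.cast_sum, Finset.sum_congr rfl fun v _ => hterm v,
      Finset.sum_ite_eq']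
    split_ifs with h0 hi hi
    · rfl
    · rfl
    · exfalso
      have h1 := hco i 0 Even.zero
      rw [if_pos ⟨hi, rfl⟩] at h1
      rw [notMem_support_iff.1 h0, Int.cast_zero] at h1
      exact absurd h1 (by decide)
    · rfl
  ext n
  rw [bar0, PowerSeries.coeff_map, psi2, PowerSeries.coeff_mk, eq_intCast, Int.cast_sum,
    Finset.sum_congr rfl fun ij _ => hsum ij.1 ij.2,
    Finset.Nat.sum_antidiagonal_eq_sum_range_succ_mk, Finset.sum_ite_eq']
  rw [if_pos (Finset.mem_range.2 (by omega)), Nat.sub_zero]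

end KAM

open KAM

/-- **KA** -/
theorem specKA : SpecKA := by
  intro P hP F
  refine ⟨psi2 (ka P) F, ?_, fun hF => ?_⟩
  · rw [← psi2_mul]
    have h1 : (fun v : ℕ => (1 - 2 * zz ^ 2) * P v) = fun v : ℕ =>
        ((1 - 2 * zz ^ 4) * 1 + (1 - 2 * zz ^ 2) * (v : PowerSeries ℤ)) +
          (-2 * zz ^ 8) * ka P v := funext fun v => P_eq hP v
    rw [h1, psi2_add, psi2_add, psi2_mul, psi2_mul, psi2_mul, psi2_one, psi2_nat]
    ring
  · rw [psi2_bar hP F hF]
    exact ka_bar_zero hP

end Pool.Agent.Lib.MPba1bba.TR
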