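import Pool.Agent.Lib.MP_ba1bba_al.AS.GFI

/-!
# The case p = m = 2: states are multisets of zeros
-/

namespace Pool.Agent.Lib.MPba1bba
namespace ZerM

/-- the state with `v` zero slopes -/
def zs (v : ℕ) : Multiset ℤ := Multiset.replicate v 0

theorem zs_zero : zs 0 = 0 := rfl

theorem zs_add (v w : ℕ) : zs (v + w) = zs v + zs w := Multiset.replicate_add v w 0

/-- `b` for zero slopes -/
theorem b_zs (v : ℕ) (k : ℤ) : bfun 2 (zs v) k = 2 * ((-k).toNat + (k - v).toNat) := by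
  have h := specSRT specBFN 2 (List.replicate v 0) (by
      rw [List.pairwise_replicate]; right; exact le_rfl) (by
      intro x hx
      rw [List.eq_of_mem_replicate hx]
      norm_num) k
  have h1 : ((List.replicate v (0 : ℤ) : List ℤ) : Multiset ℤ) = zs v := Multiset.coe_replicate v 0
  rw [h1] at h
  rw [h]
  have h2 : ∀ L : List ℤ, (∀ x ∈ L, x = 0) → sumPos (L : Multiset ℤ) = 0 := by
    intro L hL
    simp only [sumPos, Multiset.map_coe, Multiset.sum_coe, List.sum_eq_zero_iff, List.mem_map]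
    rintro x ⟨y, hy, rfl⟩
    rw [hL y hy]
    rfl
  have h3 : ∀ L : List ℤ, (∀ x ∈ L, x = 0) → sumNeg (L : Multiset ℤ) = 0 := by
    intro L hL
    simp only [sumNeg, Multiset.map_coe, Multiset.sum_coe, List.sum_eq_zero_iff, List.mem_map]
    rintro x ⟨y, hy, rfl⟩
    rw [hL y hy]
    rfl
  rw [h2 _ (fun x hx => List.eq_of_mem_replicate (List.mem_of_mem_take hx)),
    h3 _ (fun x hx => List.eq_of_mem_replicate (List.mem_of_mem_drop hx)), List.length_replicate]
  ring

theorem cmin_eq (s : Multiset ℤ) (r : ℕ) (c : ℕ) (j0 : ℤ)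
    (h0 : bfun 2 s (r + (2 : ℕ) * j0) = c) (h1 : ∀ j : ℤ, c ≤ bfun 2 s (r + (2 : ℕ) * j)) :
    cmin 2 2 s r = c := by
  unfold cmin
  apply le_antisymm
  · rw [← h0]
    exact ciInf_le (OrderBot.bddBelow _) j0
  · exact le_ciInf h1

theorem sml_eq (v r w : ℕ) (h : {j : ℤ | (bfun 2 (zs v) (r + (2 : ℕ) * (j + 1)) : ℤ) -
    bfun 2 (zs v) (r + (2 : ℕ) * j) = 0}.ncard = w) : sml 2 2 (zs v) r = zs w := by
  unfold sml
  have hI : Finset.Ioo (-((2 : ℕ) : ℤ)) ((2 : ℕ) : ℤ) = {-1, 0, 1} := by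
    ext x
    simp only [Finset.mem_Ioo, Finset.mem_insert, Finset.mem_singleton]
    omega
  rw [hI]
  have hodd : ∀ x : ℤ, x = -1 ∨ x = 1 → {j : ℤ | (bfun 2 (zs v) (r + (2 : ℕ) * (j + 1)) : ℤ) -
      bfun 2 (zs v) (r + (2 : ℕ) * j) = x} = ∅ := by
    intro x hx
    apply Set.eq_empty_iff_forall_notMem.2
    intro j hj
    have hj' : (bfun 2 (zs v) (r + (2 : ℕ) * (j + 1)) : ℤ) -
      bfun 2 (zs v) (r + (2 : ℕ) * j) = x := hj
    rw [b_zs, b_zs] at hj'
    push_cast at hj'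
    omega
  rw [Finset.sum_insert (by decide), Finset.sum_insert (by decide), Finset.sum_singleton,
    hodd (-1) (Or.inl rfl), hodd 1 (Or.inr rfl), h]
  simp only [Set.ncard_empty, zero_smul, zero_add, add_zero]
  unfold zs
  rw [Multiset.nsmul_singleton]

theorem cmin0 (v : ℕ) : cmin 2 2 (zs v) 0 = 0 := by
  apply cmin_eq _ _ _ 0
  · rw [b_zs]; simp
  · intro j; exact Nat.zero_le _

theorem cmin1 (v : ℕ) (hv : 1 ≤ v) : cmin 2 2 (zs v) 1 = 0 := by
  apply cmin_eq _ _ _ 0
  · rw [b_zs]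
    have : ((1 : ℕ) + ((2 : ℕ) : ℤ) * 0 : ℤ) = 1 := by norm_num
    rw [this]
    omega
  · intro j; exact Nat.zero_le _

theorem cmin10 : cmin 2 2 (zs 0) 1 = 2 := by
  apply cmin_eq _ _ _ 0
  · rw [b_zs]; norm_num
  · intro j
    rw [b_zs]
    push_cast
    omega

theorem sml0 (v : ℕ) : sml 2 2 (zs v) 0 = zs (v / 2) := by
  apply sml_eq
  have : {j : ℤ | (bfun 2 (zs v) ((0 : ℕ) + (2 : ℕ) * (j + 1)) : ℤ) -
      bfun 2 (zs v) ((0 : ℕ) + (2 : ℕ) * j) = 0} = (fun i : ℕ => (i : ℤ)) '' {i : ℕ | i < v / 2} := by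
    ext j
    simp only [Set.mem_ofPred_eq, Set.mem_image, b_zs]
    push_cast
    constructor
    · intro h
      exact ⟨j.toNat, by omega, by omega⟩
    · rintro ⟨i, hi, rfl⟩
      omega
  rw [this, Set.ncard_image_of_injective _ Nat.cast_injective]
  have h2 : {i : ℕ | i < v / 2} = ((Finset.range (v / 2) : Finset ℕ) : Set ℕ) := by
    ext i; simp
  rw [h2, Set.ncard_coe_finset, Finset.card_range]

theorem sml1 (v : ℕ) (hv : 1 ≤ v) : sml 2 2 (zs v) 1 = zs ((v - 1) / 2) := by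
  apply sml_eq
  have : {j : ℤ | (bfun 2 (zs v) ((1 : ℕ) + (2 : ℕ) * (j + 1)) : ℤ) -
      bfun 2 (zs v) ((1 : ℕ) + (2 : ℕ) * j) = 0} =
      (fun i : ℕ => (i : ℤ)) '' {i : ℕ | i < (v - 1) / 2} := by
    ext j
    simp only [Set.mem_ofPred_eq, Set.mem_image, b_zs]
    push_cast
    constructor
    · intro h
      exact ⟨j.toNat, by omega, by omega⟩
    · rintro ⟨i, hi, rfl⟩
      omega
  rw [this, Set.ncard_image_of_injective _ Nat.cast_injective]
  have h2 : {i : ℕ | i < (v - 1) / 2} = ((Finset.range ((v - 1) / 2) : Finset ℕ) : Set ℕ) := by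
    ext i; simp
  rw [h2, Set.ncard_coe_finset, Finset.card_range]

theorem sml10 : sml 2 2 (zs 0) 1 = zs 1 := by
  apply sml_eq
  have : {j : ℤ | (bfun 2 (zs 0) ((1 : ℕ) + (2 : ℕ) * (j + 1)) : ℤ) -
      bfun 2 (zs 0) ((1 : ℕ) + (2 : ℕ) * j) = 0} = {-1} := by
    ext j
    simp only [Set.mem_ofPred_eq, Set.mem_singleton_iff, b_zs]
    push_cast
    omega
  rw [this, Set.ncard_singleton]

/-- the monomial `u^v` -/
noncomputable def uu (v : ℕ) : SR := AddMonoidAlgebra.single (zs v) (1 : ℤ)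

theorem mon_eq (n : ℕ) (x : SR) :
    PowerSeries.monomial n x = PowerSeries.X ^ n * PowerSeries.C x := by
  ext k : 1
  rw [PowerSeries.coeff_X_pow_mul', PowerSeries.coeff_monomial]
  split_ifs with h1 h2 h2
  · subst h1; simp
  · omega
  · rw [PowerSeries.coeff_C, if_neg (by omega)]
  · rfl

theorem lamB_zero : lamB 2 2 (zs 0) =
    PowerSeries.C (uu 0) + PowerSeries.X ^ 2 * PowerSeries.C (uu 1) := by
  unfold lamB
  rw [Finset.sum_range_succ, Finset.sum_range_one, cmin0, cmin10, sml0, sml10, mon_eq, mon_eq]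
  simp [uu]

theorem lamB_pos (v : ℕ) (hv : 1 ≤ v) : lamB 2 2 (zs v) =
    PowerSeries.C (uu (v / 2)) + PowerSeries.C (uu ((v - 1) / 2)) := by
  unfold lamB
  rw [Finset.sum_range_succ, Finset.sum_range_one, cmin0, cmin1 v hv, sml0, sml1 v hv, mon_eq,
    mon_eq]
  simp [uu]

/-! ### The function `e` -/

theorem e_split (k : ℤ) : efun 2 2 k = 2 * k.natAbs ∨
    ∃ l : ℤ, 2 * (k - 2 * l).natAbs + 2 + efun 2 2 l ≤ efun 2 2 k := by
  obtain ⟨d, hd, he⟩ := (specEFN 2 2 (by norm_num) (by norm_num)).2.2.2.2.2.2.2.1 k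
  cases d with
  | nil =>
    left
    simp [dval] at hd
    subst hd
    rw [he]
    simp [dcost]
  | cons x rest =>
    cases rest with
    | nil =>
      left
      simp [dval] at hd
      subst hd
      rw [he]
      simp [dcost]
    | cons y rest =>
      right
      refine ⟨dval 2 (y :: rest), ?_⟩
      have h1 := (specEFN 2 2 (by norm_num) (by norm_num)).2.2.2.2.2.2.2.2 (y :: rest)
      have h2 : k - 2 * dval 2 (y :: rest) = x := by
        rw [← hd]
        simp only [dval, List.foldr_cons]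
        push_cast
        ring
      rw [h2, he]
      simp only [dcost, List.map_cons, List.sum_cons, List.length_cons] at h1 ⊢
      omega

theorem e_le (k l : ℤ) : efun 2 2 k ≤ 2 * (k - 2 * l).natAbs + 2 + efun 2 2 l := by
  obtain ⟨-, hsub, -, hlin, hmul, -⟩ := specEFN 2 2 (by norm_num) (by norm_num)
  have h1 := hsub (k - 2 * l) (2 * l)
  have h2 := hlin (k - 2 * l)
  have h3 := hmul l
  have h4 : k - 2 * l + 2 * l = k := by ring
  rw [h4] at h1
  push_cast at h3
  omega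

theorem e_zero : efun 2 2 0 = 0 := (specEFN 2 2 (by norm_num) (by norm_num)).1

theorem e_ge (l : ℤ) (hl : l ≠ 0) : 2 ≤ efun 2 2 l := by
  obtain ⟨d, hd, he⟩ := (specEFN 2 2 (by norm_num) (by norm_num)).2.2.2.2.2.2.2.1 l
  rw [he]
  by_contra hc
  push Not at hc
  unfold dcost at hc
  have h1 : (d.map Int.natAbs).sum = 0 := by omega
  rw [List.sum_eq_zero_iff] at h1
  apply hl
  rw [← hd]
  clear hd he hc
  induction d with
  | nil => rfl
  | cons x d ih =>
    simp only [dval, List.foldr_cons]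
    have hx : x.natAbs = 0 := h1 _ (by simp)
    have hd : dval 2 d = 0 := ih (fun n hn => h1 n (by
      simp only [List.map_cons, List.mem_cons]; right; exact hn))
    unfold dval at hd
    rw [hd]
    omega

/-! ### The recursion of the coefficients of `P_v` -/

/-- `G_v = b_v □ e` -/
noncomputable def GG (v : ℕ) : ℤ → ℕ := ic (bfun 2 (zs v)) (efun 2 2)

/-- `T_v(k) = min_l b_v(k - 2 l) + e(l)` -/
noncomputable def TT (v : ℕ) (k : ℤ) : ℕ := ⨅ l : ℤ, (bfun 2 (zs v) (k - 2 * l) + efun 2 2 l)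

theorem TT_le (v : ℕ) (k l : ℤ) : TT v k ≤ bfun 2 (zs v) (k - 2 * l) + efun 2 2 l :=
  ciInf_le (OrderBot.bddBelow _) l

theorem TT_ex (v : ℕ) (k : ℤ) : ∃ l : ℤ, TT v k = bfun 2 (zs v) (k - 2 * l) + efun 2 2 l := by
  have := Nat.sInf_mem (Set.range_nonempty
    (fun l : ℤ => bfun 2 (zs v) (k - 2 * l) + efun 2 2 l))
  obtain ⟨l, hl⟩ := this
  exact ⟨l, hl.symm⟩

theorem b_lip (v : ℕ) (k l : ℤ) :
    bfun 2 (zs v) k ≤ bfun 2 (zs v) l + 2 * (k - l).natAbs :=
  (specBFN 2).2.2.2.2.1 (zs v) k l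

theorem GG_eq (v : ℕ) (k : ℤ) : GG v k = min (bfun 2 (zs v) k) (2 + TT v k) := by
  obtain ⟨hex, hle, -⟩ := specIC
  apply le_antisymm
  · refine le_min ?_ ?_
    · have := hle (bfun 2 (zs v)) (efun 2 2) k k
      rw [sub_self, e_zero] at this
      exact this
    · obtain ⟨l, hl⟩ := TT_ex v k
      have h1 := hle (bfun 2 (zs v)) (efun 2 2) k (k - 2 * l)
      have h2 := e_le (2 * l) l
      have h3 : k - (k - 2 * l) = 2 * l := by ring
      rw [h3] at h1
      simp only [sub_self, Int.natAbs_zero] at h2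
      unfold GG
      omega
  · obtain ⟨j, hj⟩ := hex (bfun 2 (zs v)) (efun 2 2) k
    unfold GG
    rw [hj]
    rcases e_split (k - j) with h | ⟨l, h⟩
    · refine (min_le_left _ _).trans ?_
      rw [h]
      exact b_lip v k j
    · refine (min_le_right _ _).trans ?_
      have h1 := TT_le v k l
      have h2 := b_lip v (k - 2 * l) j
      have h3 : (k - 2 * l - j).natAbs = (k - j - 2 * l).natAbs := by
        congr 1; ring
      omega

theorem TT_in (v : ℕ) (k : ℤ) (h0 : 0 ≤ k) (h1 : k ≤ v) : TT v k = 0 := by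
  have := TT_le v k 0
  rw [e_zero, b_zs] at this
  omega

theorem TT_end (v : ℕ) (k : ℤ) (h : k = -1 ∨ k = v + 1) : TT v k = 2 := by
  apply le_antisymm
  · have := TT_le v k 0
    rw [e_zero, b_zs] at this
    omega
  · obtain ⟨l, hl⟩ := TT_ex v k
    rw [hl]
    rcases eq_or_ne l 0 with rfl | h0
    · rw [b_zs]
      omega
    · have := e_ge l h0
      omega

theorem TT_out (v : ℕ) (k : ℤ) (h : k ≤ -2 ∨ (v : ℤ) + 2 ≤ k) : 2 + TT v k ≤ bfun 2 (zs v) k := by
  have he1 : efun 2 2 1 ≤ 2 := by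
    have := (specEFN 2 2 (by norm_num) (by norm_num)).2.2.2.1 1
    simpa using this
  have he2 : efun 2 2 (-1) ≤ 2 := by
    have := (specEFN 2 2 (by norm_num) (by norm_num)).2.2.2.1 (-1)
    simpa using this
  rcases h with h | h
  · have := TT_le v k (-1)
    rw [b_zs] at this ⊢
    omega
  · have := TT_le v k 1
    rw [b_zs] at this ⊢
    omega

theorem GG_fin (v n : ℕ) : {k : ℤ | GG v k = n}.Finite :=
  (specEFF 2 2 (by norm_num) (by norm_num) (zs v) n).subset (fun _ hk => le_of_eq hk)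

/-- the exceptional set -/
def exc (v : ℕ) : Set ℤ := Set.Icc (-1) (v + 1)

theorem exc_G (v n : ℕ) : ({k : ℤ | GG v k = n} ∩ exc v).ncard =
    (if n = 0 then v + 1 else 0) + (if n = 2 then 2 else 0) := by
  have hG : ∀ k ∈ exc v, GG v k = if k = -1 ∨ k = v + 1 then 2 else 0 := by
    intro k hk
    have hk' : (-1 : ℤ) ≤ k ∧ k ≤ v + 1 := hk
    rw [GG_eq]
    split_ifs with h
    · rw [TT_end v k h, b_zs]
      omega
    · push Not at h
      rw [TT_in v k (by omega) (by omega), b_zs]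
      omega
  by_cases h0 : n = 0
  · subst h0
    have : {k : ℤ | GG v k = 0} ∩ exc v = ((Finset.Icc (0 : ℤ) v : Finset ℤ) : Set ℤ) := by
      ext k
      simp only [Set.mem_inter_iff, Set.mem_ofPred_eq, Finset.coe_Icc, Set.mem_Icc]
      constructor
      · rintro ⟨h1, h2⟩
        rw [hG k h2] at h1
        have h2' : (-1 : ℤ) ≤ k ∧ k ≤ v + 1 := h2
        split_ifs at h1 with h3
        push Not at h3
        omega
      · intro h1
        have h2 : k ∈ exc v := by
          show (-1 : ℤ) ≤ k ∧ k ≤ v + 1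
          omega
        refine ⟨?_, h2⟩
        rw [hG k h2, if_neg]
        omega
    rw [this, Set.ncard_coe_finset]
    simp
  · by_cases h2 : n = 2
    · subst h2
      have : {k : ℤ | GG v k = 2} ∩ exc v = {-1, (v : ℤ) + 1} := by
        ext k
        simp only [Set.mem_inter_iff, Set.mem_ofPred_eq, Set.mem_insert_iff, Set.mem_singleton_iff]
        constructor
        · rintro ⟨h1, h2⟩
          rw [hG k h2] at h1
          split_ifs at h1 with h3
          exact h3
        · intro h1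
          have h2 : k ∈ exc v := by
            show (-1 : ℤ) ≤ k ∧ k ≤ v + 1
            omega
          refine ⟨?_, h2⟩
          rw [hG k h2, if_pos h1]
      rw [this, Set.ncard_pair (by omega)]
      simp
    · have : {k : ℤ | GG v k = n} ∩ exc v = ∅ := by
        apply Set.eq_empty_iff_forall_notMem.2
        rintro k ⟨h1, h3⟩
        have h1' : GG v k = n := h1
        rw [hG k h3] at h1'
        split_ifs at h1' <;> omega
      rw [this, if_neg h0, if_neg h2]
      simp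

theorem exc_T (v n : ℕ) : ({k : ℤ | 2 + TT v k = n} ∩ exc v).ncard =
    (if n = 2 then v + 1 else 0) + (if n = 4 then 2 else 0) := by
  have hG : ∀ k ∈ exc v, TT v k = if k = -1 ∨ k = v + 1 then 2 else 0 := by
    intro k hk
    have hk' : (-1 : ℤ) ≤ k ∧ k ≤ v + 1 := hk
    split_ifs with h
    · rw [TT_end v k h]
    · push Not at h
      rw [TT_in v k (by omega) (by omega)]
  by_cases h0 : n = 2
  · subst h0
    have : {k : ℤ | 2 + TT v k = 2} ∩ exc v = ((Finset.Icc (0 : ℤ) v : Finset ℤ) : Set ℤ) := by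
      ext k
      simp only [Set.mem_inter_iff, Set.mem_ofPred_eq, Finset.coe_Icc, Set.mem_Icc]
      constructor
      · rintro ⟨h1, h2⟩
        rw [hG k h2] at h1
        have h2' : (-1 : ℤ) ≤ k ∧ k ≤ v + 1 := h2
        split_ifs at h1 with h3
        · omega
        · push Not at h3
          omega
      · intro h1
        have h2 : k ∈ exc v := by
          show (-1 : ℤ) ≤ k ∧ k ≤ v + 1
          omega
        refine ⟨?_, h2⟩
        rw [hG k h2, if_neg]
        omega
    rw [this, Set.ncard_coe_finset]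
    simp
  · by_cases h2 : n = 4
    · subst h2
      have : {k : ℤ | 2 + TT v k = 4} ∩ exc v = {-1, (v : ℤ) + 1} := by
        ext k
        simp only [Set.mem_inter_iff, Set.mem_ofPred_eq, Set.mem_insert_iff, Set.mem_singleton_iff]
        constructor
        · rintro ⟨h1, h2⟩
          rw [hG k h2] at h1
          split_ifs at h1 with h3
          · exact h3
          · omega
        · intro h1
          have h2 : k ∈ exc v := by
            show (-1 : ℤ) ≤ k ∧ k ≤ v + 1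
            omega
          refine ⟨?_, h2⟩
          rw [hG k h2, if_pos h1]
      rw [this, Set.ncard_pair (by omega)]
      simp
    · have : {k : ℤ | 2 + TT v k = n} ∩ exc v = ∅ := by
        apply Set.eq_empty_iff_forall_notMem.2
        rintro k ⟨h1, h3⟩
        have h1' : 2 + TT v k = n := h1
        rw [hG k h3] at h1'
        split_ifs at h1' <;> omega
      rw [this, if_neg h0, if_neg h2]
      simp

theorem diff_eq (v n : ℕ) : {k : ℤ | GG v k = n} \ exc v = {k : ℤ | 2 + TT v k = n} \ exc v := by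
  ext k
  simp only [Set.mem_sdiff, Set.mem_ofPred_eq]
  refine and_congr_left ?_
  intro hk
  have hk' : ¬ ((-1 : ℤ) ≤ k ∧ k ≤ v + 1) := hk
  have h := TT_out v k (by omega)
  rw [GG_eq, min_eq_right h]

theorem TT_fin (v n : ℕ) : {k : ℤ | 2 + TT v k = n}.Finite := by
  have h1 : {k : ℤ | 2 + TT v k = n} ⊆ ({k : ℤ | GG v k = n} \ exc v) ∪ exc v := by
    rw [diff_eq]
    intro k hk
    by_cases h : k ∈ exc v
    · right; exact h
    · left; exact ⟨hk, h⟩
  exact Set.Finite.subset ((GG_fin v n).sdiff.union (Set.finite_Icc _ _)) h1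

theorem count_rel (v n : ℕ) : {k : ℤ | GG v k = n}.ncard +
    ((if n = 2 then v + 1 else 0) + (if n = 4 then 2 else 0)) = {k : ℤ | 2 + TT v k = n}.ncard +
    ((if n = 0 then v + 1 else 0) + (if n = 2 then 2 else 0)) := by
  rw [← exc_G, ← exc_T]
  have h1 := Set.ncard_inter_add_ncard_sdiff_eq_ncard {k : ℤ | GG v k = n} (exc v) (GG_fin v n)
  have h2 := Set.ncard_inter_add_ncard_sdiff_eq_ncard {k : ℤ | 2 + TT v k = n} (exc v) (TT_fin v n)
  rw [diff_eq] at h1
  omega

/-- `T_v` on a residue class -/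
theorem TT_sec (v r : ℕ) : ∃ y : ℤ, ∀ k : ℤ, ∀ w : ℕ, sml 2 2 (zs v) r = zs w →
    TT v (r + 2 * k) = cmin 2 2 (zs v) r + GG w (k - y) := by
  obtain ⟨y, hy⟩ := specSTR (specSRT specBFN) (specCVX specBFN (specSRT specBFN)) 2 2
    (by norm_num) (by norm_num) (zs v) (by
      intro x hx
      rw [Multiset.eq_of_mem_replicate hx]
      norm_num) r
  refine ⟨y, fun k w hw => ?_⟩
  obtain ⟨hex, hle, hcomm, hassoc, hadd, hsh⟩ := specIC
  have hrad := specRAD specIC specEFN specBFN 2 2 (by norm_num) (by norm_num)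
  have he : ic (bfun 2 0) (efun 2 2) = efun 2 2 := by
    have := hrad.2.2.1
    funext k
    have h := congrFun this k
    unfold rlz at h
    simpa using h
  have hb0 : bfun 2 (0 : Multiset ℤ) = fun j => 2 * j.natAbs := by
    funext j
    exact (specBFN 2).2.2.1 j
  have h1 : TT v (r + 2 * k) = ic (fun j => bfun 2 (zs v) (r + (2 : ℕ) * j)) (efun 2 2) k := by
    rw [hcomm]
    unfold TT ic
    apply iInf_congr
    intro l
    rw [add_comm]
    congr 2
    push_cast
    ring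
  rw [h1]
  have h2 : ic (fun j => bfun 2 (zs v) (r + (2 : ℕ) * j)) (efun 2 2) =
      ic (fun k => cmin 2 2 (zs v) r + bfun 2 (zs w) (k - y)) (efun 2 2) := by
    conv_lhs => rw [← he]
    rw [← hassoc, hb0]
    congr 1
    funext k
    rw [hy k, hw]
  rw [h2, hadd, hsh]
  rfl

theorem TT_count (v n : ℕ) (w0 w1 : ℕ) (h0 : sml 2 2 (zs v) 0 = zs w0)
    (h1 : sml 2 2 (zs v) 1 = zs w1) : {k : ℤ | 2 + TT v k = n}.ncard =
    {k : ℤ | 2 + cmin 2 2 (zs v) 0 + GG w0 k = n}.ncard +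
      {k : ℤ | 2 + cmin 2 2 (zs v) 1 + GG w1 k = n}.ncard := by
  obtain ⟨y0, hy0⟩ := TT_sec v 0
  obtain ⟨y1, hy1⟩ := TT_sec v 1
  have e0 : (fun k : ℤ => ((0 : ℕ) : ℤ) + 2 * (k + y0)) '' {k : ℤ | 2 + cmin 2 2 (zs v) 0 + GG w0 k = n} =
      {k : ℤ | 2 + TT v k = n} ∩ {k : ℤ | k % 2 = 0} := by
    ext k
    simp only [Set.mem_image, Set.mem_inter_iff, Set.mem_ofPred_eq]
    constructor
    · rintro ⟨j, hj, rfl⟩
      rw [hy0 (j + y0) w0 h0]
      refine ⟨?_, by omega⟩
      have : j + y0 - y0 = j := by ring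
      rw [this, ← hj]
      ring
    · rintro ⟨hk, hk2⟩
      refine ⟨k / 2 - y0, ?_, by push_cast; omega⟩
      have h3 := hy0 (k / 2) w0 h0
      have h4 : ((0 : ℕ) : ℤ) + 2 * (k / 2) = k := by push_cast; omega
      rw [h4] at h3
      omega
  have e1 : (fun k : ℤ => ((1 : ℕ) : ℤ) + 2 * (k + y1)) '' {k : ℤ | 2 + cmin 2 2 (zs v) 1 + GG w1 k = n} =
      {k : ℤ | 2 + TT v k = n} \ {k : ℤ | k % 2 = 0} := by
    ext k
    simp only [Set.mem_image, Set.mem_sdiff, Set.mem_ofPred_eq]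
    constructor
    · rintro ⟨j, hj, rfl⟩
      rw [hy1 (j + y1) w1 h1]
      refine ⟨?_, by push_cast; omega⟩
      have : j + y1 - y1 = j := by ring
      rw [this, ← hj]
      ring
    · rintro ⟨hk, hk2⟩
      refine ⟨k / 2 - y1, ?_, by push_cast; omega⟩
      have h3 := hy1 (k / 2) w1 h1
      have h4 : ((1 : ℕ) : ℤ) + 2 * (k / 2) = k := by push_cast; omega
      rw [h4] at h3
      omega
  have h3 := Set.ncard_inter_add_ncard_sdiff_eq_ncard {k : ℤ | 2 + TT v k = n} {k : ℤ | k % 2 = 0}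
    (TT_fin v n)
  rw [← e0, ← e1, Set.ncard_image_of_injective _ (fun i j hij => by
    have : ((0 : ℕ) : ℤ) + 2 * (i + y0) = ((0 : ℕ) : ℤ) + 2 * (j + y0) := hij
    omega), Set.ncard_image_of_injective _ (fun i j hij => by
    have : ((1 : ℕ) : ℤ) + 2 * (i + y1) = ((1 : ℕ) : ℤ) + 2 * (j + y1) := hij
    omega)] at h3
  exact h3.symm

/-- the series `P_v` -/
noncomputable def Pv (v : ℕ) : PowerSeries ℤ := PowerSeries.mk fun n => (pcoef 2 2 (zs v) n : ℤ)

theorem pcoef_eq (v n : ℕ) : pcoef 2 2 (zs v) n = {k : ℤ | GG v k = n}.ncard := rfl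

theorem shift_count (w a n : ℕ) : {k : ℤ | a + GG w k = n}.ncard =
    if a ≤ n then pcoef 2 2 (zs w) (n - a) else 0 := by
  split_ifs with h
  · rw [pcoef_eq]
    congr 1
    ext k
    simp only [Set.mem_ofPred_eq]
    omega
  · have : {k : ℤ | a + GG w k = n} = ∅ := by
      apply Set.eq_empty_iff_forall_notMem.2
      intro k hk
      have hk' : a + GG w k = n := hk
      omega
    rw [this, Set.ncard_empty]

theorem coeff_XP (a v n : ℕ) : PowerSeries.coeff n (PowerSeries.X ^ a * Pv v) =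
    ((if a ≤ n then pcoef 2 2 (zs v) (n - a) else 0 : ℕ) : ℤ) := by
  rw [PowerSeries.coeff_X_pow_mul']
  split_ifs
  · unfold Pv; rw [PowerSeries.coeff_mk]
  · rfl

theorem Pv_rel (v w0 w1 c1 : ℕ) (h0 : sml 2 2 (zs v) 0 = zs w0)
    (h1 : sml 2 2 (zs v) 1 = zs w1) (hc : cmin 2 2 (zs v) 1 = c1) :
    Pv v + ((v : PowerSeries ℤ) + 1) * PowerSeries.X ^ 2 + 2 * PowerSeries.X ^ 4 =
    PowerSeries.X ^ 2 * Pv w0 + PowerSeries.X ^ (2 + c1) * Pv w1 + ((v : PowerSeries ℤ) + 1) +
      2 * PowerSeries.X ^ 2 := by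
  ext n
  have h := count_rel v n
  rw [TT_count v n w0 w1 h0 h1, cmin0, hc, shift_count, shift_count, ← pcoef_eq] at h
  obtain ⟨a, ha⟩ : ∃ a : ℤ, a = (v : ℤ) + 1 := ⟨_, rfl⟩
  have e1 : ((v : PowerSeries ℤ) + 1) = PowerSeries.C a := by rw [ha]; simp
  have e2 : (2 : PowerSeries ℤ) = PowerSeries.C (2 : ℤ) := by simp
  rw [e1, e2]
  simp only [map_add, coeff_XP, PowerSeries.coeff_C_mul, PowerSeries.coeff_X_pow,
    PowerSeries.coeff_C]
  have h3 : PowerSeries.coeff n (Pv v) = (pcoef 2 2 (zs v) n : ℤ) := by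
    unfold Pv; rw [PowerSeries.coeff_mk]
  rw [h3]
  simp only [mul_ite, mul_one, mul_zero]
  simp only [add_zero] at h
  rw [ha]
  have h5 := congrArg (Nat.cast : ℕ → ℤ) h
  push_cast at h5 ⊢
  linarith

theorem specPV' : Pv 0 = PowerSeries.X ^ 2 * (Pv 0 + PowerSeries.X ^ 2 * Pv 1) +
    (1 - PowerSeries.X ^ 2) + 2 * (PowerSeries.X ^ 2 - PowerSeries.X ^ 4) ∧
    ∀ v : ℕ, 1 ≤ v → Pv v = PowerSeries.X ^ 2 * (Pv (v / 2) + Pv ((v - 1) / 2)) +
      ((v : PowerSeries ℤ) + 1) * (1 - PowerSeries.X ^ 2) +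
      2 * (PowerSeries.X ^ 2 - PowerSeries.X ^ 4) := by
  constructor
  · have h := Pv_rel 0 0 1 2 (sml0 0) sml10 cmin10
    have h' : Pv 0 = PowerSeries.X ^ 2 * Pv 0 + PowerSeries.X ^ 4 * Pv 1 +
      (((0 : ℕ) : PowerSeries ℤ) + 1) + 2 * PowerSeries.X ^ 2 -
      (((0 : ℕ) : PowerSeries ℤ) + 1) * PowerSeries.X ^ 2 - 2 * PowerSeries.X ^ 4 := by
      rw [eq_sub_iff_add_eq, eq_sub_iff_add_eq]
      linear_combination h
    rw [Nat.cast_zero] at h'
    linear_combination h'
  · intro v hv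
    have h := Pv_rel v (v / 2) ((v - 1) / 2) 0 (sml0 v) (sml1 v hv) (cmin1 v hv)
    linear_combination h

end ZerM
end Pool.Agent.Lib.MPba1bba
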