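import Pool.Agent.Lib.MP_ba1bba_al.TR.Spec

/-!
# Module EC: the substitution `y = z ^ n`
-/

namespace Pool.Agent.Lib.MPba1bba.TR

namespace ECM

instance charS2 : CharP S2 2 :=
  charP_of_injective_ringHom (f := (PowerSeries.C : ZMod 2 →+* S2)) PowerSeries.C_injective 2

theorem coeff_ev (n m : ℕ) (F : PowerSeries S2) : PowerSeries.coeff m (ev n F) =
    ∑ j ∈ Finset.range (m + 1),
      if n * j ≤ m then PowerSeries.coeff (m - n * j) (PowerSeries.coeff j F) else 0 := by
  simp [ev]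

theorem coeff_ev_big {n : ℕ} (hn : 1 ≤ n) (m N : ℕ) (hN : m + 1 ≤ N) (F : PowerSeries S2) :
    PowerSeries.coeff m (ev n F) = ∑ j ∈ Finset.range N,
      if n * j ≤ m then PowerSeries.coeff (m - n * j) (PowerSeries.coeff j F) else 0 := by
  rw [coeff_ev]
  refine Finset.sum_subset (fun x hx => ?_) fun j _ hj => ?_
  · rw [Finset.mem_range] at hx ⊢
    omega
  · rw [Finset.mem_range, not_lt] at hj
    rw [if_neg]
    have : 1 * j ≤ n * j := Nat.mul_le_mul_right j hn
    omega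

/-- The partial sum. -/
noncomputable def ps (n K : ℕ) (F : PowerSeries S2) : S2 :=
  (PowerSeries.trunc (K + 1) F).eval ((PowerSeries.X : S2) ^ n)

theorem ps_eq (n K : ℕ) (F : PowerSeries S2) :
    ps n K F = ∑ j ∈ Finset.range (K + 1), PowerSeries.coeff j F * (PowerSeries.X ^ n) ^ j := by
  unfold ps
  rw [Polynomial.eval_eq_sum_range' (PowerSeries.natDegree_trunc_lt F K)]
  refine Finset.sum_congr rfl fun j hj => ?_
  rw [PowerSeries.coeff_trunc, if_pos (Finset.mem_range.1 hj)]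

theorem ev_ps {n : ℕ} (hn : 1 ≤ n) (K : ℕ) (F : PowerSeries S2) :
    (PowerSeries.X : S2) ^ (K + 1) ∣ ev n F - ps n K F := by
  rw [PowerSeries.X_pow_dvd_iff]
  intro m hm
  rw [map_sub, coeff_ev_big hn m (K + 1) (by omega), ps_eq, map_sum, sub_eq_zero]
  refine Finset.sum_congr rfl fun j _ => ?_
  rw [← pow_mul, mul_comm (PowerSeries.coeff j F), PowerSeries.coeff_X_pow_mul']

/-- Equality from congruences. -/
theorem eq_of_dvd (f g : S2) (h : ∀ K : ℕ, (PowerSeries.X : S2) ^ (K + 1) ∣ f - g) : f = g := by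
  rw [← sub_eq_zero]
  ext K
  have := (PowerSeries.X_pow_dvd_iff.1 (h K)) K (by omega)
  rw [this, map_zero]

theorem ps_mul (n K : ℕ) (hn : 1 ≤ n) (F G : PowerSeries S2) :
    (PowerSeries.X : S2) ^ (K + 1) ∣ ps n K F * ps n K G - ps n K (F * G) := by
  have h : (Polynomial.X : Polynomial S2) ^ (K + 1) ∣ PowerSeries.trunc (K + 1) F *
      PowerSeries.trunc (K + 1) G - PowerSeries.trunc (K + 1) (F * G) := by
    rw [Polynomial.X_pow_dvd_iff]
    intro d hd
    rw [Polynomial.coeff_sub, PowerSeries.coeff_trunc, if_pos hd,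
      PowerSeries.coeff_mul_eq_coeff_trunc_mul_trunc F G hd, ← Polynomial.coe_mul,
      Polynomial.coeff_coe, sub_self]
  obtain ⟨R, hR⟩ := h
  have h2 := congrArg (Polynomial.eval ((PowerSeries.X : S2) ^ n)) hR
  rw [Polynomial.eval_sub, Polynomial.eval_mul, Polynomial.eval_mul, Polynomial.eval_pow,
    Polynomial.eval_X] at h2
  unfold ps
  rw [h2, ← pow_mul]
  refine Dvd.dvd.mul_right (pow_dvd_pow _ ?_) _
  nlinarith

theorem ev_mul {n : ℕ} (hn : 1 ≤ n) (F G : PowerSeries S2) :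
    ev n (F * G) = ev n F * ev n G := by
  refine eq_of_dvd _ _ fun K => ?_
  have h1 := ev_ps hn K F
  have h2 := ev_ps hn K G
  have h3 := ev_ps hn K (F * G)
  have h4 := ps_mul n K hn F G
  have e : ev n (F * G) - ev n F * ev n G = (ev n (F * G) - ps n K (F * G)) -
      (ps n K F * ps n K G - ps n K (F * G)) - (ev n F - ps n K F) * ev n G -
      ps n K F * (ev n G - ps n K G) := by ring
  rw [e]
  exact dvd_sub (dvd_sub (dvd_sub h3 h4) (h1.mul_right _)) (h2.mul_left _)

theorem ev_add (n : ℕ) (F G : PowerSeries S2) : ev n (F + G) = ev n F + ev n G := by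
  ext m
  rw [map_add, coeff_ev, coeff_ev, coeff_ev, ← Finset.sum_add_distrib]
  refine Finset.sum_congr rfl fun j _ => ?_
  split_ifs <;> simp

theorem ev_C (n : ℕ) (a : S2) : ev n (PowerSeries.C a) = a := by
  ext m
  rw [coeff_ev, Finset.sum_eq_single 0]
  · simp
  · intro j _ hj
    rw [PowerSeries.coeff_C, if_neg hj]
    simp
  · intro h
    exact absurd (Finset.mem_range.2 (by omega)) h

theorem ev_X {n : ℕ} (hn : 1 ≤ n) : ev n PowerSeries.X = (PowerSeries.X : S2) ^ n := by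
  ext m
  rw [coeff_ev_big hn m (m + 2) (by omega), Finset.sum_eq_single 1]
  · rw [PowerSeries.coeff_one_X, PowerSeries.coeff_X_pow, mul_one]
    by_cases h : n ≤ m
    · rw [if_pos h, PowerSeries.coeff_one]
      by_cases h2 : m = n
      · rw [if_pos (by omega), if_pos h2]
      · rw [if_neg (by omega), if_neg h2]
    · rw [if_neg h, if_neg (by omega)]
  · intro j _ hj
    rw [PowerSeries.coeff_X, if_neg hj]
    simp
  · intro h
    exact absurd (Finset.mem_range.2 (by omega)) h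

theorem ev_pow {n : ℕ} (hn : 1 ≤ n) (F : PowerSeries S2) (m : ℕ) : ev n (F ^ m) = ev n F ^ m := by
  induction m with
  | zero =>
    rw [pow_zero, pow_zero]
    have := ev_C n (1 : S2)
    rwa [map_one] at this
  | succ m ih => rw [pow_succ, pow_succ, ev_mul hn, ih]

theorem ev_frob {n : ℕ} (hn : 1 ≤ n) (F : PowerSeries S2) :
    ev (2 * n) (PowerSeries.mk fun j => (PowerSeries.coeff j F) ^ 2) = (ev n F) ^ 2 := by
  refine eq_of_dvd _ _ fun K => ?_
  have h1 := ev_ps hn K F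
  have h2 := ev_ps (n := 2 * n) (by omega) K
    (PowerSeries.mk fun j => (PowerSeries.coeff j F) ^ 2)
  have h3 : ps (2 * n) K (PowerSeries.mk fun j => (PowerSeries.coeff j F) ^ 2) =
      (ps n K F) ^ 2 := by
    haveI : Fact (Nat.Prime 2) := ⟨Nat.prime_two⟩
    rw [ps_eq, ps_eq, sum_pow_char 2]
    refine Finset.sum_congr rfl fun j _ => ?_
    rw [PowerSeries.coeff_mk, mul_pow, mul_comm 2 n, pow_mul PowerSeries.X n 2, ← pow_mul,
      ← pow_mul _ j 2, mul_comm 2 j]
  have e : ev (2 * n) (PowerSeries.mk fun j => (PowerSeries.coeff j F) ^ 2) - (ev n F) ^ 2 =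
      (ev (2 * n) (PowerSeries.mk fun j => (PowerSeries.coeff j F) ^ 2) -
        ps (2 * n) K (PowerSeries.mk fun j => (PowerSeries.coeff j F) ^ 2)) -
      (ev n F - ps n K F) * (ev n F + ps n K F) := by
    rw [h3]; ring
  rw [e]
  exact dvd_sub h2 (h1.mul_right _)

theorem ev_dvd {n : ℕ} (hn : 1 ≤ n) (F : PowerSeries S2) (m : ℕ) (h : PowerSeries.X ^ m ∣ F) :
    (PowerSeries.X : S2) ^ (n * m) ∣ ev n F := by
  obtain ⟨G, rfl⟩ := h
  rw [ev_mul hn, ev_pow hn, ev_X hn, ← pow_mul]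
  exact dvd_mul_right _ _

theorem ev_ne (F : PowerSeries S2) (hF : F ≠ 0) : ∃ n₀ : ℕ, ∀ n ≥ n₀, ev n F ≠ 0 := by
  haveI : Fact (Nat.Prime 2) := ⟨Nat.prime_two⟩
  -- least nonzero coefficient
  have hex : ∃ m, PowerSeries.coeff m F ≠ 0 := by
    by_contra hcon
    push Not at hcon
    exact hF (by ext1 m; rw [hcon m, map_zero])
  classical
  set m := Nat.find hex with hm
  have hm1 : PowerSeries.coeff m F ≠ 0 := Nat.find_spec hex
  have hm2 : ∀ j < m, PowerSeries.coeff j F = 0 := fun j hj => by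
    have := Nat.find_min hex hj
    push Not at this
    exact this
  obtain ⟨G, hG⟩ := PowerSeries.X_pow_dvd_iff.2 hm2
  have hG0 : PowerSeries.coeff 0 G ≠ 0 := by
    rw [hG, PowerSeries.coeff_X_pow_mul', if_pos le_rfl, Nat.sub_self] at hm1
    exact hm1
  obtain ⟨r, hr⟩ : ∃ r, PowerSeries.coeff r (PowerSeries.coeff 0 G) ≠ 0 := by
    by_contra hcon
    push Not at hcon
    exact hG0 (by ext1 m; rw [hcon m, map_zero])
  refine ⟨r + 1, fun n hn => ?_⟩
  have hn1 : 1 ≤ n := by omega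
  rw [hG, ev_mul hn1, ev_pow hn1, ev_X hn1]
  refine mul_ne_zero (pow_ne_zero _ (pow_ne_zero _ PowerSeries.X_ne_zero)) fun h0 => ?_
  have h1 := congrArg (PowerSeries.coeff r) h0
  rw [coeff_ev, Finset.sum_eq_single 0] at h1
  · rw [mul_zero, if_pos (Nat.zero_le _), Nat.sub_zero, map_zero] at h1
    exact hr h1
  · intro j _ hj
    rw [if_neg]
    have : n * 1 ≤ n * j := Nat.mul_le_mul_left n (by omega)
    omega
  · intro h
    exact absurd (Finset.mem_range.2 (by omega)) h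

end ECM

theorem specEC : SpecEC :=
  ⟨fun _ hn => ⟨fun F G => ⟨ECM.ev_add _ F G, ECM.ev_mul hn F G⟩, ECM.ev_C _, ECM.ev_X hn,
    ECM.ev_frob hn, ECM.ev_dvd hn⟩, ECM.ev_ne⟩

end Pool.Agent.Lib.MPba1bba.TR
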