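import Pool.Agent.Lib.MP_ba1bba_al.TR.Spec2
import Pool.Agent.Lib.MP_ba1bba_al.TR.RE

/-!
# Module AUT: a power series over `𝔽₂` with a finite 2-kernel is algebraic
-/

namespace Pool.Agent.Lib.MPba1bba.TR

open Polynomial

namespace AUTM

instance charP_S2 : CharP S2 2 :=
  charP_of_injective_ringHom (PowerSeries.C_injective (R := ZMod 2)) 2

/-- `t_f = t_(f 0) ^ 2 + z t_(f 1) ^ 2` -/
theorem split (f : ℕ → ZMod 2) : (PowerSeries.mk f : S2) =
    (PowerSeries.mk fun n => f (2 * n)) ^ 2 +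
      PowerSeries.X * (PowerSeries.mk fun n => f (2 * n + 1)) ^ 2 := by
  ext n
  rw [map_add, PowerSeries.coeff_mk, INM.coeff_sq]
  rcases n with _ | n
  · simp
  · rw [PowerSeries.coeff_succ_X_mul, INM.coeff_sq, PowerSeries.coeff_mk, PowerSeries.coeff_mk]
    rcases Nat.even_or_odd (n + 1) with h | h
    · have h' : ¬ Even n := by
        rw [Nat.even_add_one] at h
        exact h
      rw [if_pos h, if_neg h', add_zero]
      congr 1
      obtain ⟨m, hm⟩ := h
      omega
    · have h' : Even n := by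
        rw [Nat.odd_add_one, Nat.not_odd_iff_even] at h
        exact h
      rw [if_neg (Nat.not_even_iff_odd.2 h), if_pos h', zero_add]
      congr 1
      obtain ⟨m, hm⟩ := h'
      omega

theorem ker_even {a f : ℕ → ZMod 2} (hf : f ∈ ker2 a) : (fun n => f (2 * n)) ∈ ker2 a := by
  obtain ⟨k, r, hr, h⟩ := hf
  refine ⟨k + 1, r, hr.trans (Nat.pow_lt_pow_right (by norm_num) (Nat.lt_succ_self k)), ?_⟩
  intro n
  change f (2 * n) = _
  rw [h]
  congr 1
  rw [pow_succ]
  ring

theorem ker_odd {a f : ℕ → ZMod 2} (hf : f ∈ ker2 a) : (fun n => f (2 * n + 1)) ∈ ker2 a := by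
  obtain ⟨k, r, hr, h⟩ := hf
  refine ⟨k + 1, 2 ^ k + r, by rw [pow_succ]; omega, ?_⟩
  intro n
  change f (2 * n + 1) = _
  rw [h]
  congr 1
  rw [pow_succ]
  ring

theorem ker_self (a : ℕ → ZMod 2) : a ∈ ker2 a := ⟨0, 0, by norm_num, fun n => by simp⟩

/-- the span of the powers of the kernel elements -/
theorem span (a : ℕ → ZMod 2) [Fintype (ker2 a)] (m : ℕ) : ∀ f : ker2 a,
    ∃ c : ker2 a → P2, (PowerSeries.mk f.1 : S2) =
      ∑ g, algebraMap P2 S2 (c g) * (PowerSeries.mk g.1 : S2) ^ (2 ^ m) := by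
  classical
  induction m with
  | zero =>
    intro f
    refine ⟨Pi.single f 1, ?_⟩
    rw [Finset.sum_eq_single f]
    · rw [Pi.single_eq_same, map_one, one_mul, pow_zero, pow_one]
    · intro b _ hb
      rw [Pi.single_eq_of_ne hb, map_zero, zero_mul]
    · intro h; exact absurd (Finset.mem_univ _) h
  | succ m ih =>
    intro f
    obtain ⟨c0, h0⟩ := ih ⟨_, ker_even f.2⟩
    obtain ⟨c1, h1⟩ := ih ⟨_, ker_odd f.2⟩
    refine ⟨fun g => c0 g ^ 2 + X * c1 g ^ 2, ?_⟩
    have e : ∀ c : ker2 a → P2,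
        (∑ g, algebraMap P2 S2 (c g) * (PowerSeries.mk g.1 : S2) ^ (2 ^ m)) ^ 2 =
        ∑ g, algebraMap P2 S2 (c g ^ 2) * (PowerSeries.mk g.1 : S2) ^ (2 ^ (m + 1)) := by
      intro c
      rw [sum_pow_char 2]
      refine Finset.sum_congr rfl fun g _ => ?_
      rw [mul_pow, ← map_pow, ← pow_mul, ← pow_succ]
    have eX : algebraMap P2 S2 X = PowerSeries.X := Polynomial.coe_X
    rw [split f.1, h0, h1, e, e, Finset.mul_sum, ← Finset.sum_add_distrib]
    refine Finset.sum_congr rfl fun g _ => ?_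
    rw [map_add, map_mul, eX]
    ring

end AUTM

open AUTM in
theorem specAUT : SpecAUT := by
  classical
  intro t hfin
  set a : ℕ → ZMod 2 := fun n => PowerSeries.coeff n t with ha
  have hF : Fintype (ker2 a) := hfin.fintype
  set N := Fintype.card (ker2 a) with hN
  have ht : (PowerSeries.mk a : S2) = t := by
    ext n
    rw [PowerSeries.coeff_mk]
  have key : ∀ i : Fin (N + 1), ∃ c : ker2 a → P2, t ^ (2 ^ (i : ℕ)) =
      ∑ g, algebraMap P2 S2 (c g) * (PowerSeries.mk g.1 : S2) ^ (2 ^ N) := by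
    intro i
    obtain ⟨c, hc⟩ := span a (N - i) ⟨a, ker_self a⟩
    refine ⟨fun g => c g ^ (2 ^ (i : ℕ)), ?_⟩
    have hc' : t = ∑ g, algebraMap P2 S2 (c g) * (PowerSeries.mk g.1 : S2) ^ (2 ^ (N - i)) := by
      rw [← hc, ht]
    conv_lhs => rw [hc', sum_pow_char_pow 2 (i : ℕ)]
    refine Finset.sum_congr rfl fun g _ => ?_
    rw [mul_pow, ← map_pow, ← pow_mul, ← pow_add]
    congr 2
    have := i.2
    congr 1
    omega
  choose c hc using key
  have hli : ¬ LinearIndependent P2 c := by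
    intro h
    have h1 := h.fintype_card_le_finrank
    rw [Fintype.card_fin, Module.finrank_fintype_fun_eq_card, ← hN] at h1
    omega
  obtain ⟨d, hd, i0, hi0⟩ := Fintype.not_linearIndependent_iff.1 hli
  refine ⟨∑ i : Fin (N + 1), C (d i) * X ^ (2 ^ (i : ℕ)), ?_, ?_⟩
  · intro h0
    have h1 := congrArg (fun p => coeff p (2 ^ (i0 : ℕ))) h0
    simp only [finsetSum_coeff, coeff_C_mul, coeff_X_pow, coeff_zero] at h1
    rw [Finset.sum_eq_single i0] at h1
    · rw [if_pos rfl, mul_one] at h1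
      exact hi0 h1
    · intro b _ hb
      rw [if_neg, mul_zero]
      intro h
      exact hb (Fin.ext (Nat.pow_right_injective le_rfl h.symm))
    · intro h; exact absurd (Finset.mem_univ _) h
  · rw [map_sum]
    have h1 : ∀ i : Fin (N + 1), aeval t (C (d i) * X ^ (2 ^ (i : ℕ)) : Polynomial P2) =
        ∑ g, algebraMap P2 S2 (d i * c i g) * (PowerSeries.mk g.1 : S2) ^ (2 ^ N) := by
      intro i
      rw [map_mul, aeval_C, map_pow, aeval_X, hc i, Finset.mul_sum]
      refine Finset.sum_congr rfl fun g _ => ?_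
      rw [map_mul, mul_assoc]
    rw [Finset.sum_congr rfl fun i _ => h1 i, Finset.sum_comm]
    refine Finset.sum_eq_zero fun g _ => ?_
    rw [← Finset.sum_mul, ← map_sum]
    have h2 := congrFun hd g
    rw [Finset.sum_apply] at h2
    simp only [Pi.smul_apply, smul_eq_mul, Pi.zero_apply] at h2
    rw [h2, map_zero, zero_mul]

end Pool.Agent.Lib.MPba1bba.TR
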