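import Pool.Agent.Lib.MP_ba1bba_al.TR.Spec2

section
/-!
# Diagonals of rational power series modulo 4
-/
namespace Pool.Agent.Lib.MPba1bba.TR

namespace Dia

open MvPolynomial

variable {d : ℕ}

/-- the constant exponent -/
noncomputable def cst (d n : ℕ) : Fin d →₀ ℕ := Finsupp.equivFunOnFinite.symm fun _ => n

@[simp] theorem cst_apply (n : ℕ) (i : Fin d) : cst d n i = n := rfl

/-- section operator -/
noncomputable def lam (r : ℕ) (G : MvPowerSeries (Fin d) (ZMod 4)) : MvPowerSeries (Fin d) (ZMod 4) :=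
  fun m => MvPowerSeries.coeff (2 • m + cst d r) G

theorem coeff_lam (r : ℕ) (G : MvPowerSeries (Fin d) (ZMod 4)) (m : Fin d →₀ ℕ) :
    MvPowerSeries.coeff m (lam r G) = MvPowerSeries.coeff (2 • m + cst d r) G := rfl

theorem diag_lam (r : ℕ) (G : MvPowerSeries (Fin d) (ZMod 4)) (n : ℕ) :
    diag (lam r G) n = diag G (2 * n + r) := by
  unfold diag
  rw [coeff_lam]
  have h : 2 • (Finsupp.equivFunOnFinite.symm fun _ => n : Fin d →₀ ℕ) + cst d r =
      Finsupp.equivFunOnFinite.symm fun _ => 2 * n + r := by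
    ext i
    simp
  rw [h]

theorem lam_monomial {r : ℕ} (hr : r < 2) (s : Fin d →₀ ℕ) (a : ZMod 4)
    (G : MvPowerSeries (Fin d) (ZMod 4)) :
    lam r (((expand 2 (monomial s a) : MvPolynomial (Fin d) (ZMod 4)) :
        MvPowerSeries (Fin d) (ZMod 4)) * G) =
      ((monomial s a : MvPolynomial (Fin d) (ZMod 4)) : MvPowerSeries (Fin d) (ZMod 4)) *
        lam r G := by
  ext m
  rw [coeff_lam, expand_monomial, MvPolynomial.coe_monomial, MvPolynomial.coe_monomial,
    MvPowerSeries.coeff_monomial_mul, MvPowerSeries.coeff_monomial_mul]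
  by_cases h : s ≤ m
  · have h2 : 2 • s ≤ 2 • m + cst d r := by
      intro i
      have := h i
      simp only [Finsupp.coe_add, Finsupp.coe_smul, Pi.add_apply, Pi.smul_apply, smul_eq_mul,
        cst_apply]
      omega
    have h3 : 2 • m + cst d r - 2 • s = 2 • (m - s) + cst d r := by
      ext i
      have := h i
      simp only [Finsupp.coe_add, Finsupp.coe_smul, Pi.add_apply, Pi.smul_apply, smul_eq_mul,
        cst_apply, Finsupp.coe_tsub, Pi.sub_apply]
      omega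
    rw [if_pos h, if_pos h2, coeff_lam, h3]
  · have h2 : ¬ 2 • s ≤ 2 • m + cst d r := by
      intro hh
      refine h fun i => ?_
      have := hh i
      simp only [Finsupp.coe_add, Finsupp.coe_smul, Pi.add_apply, Pi.smul_apply, smul_eq_mul,
        cst_apply] at this
      omega
    rw [if_neg h, if_neg h2]

theorem lam_add (r : ℕ) (G H : MvPowerSeries (Fin d) (ZMod 4)) :
    lam r (G + H) = lam r G + lam r H := by
  ext m
  simp [coeff_lam]

theorem lam_expand {r : ℕ} (hr : r < 2) (B : MvPolynomial (Fin d) (ZMod 4))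
    (G : MvPowerSeries (Fin d) (ZMod 4)) :
    lam r (((expand 2 B : MvPolynomial (Fin d) (ZMod 4)) : MvPowerSeries (Fin d) (ZMod 4)) * G) =
      (B : MvPowerSeries (Fin d) (ZMod 4)) * lam r G := by
  induction B using MvPolynomial.induction_on' with
  | monomial s a => exact lam_monomial hr s a G
  | add p q hp hq =>
    rw [map_add, MvPolynomial.coe_add, MvPolynomial.coe_add, add_mul, add_mul, lam_add, hp, hq]

/-- coefficients outside of the box vanish -/
def Box (N : ℕ) (G : MvPowerSeries (Fin d) (ZMod 4)) : Prop :=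
  ∀ m, ¬ m ≤ cst d N → MvPowerSeries.coeff m G = 0

theorem box_mul {N M : ℕ} {G H : MvPowerSeries (Fin d) (ZMod 4)} (hG : Box N G) (hH : Box M H) :
    Box (N + M) (G * H) := by
  intro m hm
  rw [MvPowerSeries.coeff_mul]
  refine Finset.sum_eq_zero ?_
  rintro ⟨a, b⟩ hab
  have hab : a + b = m := Finset.HasAntidiagonal.mem_antidiagonal.mp hab
  by_cases h1 : a ≤ cst d N
  · have h2 : ¬ b ≤ cst d M := by
      intro h2
      refine hm fun i => ?_
      rw [← hab]
      have h3 := h1 i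
      have h4 := h2 i
      simp only [cst_apply] at h3 h4
      simp only [Finsupp.coe_add, Pi.add_apply, cst_apply]
      omega
    rw [hH b h2, mul_zero]
  · rw [hG a h1, zero_mul]

theorem exists_box (P : MvPolynomial (Fin d) (ZMod 4)) :
    ∃ N, ∀ M, N ≤ M → Box M (P : MvPowerSeries (Fin d) (ZMod 4)) := by
  refine ⟨P.totalDegree, fun M hM m hm => ?_⟩
  rw [MvPolynomial.coeff_coe]
  by_contra hne
  refine hm fun i => ?_
  rw [cst_apply]
  have h1 : m ∈ P.support := MvPolynomial.mem_support_iff.mpr hne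
  have h2 := MvPolynomial.le_totalDegree h1
  have h3 : m i ≤ m.sum fun _ e => e := by
    by_cases hi : i ∈ m.support
    · exact Finset.single_le_sum (f := fun i => m i) (fun _ _ => Nat.zero_le _) hi
    · rw [Finsupp.notMem_support_iff.mp hi]
      exact Nat.zero_le _
  omega

theorem box_lam {N r : ℕ} (hr : r < 2) {G : MvPowerSeries (Fin d) (ZMod 4)} (hG : Box (2 * N) G) :
    Box N (lam r G) := by
  intro m hm
  rw [coeff_lam]
  refine hG _ fun hh => hm fun i => ?_
  have := hh i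
  simp only [Finsupp.coe_add, Finsupp.coe_smul, Pi.add_apply, Pi.smul_apply, smul_eq_mul,
      cst_apply] at this
  rw [cst_apply]
  omega

/-- reduction -/
def p42 : ZMod 4 →+* ZMod 2 := ZMod.castHom (by norm_num) (ZMod 2)

theorem p42_zero (x : ZMod 4) (h : p42 x = 0) : ∃ y, x = 2 * y := by
  revert h
  revert x
  decide

theorem two_mul_zero (x : ZMod 4) (h : 2 * x = 0) : p42 x = 0 := by
  revert h
  revert x
  decide

theorem exists_half (G : MvPowerSeries (Fin d) (ZMod 4)) (h : MvPowerSeries.map p42 G = 0) :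
    ∃ G' : MvPowerSeries (Fin d) (ZMod 4), G = 2 * G' := by
  have h1 : ∀ m, ∃ y, MvPowerSeries.coeff m G = 2 * y := by
    intro m
    apply p42_zero
    have := congrArg (MvPowerSeries.coeff m) h
    rw [MvPowerSeries.coeff_map] at this
    simpa using this
  choose y hy using h1
  have h2 : ∃ G' : MvPowerSeries (Fin d) (ZMod 4), ∀ m, MvPowerSeries.coeff m G' = y m :=
    ⟨fun m => y m, fun m => rfl⟩
  obtain ⟨G', hG'⟩ := h2
  refine ⟨G', ?_⟩
  ext m
  rw [hy m, show (2 : MvPowerSeries (Fin d) (ZMod 4)) = MvPowerSeries.C 2 from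
    (map_ofNat MvPowerSeries.C 2).symm, MvPowerSeries.coeff_C_mul, hG']

theorem nzd (Q : MvPolynomial (Fin d) (ZMod 4)) (hQ : MvPolynomial.map p42 Q ≠ 0)
    (G : MvPowerSeries (Fin d) (ZMod 4)) (h : (Q : MvPowerSeries (Fin d) (ZMod 4)) * G = 0) :
    G = 0 := by
  have hmap : MvPowerSeries.map p42 (Q : MvPowerSeries (Fin d) (ZMod 4)) ≠ 0 := by
    intro h0
    refine hQ ?_
    ext m
    have := congrArg (MvPowerSeries.coeff m) h0
    rw [MvPowerSeries.coeff_map, MvPolynomial.coeff_coe] at this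
    rw [MvPolynomial.coeff_map, this]
    simp
  have key : ∀ H : MvPowerSeries (Fin d) (ZMod 4),
      MvPowerSeries.map p42 ((Q : MvPowerSeries (Fin d) (ZMod 4)) * H) = 0 →
      MvPowerSeries.map p42 H = 0 := by
    intro H hH
    rw [map_mul] at hH
    exact (mul_eq_zero.mp hH).resolve_left hmap
  obtain ⟨G', rfl⟩ := exists_half G (key G (by rw [h, map_zero]))
  have h2 : 2 * ((Q : MvPowerSeries (Fin d) (ZMod 4)) * G') = 0 := by
    rw [← h]
    ring
  have h3 : MvPowerSeries.map p42 ((Q : MvPowerSeries (Fin d) (ZMod 4)) * G') = 0 := by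
    ext m
    rw [MvPowerSeries.coeff_map]
    have := congrArg (MvPowerSeries.coeff m) h2
    rw [show (2 : MvPowerSeries (Fin d) (ZMod 4)) = MvPowerSeries.C 2 from
      (map_ofNat MvPowerSeries.C 2).symm, MvPowerSeries.coeff_C_mul] at this
    rw [two_mul_zero _ (by simpa using this)]
    simp
  obtain ⟨G'', rfl⟩ := exists_half G' (key G' h3)
  rw [← mul_assoc]
  have : (2 : MvPowerSeries (Fin d) (ZMod 4)) * 2 = 0 := by
    rw [show (2 : MvPowerSeries (Fin d) (ZMod 4)) = MvPowerSeries.C 2 from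
      (map_ofNat MvPowerSeries.C 2).symm, ← map_mul, show (2 : ZMod 4) * 2 = 0 from by decide,
      map_zero]
  rw [this, zero_mul]

theorem pow_four (Q : MvPolynomial (Fin d) ℤ) :
    (MvPolynomial.map (Int.castRingHom (ZMod 4)) Q) ^ 4 =
      expand 2 ((MvPolynomial.map (Int.castRingHom (ZMod 4)) Q) ^ 2) := by
  have h1 : (MvPolynomial.C ((2 : ℕ) : ℤ) : MvPolynomial (Fin d) ℤ) ∣ Q ^ 2 - expand 2 Q := by
    rw [MvPolynomial.C_dvd_iff_zmod, map_sub, map_pow, map_expand, expand_zmod, sub_self]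
  obtain ⟨H, hH⟩ := h1
  have h2 : Q ^ 2 = expand 2 Q + MvPolynomial.C (2 : ℤ) * H := by
    rw [← sub_add_cancel (Q ^ 2) (expand 2 Q), hH]
    simp [add_comm]
  have h3 := congrArg (MvPolynomial.map (Int.castRingHom (ZMod 4))) h2
  rw [map_pow, map_add, map_mul, map_expand, map_C] at h3
  set q := MvPolynomial.map (Int.castRingHom (ZMod 4)) Q with hq
  set g := MvPolynomial.map (Int.castRingHom (ZMod 4)) H with hg
  have h4 : (MvPolynomial.C ((Int.castRingHom (ZMod 4)) 2) : MvPolynomial (Fin d) (ZMod 4)) = 2 := by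
    rw [map_ofNat, map_ofNat]
  rw [h4] at h3
  have h5 : (4 : MvPolynomial (Fin d) (ZMod 4)) = 0 := by
    rw [show (4 : MvPolynomial (Fin d) (ZMod 4)) = MvPolynomial.C 4 from
      (map_ofNat MvPolynomial.C 4).symm, show (4 : ZMod 4) = 0 from by decide, map_zero]
  rw [map_pow, show q ^ 4 = (q ^ 2) ^ 2 from by ring, h3]
  have : (expand 2 q + 2 * g) ^ 2 = expand 2 q ^ 2 + 4 * (expand 2 q * g + g ^ 2) := by ring
  rw [this, h5, zero_mul, add_zero]

/-- the finite stable set -/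
def VV (Q : MvPolynomial (Fin d) (ZMod 4)) (N : ℕ) : Set (MvPowerSeries (Fin d) (ZMod 4)) :=
  {G | Box N ((Q : MvPowerSeries (Fin d) (ZMod 4)) ^ 2 * G)}

theorem VV_finite (Q : MvPolynomial (Fin d) (ZMod 4)) (hQ : MvPolynomial.map p42 Q ≠ 0) (N : ℕ) :
    (VV Q N).Finite := by
  have : Finite (Set.Iic (cst d N)) := (Set.finite_Iic (cst d N)).to_subtype
  let φ : MvPowerSeries (Fin d) (ZMod 4) → (Set.Iic (cst d N) → ZMod 4) :=
    fun G m => MvPowerSeries.coeff (m : Fin d →₀ ℕ) ((Q : MvPowerSeries (Fin d) (ZMod 4)) ^ 2 * G)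
  refine Set.Finite.of_finite_image (f := φ) (Set.toFinite _) ?_
  intro G hG G' hG' h
  have h1 : (Q : MvPowerSeries (Fin d) (ZMod 4)) ^ 2 * G =
      (Q : MvPowerSeries (Fin d) (ZMod 4)) ^ 2 * G' := by
    ext m
    by_cases hm : m ≤ cst d N
    · exact congrFun h ⟨m, hm⟩
    · rw [hG m hm, hG' m hm]
  have h2 : (Q : MvPowerSeries (Fin d) (ZMod 4)) *
      ((Q : MvPowerSeries (Fin d) (ZMod 4)) * (G - G')) = 0 := by
    rw [← mul_assoc, ← pow_two, mul_sub, h1, sub_self]
  exact sub_eq_zero.mp (nzd Q hQ _ (nzd Q hQ _ h2))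

theorem VV_lam (Q : MvPolynomial (Fin d) (ZMod 4)) (h4 : Q ^ 4 = expand 2 (Q ^ 2)) (N r : ℕ)
    (hr : r < 2) (hQN : Box N ((Q : MvPowerSeries (Fin d) (ZMod 4)) ^ 2))
    (G : MvPowerSeries (Fin d) (ZMod 4)) (hG : G ∈ VV Q N) : lam r G ∈ VV Q N := by
  have h1 : (Q : MvPowerSeries (Fin d) (ZMod 4)) ^ 2 * lam r G =
      lam r ((Q : MvPowerSeries (Fin d) (ZMod 4)) ^ 2 *
        ((Q : MvPowerSeries (Fin d) (ZMod 4)) ^ 2 * G)) := by
    have h5 : (Q : MvPowerSeries (Fin d) (ZMod 4)) ^ 2 = ((Q ^ 2 : MvPolynomial (Fin d) (ZMod 4)) :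
        MvPowerSeries (Fin d) (ZMod 4)) := by
      rw [MvPolynomial.coe_pow]
    have h6 : (Q : MvPowerSeries (Fin d) (ZMod 4)) ^ 2 *
        (Q : MvPowerSeries (Fin d) (ZMod 4)) ^ 2 =
        ((expand 2 (Q ^ 2) : MvPolynomial (Fin d) (ZMod 4)) : MvPowerSeries (Fin d) (ZMod 4)) := by
      rw [← h4, MvPolynomial.coe_pow, ← pow_add]
    rw [← mul_assoc, h6, lam_expand hr, ← h5]
  show Box N _
  rw [h1]
  refine box_lam hr ?_
  rw [two_mul]
  exact box_mul hQN hG

/-- primitive part of the denominator -/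
theorem primitive (F : MvPowerSeries (Fin d) ℤ) (n : ℕ) : ∀ (m : Fin d →₀ ℕ)
    (P Q : MvPolynomial (Fin d) ℤ), (MvPolynomial.coeff m Q).natAbs = n →
    MvPolynomial.coeff m Q ≠ 0 → (Q : MvPowerSeries (Fin d) ℤ) * F = P →
    ∃ P' Q' : MvPolynomial (Fin d) ℤ, MvPolynomial.map (Int.castRingHom (ZMod 2)) Q' ≠ 0 ∧
      (Q' : MvPowerSeries (Fin d) ℤ) * F = P' := by
  induction n using Nat.strong_induction_on with
  | _ n ih =>
    intro m P Q hn hm hQP
    by_cases h0 : MvPolynomial.map (Int.castRingHom (ZMod 2)) Q = 0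
    · have h1 := (MvPolynomial.C_dvd_iff_zmod 2 Q).mpr h0
      obtain ⟨Q₁, rfl⟩ := h1
      have hP : (MvPolynomial.C ((2 : ℕ) : ℤ) : MvPolynomial (Fin d) ℤ) ∣ P := by
        rw [MvPolynomial.C_dvd_iff_zmod]
        ext k
        rw [MvPolynomial.coeff_map, ← MvPolynomial.coeff_coe, ← hQP, MvPolynomial.coe_mul,
          MvPolynomial.coe_C, mul_assoc, MvPowerSeries.coeff_C_mul, map_mul]
        have : (Int.castRingHom (ZMod 2)) ((2 : ℕ) : ℤ) = 0 := by decide
        rw [this, zero_mul]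
        simp
      obtain ⟨P₁, rfl⟩ := hP
      have h2 : (Q₁ : MvPowerSeries (Fin d) ℤ) * F = P₁ := by
        ext k
        have := congrArg (MvPowerSeries.coeff k) hQP
        rw [MvPolynomial.coe_mul, MvPolynomial.coe_mul, MvPolynomial.coe_C, mul_assoc,
          MvPowerSeries.coeff_C_mul, MvPowerSeries.coeff_C_mul] at this
        have h2 : (((2 : ℕ) : ℤ)) ≠ 0 := by norm_num
        exact mul_left_cancel₀ h2 this
      rw [MvPolynomial.coeff_C_mul] at hm hn
      have hm' : MvPolynomial.coeff m Q₁ ≠ 0 := by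
        intro h
        rw [h, mul_zero] at hm
        exact hm rfl
      refine ih (MvPolynomial.coeff m Q₁).natAbs ?_ m P₁ Q₁ rfl hm' h2
      rw [Int.natAbs_mul] at hn
      have h3 : (((2 : ℕ) : ℤ)).natAbs = 2 := rfl
      rw [h3] at hn
      have : 0 < (MvPolynomial.coeff m Q₁).natAbs := Int.natAbs_pos.mpr hm'
      omega
    · exact ⟨P, Q, h0, hQP⟩

end Dia

open Dia in
theorem specDIA : SpecDIA := by
  rintro d F ⟨P₀, Q₀, hQ₀, hPQ₀⟩
  obtain ⟨m, hm⟩ := MvPolynomial.ne_zero_iff.mp hQ₀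
  obtain ⟨P, Q, hQ, hPQ⟩ := primitive F _ m P₀ Q₀ rfl hm hPQ₀
  set Q4 := MvPolynomial.map (Int.castRingHom (ZMod 4)) Q with hQ4
  set P4 := MvPolynomial.map (Int.castRingHom (ZMod 4)) P with hP4
  set F4 := MvPowerSeries.map (Int.castRingHom (ZMod 4)) F with hF4
  have hcoe : ∀ A : MvPolynomial (Fin d) ℤ,
      MvPowerSeries.map (Int.castRingHom (ZMod 4)) (A : MvPowerSeries (Fin d) ℤ) =
      ((MvPolynomial.map (Int.castRingHom (ZMod 4)) A : MvPolynomial (Fin d) (ZMod 4)) :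
        MvPowerSeries (Fin d) (ZMod 4)) := by
    intro A
    ext k
    rw [MvPowerSeries.coeff_map, MvPolynomial.coeff_coe, MvPolynomial.coeff_coe,
      MvPolynomial.coeff_map]
  have hF : (Q4 : MvPowerSeries (Fin d) (ZMod 4)) * F4 = P4 := by
    rw [hQ4, hF4, hP4, ← hcoe, ← hcoe, ← map_mul, hPQ]
  have hQ2 : MvPolynomial.map p42 Q4 ≠ 0 := by
    rw [hQ4, MvPolynomial.map_map]
    have : p42.comp (Int.castRingHom (ZMod 4)) = Int.castRingHom (ZMod 2) := RingHom.ext_int _ _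
    rw [this]
    exact hQ
  have h4 : Q4 ^ 4 = MvPolynomial.expand 2 (Q4 ^ 2) := pow_four Q
  obtain ⟨N₁, hN₁⟩ := exists_box (Q4 ^ 2)
  obtain ⟨N₂, hN₂⟩ := exists_box (Q4 * P4)
  set N := max N₁ N₂ with hN
  have hQN : Box N ((Q4 : MvPowerSeries (Fin d) (ZMod 4)) ^ 2) := by
    have := hN₁ N (le_max_left _ _)
    rwa [MvPolynomial.coe_pow] at this
  have hFV : F4 ∈ VV Q4 N := by
    have h := hN₂ N (le_max_right _ _)
    show Box N _
    rw [pow_two, mul_assoc, hF, ← MvPolynomial.coe_mul]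
    exact h
  have hker : ∀ k r : ℕ, r < 2 ^ k → ∃ G ∈ VV Q4 N, ∀ n, diag G n = diag F4 (2 ^ k * n + r) := by
    intro k
    induction k with
    | zero =>
      intro r hr
      refine ⟨F4, hFV, fun n => ?_⟩
      have : r = 0 := by simpa using hr
      rw [this]
      simp
    | succ k ih =>
      intro r hr
      have hp : 0 < 2 ^ k := by positivity
      obtain ⟨G, hG, hGn⟩ := ih (r % 2 ^ k) (Nat.mod_lt _ hp)
      have hr1 : r / 2 ^ k < 2 := by
        rw [Nat.div_lt_iff_lt_mul hp]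
        rw [pow_succ] at hr
        omega
      refine ⟨Dia.lam (r / 2 ^ k) G, VV_lam Q4 h4 N _ hr1 hQN G hG, fun n => ?_⟩
      have := Nat.div_add_mod r (2 ^ k)
      have h5 : 2 ^ k * (2 * n + r / 2 ^ k) + r % 2 ^ k = 2 ^ (k + 1) * n + r := by
        rw [pow_succ]
        calc 2 ^ k * (2 * n + r / 2 ^ k) + r % 2 ^ k
            = 2 ^ k * 2 * n + (2 ^ k * (r / 2 ^ k) + r % 2 ^ k) := by ring
          _ = 2 ^ k * 2 * n + r := by rw [this]
      rw [diag_lam, hGn, h5]
  have hdiag : ∀ n, diag F4 n = ((diag F n : ℤ) : ZMod 4) := by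
    intro n
    unfold diag
    rw [hF4, MvPowerSeries.coeff_map]
    rfl
  refine ((VV_finite Q4 hQ2 N).image fun G => diag G).subset ?_
  rintro f ⟨k, r, hr, hf⟩
  obtain ⟨G, hG, hGn⟩ := hker k r hr
  refine ⟨G, hG, ?_⟩
  funext n
  show diag G n = f n
  rw [hGn, hf, hdiag]

end Pool.Agent.Lib.MPba1bba.TR
end

section
/-!
# The growth series of `B(2,4)` modulo 4: assembly
-/
namespace Pool.Agent.Lib.MPba1bba.TR

open Polynomial

/-- The theorem. -/
def Statement2 : Prop :=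
  Transcendental (Polynomial ℚ) (PowerSeries.mk fun n => (sphere 2 4 n : ℚ)) ∧
  (∀ (d : ℕ) (F : MvPowerSeries (Fin d) ℤ), IsRational F → ∃ n, diag F n ≠ sphere 2 4 n) ∧
  (ker2 fun n => (sphere 2 4 n : ZMod 4)).Infinite

theorem core (hMain : Pool.Agent.Lib.MPba1bba.MainStatement) (hZS : SpecZS) (hPV : SpecPV)
    (hMO : SpecMO) (hEM : SpecEM) (hQU : SpecQU) (hAL : SpecAL) (hDU : SpecDU)
    (hMA : SpecMA) : ∃ S₁ : PowerSeries ℤ,
      (PowerSeries.mk fun n => (sphere 2 4 n : ℤ)) = 1 + 2 * S₁ ∧ ¬ IsAlgebraic P2 (bar0 S₁) := by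
  obtain ⟨Q, E, H, hSys, _, hsp⟩ := hMain 2 2 le_rfl le_rfl
  obtain ⟨Q', E', H', hS2, hpsi⟩ := hZS Q E H hSys
  obtain ⟨S₁, hS₁, σ, h, h', κ, e1, e2, e3, e4, e5⟩ := hMO _ Q' E' H' hPV hS2
  obtain ⟨A, B, C, D, hC, hD, hq⟩ := hQU
  have hq := hq (bar0 S₁) (ev0 (bar H')) σ h h' κ e1 e2 e3 e4 e5
  refine ⟨S₁, ?_, ?_⟩
  · rw [← hS₁, ← hpsi]
    ext n
    rw [PowerSeries.coeff_mk, ← hsp n]
  intro h1
  have h2 : IsAlgebraic P2 (ev0 (bar H')) := hAL A B C D _ _ hC hq h1
  obtain ⟨_, _, m3, m4, _⟩ := hEM Q' E' H' hS2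
  obtain ⟨μ, hμ, hrel⟩ := hDU _ (bar H') m3 m4
  refine hMA μ hμ ?_
  have hz : IsAlgebraic P2 ((1 : S2) + zz) := by
    have : (1 : S2) + zz = algebraMap P2 S2 (1 + X) := by
      simp [PowerSeries.algebraMap_apply']
    rw [this]
    exact isAlgebraic_algebraMap _
  have h3 : (1 + zz) * μ 0 = (1 + zz) * ev0 (bar H') - 1 := by
    rw [hrel]
    ring
  have h4 : IsAlgebraic P2 ((1 + zz) * μ 0) := by
    rw [h3]
    exact (hz.mul h2).sub isAlgebraic_one
  refine IsAlgebraic.of_mul (mem_nonZeroDivisors_of_ne_zero ?_) hz h4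
  intro h0
  have := congrArg PowerSeries.constantCoeff h0
  simp at this

/-- half of a residue modulo 4, modulo 2 -/
def half4 (x : ZMod 4) : ZMod 2 := ((x.val / 2 : ℕ) : ZMod 2)

theorem half4_even (s : ℤ) : half4 ((2 * s : ℤ) : ZMod 4) = (s : ZMod 2) := by
  have h1 : ((2 * s : ℤ) : ZMod 4) = ((2 * (s % 2) : ℤ) : ZMod 4) := by
    rw [ZMod.intCast_eq_intCast_iff_dvd_sub]
    omega
  have h2 : (s : ZMod 2) = ((s % 2 : ℤ) : ZMod 2) := by
    rw [ZMod.intCast_eq_intCast_iff_dvd_sub]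
    omega
  rw [h1, h2]
  rcases Int.emod_two_eq_zero_or_one s with h | h <;> rw [h] <;> decide

theorem half4_odd (s : ℤ) : half4 ((1 + 2 * s : ℤ) : ZMod 4) = (s : ZMod 2) := by
  have h1 : ((1 + 2 * s : ℤ) : ZMod 4) = ((1 + 2 * (s % 2) : ℤ) : ZMod 4) := by
    rw [ZMod.intCast_eq_intCast_iff_dvd_sub]
    omega
  have h2 : (s : ZMod 2) = ((s % 2 : ℤ) : ZMod 2) := by
    rw [ZMod.intCast_eq_intCast_iff_dvd_sub]
    omega
  rw [h1, h2]
  rcases Int.emod_two_eq_zero_or_one s with h | h <;> rw [h] <;> decide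

theorem fin2 (hcore : ∃ S₁ : PowerSeries ℤ,
      (PowerSeries.mk fun n => (sphere 2 4 n : ℤ)) = 1 + 2 * S₁ ∧ ¬ IsAlgebraic P2 (bar0 S₁))
    (hRE : SpecRE) (hAUT : SpecAUT) (hDIA : SpecDIA) : Statement2 := by
  obtain ⟨S₁, hS, hna⟩ := hcore
  have hker : (ker2 fun n => (sphere 2 4 n : ZMod 4)).Infinite := by
    intro hfin
    refine hna (hAUT _ ((hfin.image fun f n => half4 (f n)).subset ?_))
    have hval : ∀ n, PowerSeries.coeff n (bar0 S₁) = half4 (sphere 2 4 n : ZMod 4) := by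
      intro n
      have h1 := congrArg (PowerSeries.coeff n) hS
      rw [PowerSeries.coeff_mk, map_add, PowerSeries.coeff_one] at h1
      have h2 : PowerSeries.coeff n (2 * S₁) = 2 * PowerSeries.coeff n S₁ := by
        rw [show (2 : PowerSeries ℤ) = PowerSeries.C 2 from (map_ofNat PowerSeries.C 2).symm,
          PowerSeries.coeff_C_mul]
      rw [h2] at h1
      have h3 : (sphere 2 4 n : ZMod 4) = (((sphere 2 4 n : ℕ) : ℤ) : ZMod 4) := by
        rw [Int.cast_natCast]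
      rw [h3, h1, bar0, PowerSeries.coeff_map]
      by_cases hn : n = 0
      · rw [if_pos hn]
        exact (half4_odd _).symm
      · rw [if_neg hn, zero_add]
        exact (half4_even _).symm
    rintro f ⟨k, r, hr, hf⟩
    refine ⟨fun n => (sphere 2 4 (2 ^ k * n + r) : ZMod 4), ⟨k, r, hr, fun _ => rfl⟩, ?_⟩
    funext n
    rw [hf]
    exact (hval _).symm
  refine ⟨?_, ?_, hker⟩
  · intro halg
    refine hna (hRE _ S₁ hS ?_)
    have : PowerSeries.map (Int.castRingHom ℚ) (PowerSeries.mk fun n => (sphere 2 4 n : ℤ)) =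
        PowerSeries.mk fun n => (sphere 2 4 n : ℚ) := by
      ext n
      simp
    rw [this]
    exact halg
  · intro d F hF
    by_contra hcon
    push Not at hcon
    refine hker ?_
    have h := hDIA d F hF
    have h2 : (fun n => ((diag F n : ℤ) : ZMod 4)) = fun n => (sphere 2 4 n : ZMod 4) := by
      funext n
      rw [hcon n, Int.cast_natCast]
    rw [h2] at h
    exact h

end Pool.Agent.Lib.MPba1bba.TR
end
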