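import Pool.Agent.Lib.MP_ba1bba_al.TR.Spec

/-!
# Module HG: the values of the Mahler function at `z ^ (5 * 2 ^ k)`
-/

namespace Pool.Agent.Lib.MPba1bba.TR

open Polynomial

namespace HGM

instance charS2 : CharP S2 2 :=
  charP_of_injective_ringHom (f := (PowerSeries.C : ZMod 2 →+* S2)) PowerSeries.C_injective 2

instance charSS2 : CharP (PowerSeries S2) 2 :=
  charP_of_injective_ringHom (f := (PowerSeries.C : S2 →+* PowerSeries S2))
    PowerSeries.C_injective 2

theorem coeff_ev (n m : ℕ) (F : PowerSeries S2) : PowerSeries.coeff m (ev n F) =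
    ∑ j ∈ Finset.range (m + 1),
      if n * j ≤ m then PowerSeries.coeff (m - n * j) (PowerSeries.coeff j F) else 0 := by
  simp [ev]

theorem coeff_ev_big {n : ℕ} (hn : 1 ≤ n) (m N : ℕ) (hN : m + 1 ≤ N) (F : PowerSeries S2) :
    PowerSeries.coeff m (ev n F) = ∑ j ∈ Finset.range N,
      if n * j ≤ m then PowerSeries.coeff (m - n * j) (PowerSeries.coeff j F) else 0 := by
  rw [coeff_ev]
  refine Finset.sum_subset (fun x hx => ?_) fun j _ hj => ?_
  · rw [Finset.mem_range] at hx ⊢
    omega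
  · rw [Finset.mem_range, not_lt] at hj
    rw [if_neg]
    have : 1 * j ≤ n * j := Nat.mul_le_mul_right j hn
    omega

/-- `G(y²)` at `y = z^n`. -/
theorem ev_expand {n : ℕ} (hn : 1 ≤ n) (g : ℕ → S2) :
    ev n (PowerSeries.mk fun j => if Even j then g (j / 2) else 0) =
      ev (2 * n) (PowerSeries.mk g) := by
  ext m
  rw [coeff_ev_big hn m (2 * m + 1) (by omega), coeff_ev]
  symm
  refine Finset.sum_of_injOn (fun i => 2 * i) ?_ ?_ ?_ ?_
  · intro a _ b _ h
    simp only at h
    omega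
  · intro i hi
    rw [Finset.mem_coe, Finset.mem_range] at hi
    simp only [Finset.coe_range, Set.mem_Iio]
    omega
  · intro j hj hj'
    rw [PowerSeries.coeff_mk]
    by_cases he : Even j
    · obtain ⟨i, rfl⟩ := he
      exfalso
      refine hj' ⟨i, ?_, ?_⟩
      · rw [Finset.mem_range] at hj
        simp only [Finset.coe_range, Set.mem_Iio]
        omega
      · change 2 * i = i + i
        omega
    · rw [if_neg he, map_zero, ite_self]
  · intro i _
    rw [PowerSeries.coeff_mk, PowerSeries.coeff_mk, if_pos (even_two_mul i),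
      Nat.mul_div_cancel_left i (by norm_num)]
    have : n * (2 * i) = 2 * n * i := by ring
    rw [this]

/-- First functional equation. -/
theorem fe1 (μ : ℕ → S2) (h : Rec μ) :
    (PowerSeries.X + PowerSeries.C (zz ^ 5 : S2)) *
      (PowerSeries.mk (fun i => μ (2 * i)) + PowerSeries.C (μ 0)) =
    PowerSeries.C (zz : S2) * (PowerSeries.X * ((1 + PowerSeries.X) * PowerSeries.mk μ + 1)) := by
  obtain ⟨h1, h2, h3⟩ := h
  have e : ∀ f : PowerSeries S2, (1 + PowerSeries.X) * f = f + PowerSeries.X * f := fun f => by ring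
  ext1 i
  rw [add_mul, map_add, PowerSeries.coeff_C_mul, PowerSeries.coeff_C_mul, e]
  rcases i with _ | i
  · rw [PowerSeries.coeff_zero_X_mul, PowerSeries.coeff_zero_X_mul, map_add, PowerSeries.coeff_mk,
      PowerSeries.coeff_C, if_pos rfl]
    rw [mul_zero, zero_add, mul_zero, CharTwo.add_self_eq_zero, mul_zero]
  · rw [PowerSeries.coeff_succ_X_mul, PowerSeries.coeff_succ_X_mul, map_add, map_add, map_add,
      map_add, PowerSeries.coeff_mk, PowerSeries.coeff_mk, PowerSeries.coeff_mk,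
      PowerSeries.coeff_C, PowerSeries.coeff_C, if_neg (Nat.succ_ne_zero i), add_zero]
    rcases i with _ | i
    · rw [if_pos rfl, mul_zero, CharTwo.add_self_eq_zero, zero_add,
        PowerSeries.coeff_zero_X_mul, add_zero, PowerSeries.coeff_one, if_pos rfl, zero_add,
        mul_one, ← h1]
      ring
    · rw [if_neg (Nat.succ_ne_zero i), add_zero, PowerSeries.coeff_succ_X_mul,
        PowerSeries.coeff_one, if_neg (Nat.succ_ne_zero i), add_zero, PowerSeries.coeff_mk]
      have := h3 (i + 1) (by omega)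
      rw [Nat.add_sub_cancel] at this
      rw [← this]
      have e2 : 2 * (i + 1 + 1) = 2 * (i + 1) + 2 := by ring
      rw [e2]

/-- Second functional equation. -/
theorem fe2 (μ : ℕ → S2) (h : Rec μ) :
    PowerSeries.X * (PowerSeries.mk μ + PowerSeries.C (μ 0)) =
      (PowerSeries.X + PowerSeries.C (zz : S2)) *
      (PowerSeries.mk (fun j => if Even j then μ (2 * (j / 2)) else 0) + PowerSeries.C (μ 0)) := by
  obtain ⟨h1, h2, h3⟩ := h
  ext1 i
  rw [add_mul, map_add, PowerSeries.coeff_C_mul]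
  rcases i with _ | i
  · rw [PowerSeries.coeff_zero_X_mul, PowerSeries.coeff_zero_X_mul, map_add, PowerSeries.coeff_mk,
      PowerSeries.coeff_C, if_pos rfl, if_pos (by decide)]
    rw [zero_add, CharTwo.add_self_eq_zero, mul_zero]
  · rw [PowerSeries.coeff_succ_X_mul, PowerSeries.coeff_succ_X_mul, map_add, map_add, map_add,
      PowerSeries.coeff_mk, PowerSeries.coeff_mk, PowerSeries.coeff_mk,
      PowerSeries.coeff_C, PowerSeries.coeff_C, if_neg (Nat.succ_ne_zero i), add_zero]
    rcases Nat.even_or_odd i with he | ho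
    · have e1 : (if Even i then μ (2 * (i / 2)) else 0) = μ i := by
        rw [if_pos he, Nat.two_mul_div_two_of_even he]
      have e2 : (if Even (i + 1) then μ (2 * ((i + 1) / 2)) else 0) = 0 :=
        if_neg (by rw [Nat.not_even_iff_odd]; exact he.add_one)
      rw [e1, e2, mul_zero, add_zero]
    · have e1 : (if Even i then μ (2 * (i / 2)) else 0) = 0 :=
        if_neg (by rwa [Nat.not_even_iff_odd])
      have e2 : (if Even (i + 1) then μ (2 * ((i + 1) / 2)) else 0) =
          μ (2 * ((i + 1) / 2)) := if_pos ho.add_one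
      rw [e1, e2]
      obtain ⟨l, rfl⟩ := ho
      have h4 := h2 (l + 1) (by omega)
      have e3 : 2 * (l + 1) - 1 = 2 * l + 1 := by omega
      have e4 : 2 * ((2 * l + 1 + 1) / 2) = 2 * (l + 1) := by omega
      rw [e3] at h4
      rw [e4, h4, if_neg (by omega)]
      ring

/-- The values. -/
noncomputable def v (k : ℕ) : S2 := zz ^ (5 * 2 ^ k)

theorem step (hE : SpecEC) (μ : ℕ → S2) (h : Rec μ) (k : ℕ) :
    zz * v k * (v k + zz) * ((1 + v (k + 1)) * ev (5 * 2 ^ (k + 1)) (PowerSeries.mk μ) + 1) =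
      (v (k + 1) + zz ^ 5) * (ev (5 * 2 ^ k) (PowerSeries.mk μ) + μ 0) := by
  have hp : 1 ≤ 2 ^ k := Nat.one_le_two_pow
  have hp2 : 1 ≤ 2 ^ (k + 1) := Nat.one_le_two_pow
  obtain ⟨hm, hC, hX, -, -⟩ := hE.1 (5 * 2 ^ k) (by omega)
  obtain ⟨hm', hC', hX', -, -⟩ := hE.1 (5 * 2 ^ (k + 1)) (by omega)
  have a1 := congrArg (ev (5 * 2 ^ (k + 1))) (fe1 μ h)
  have a2 := congrArg (ev (5 * 2 ^ k)) (fe2 μ h)
  have one' : ev (5 * 2 ^ (k + 1)) 1 = 1 := by
    have := hC' 1
    rwa [map_one] at this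
  rw [(hm' _ _).2, (hm' _ _).1, (hm' _ _).1, (hm' _ _).2, (hm' _ _).2, (hm' _ _).1, (hm' _ _).2,
    (hm' _ _).1, hC', hC', hC', hX', one'] at a1
  rw [(hm _ _).2, (hm _ _).1, (hm _ _).2, (hm _ _).1, (hm _ _).1, hC, hC, hX,
    ev_expand (by omega) (fun i => μ (2 * i))] at a2
  have e : 2 * (5 * 2 ^ k) = 5 * 2 ^ (k + 1) := by ring
  rw [e] at a2
  change (v (k + 1) + zz ^ 5) * _ = zz * (v (k + 1) * ((1 + v (k + 1)) * _ + 1)) at a1
  change v k * _ = (v k + zz) * _ at a2
  have hv : v (k + 1) = v k * v k := by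
    unfold v
    rw [← pow_add]
    congr 1
    ring
  have hne : v k ≠ 0 := pow_ne_zero _ PowerSeries.X_ne_zero
  refine mul_left_cancel₀ hne ?_
  rw [hv] at a1 ⊢
  linear_combination (-(v k + zz)) * a1 - (v k * v k + zz ^ 5) * a2

theorem base (hE : SpecEC) (μ : ℕ → S2) (h : Rec μ) :
    (1 + zz ^ 5) * ev 5 (PowerSeries.mk μ) = 1 := by
  obtain ⟨hm, hC, hX, -, -⟩ := hE.1 5 (by omega)
  have a1 := congrArg (ev 5) (fe1 μ h)
  have one' : ev 5 1 = 1 := by
    have := hC 1
    rwa [map_one] at this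
  rw [(hm _ _).2, (hm _ _).1, (hm _ _).1, (hm _ _).2, (hm _ _).2, (hm _ _).1, (hm _ _).2,
    (hm _ _).1, hC, hC, hC, hX, one', CharTwo.add_self_eq_zero, zero_mul] at a1
  have hz : (PowerSeries.X : S2) ≠ 0 := PowerSeries.X_ne_zero
  have h2 : (1 + zz ^ 5) * ev 5 (PowerSeries.mk μ) + 1 = 0 := by
    rcases mul_eq_zero.1 a1.symm with h | h
    · exact absurd h hz
    · rcases mul_eq_zero.1 h with h | h
      · exact absurd h (pow_ne_zero _ hz)
      · exact h
  exact (CharTwo.add_eq_zero).1 h2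

theorem map_X : algebraMap P2 S2 X = (PowerSeries.X : S2) := by
  simp [PowerSeries.algebraMap_apply']

theorem deg_v (k : ℕ) : (X ^ (5 * 2 ^ k) : P2).natDegree = 5 * 2 ^ k := natDegree_X_pow _

theorem one_add_ne (a : ℕ) (ha : 0 < a) : (1 + X ^ a : P2) ≠ 0 := by
  intro h
  have := congrArg (fun p => p.coeff 0) h
  simp only [coeff_add, coeff_one_zero, coeff_X_pow, coeff_zero] at this
  rw [if_neg (by omega), add_zero] at this
  exact one_ne_zero this

theorem add_X_ne (a : ℕ) (ha : 1 < a) : (X ^ a + X : P2) ≠ 0 := by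
  intro h
  have := congrArg (fun p => p.coeff 1) h
  simp only [coeff_add, coeff_X_one, coeff_X_pow, coeff_zero] at this
  rw [if_neg (by omega), zero_add] at this
  exact one_ne_zero this

theorem exists_abc (hE : SpecEC) (μ : ℕ → S2) (h : Rec μ) (k : ℕ) : ∃ a b c : P2, c ≠ 0 ∧
    a.natDegree ≤ 20 * 2 ^ k + k ∧ b.natDegree ≤ 20 * 2 ^ k + k ∧
    c.natDegree ≤ 20 * 2 ^ k + k ∧
    algebraMap P2 S2 c * ev (5 * 2 ^ k) (PowerSeries.mk μ) =
      algebraMap P2 S2 a * μ 0 + algebraMap P2 S2 b := by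
  induction k with
  | zero =>
    refine ⟨0, 1, 1 + X ^ 5, one_add_ne 5 (by norm_num), by simp, by simp, ?_, ?_⟩
    · refine (natDegree_add_le _ _).trans ?_
      rw [natDegree_one, natDegree_X_pow]
      norm_num
    · rw [map_zero, map_one, zero_mul, zero_add, map_add, map_one, map_pow, map_X]
      exact base hE μ h
  | succ k ih =>
    obtain ⟨a, b, c, hc, ha', hb', hc', heq⟩ := ih
    have hp : 1 ≤ 2 ^ k := Nat.one_le_two_pow
    have hs : 2 ^ (k + 1) = 2 * 2 ^ k := by ring
    refine ⟨(X ^ (5 * 2 ^ (k + 1)) + X ^ 5) * (a + c),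
      (X ^ (5 * 2 ^ (k + 1)) + X ^ 5) * b + c * (X * X ^ (5 * 2 ^ k) * (X ^ (5 * 2 ^ k) + X)),
      c * (X * X ^ (5 * 2 ^ k) * (X ^ (5 * 2 ^ k) + X) * (1 + X ^ (5 * 2 ^ (k + 1)))),
      ?_, ?_, ?_, ?_, ?_⟩
    · refine mul_ne_zero hc (mul_ne_zero (mul_ne_zero (mul_ne_zero X_ne_zero
        (pow_ne_zero _ X_ne_zero)) (add_X_ne _ (by omega))) (one_add_ne _ (by omega)))
    · refine natDegree_mul_le.trans ?_
      have h1 : (X ^ (5 * 2 ^ (k + 1)) + X ^ 5 : P2).natDegree ≤ 5 * 2 ^ (k + 1) := by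
        refine (natDegree_add_le _ _).trans (max_le ?_ ?_)
        · rw [natDegree_X_pow]
        · rw [natDegree_X_pow]; omega
      have h2 : (a + c).natDegree ≤ 20 * 2 ^ k + k := (natDegree_add_le _ _).trans (max_le ha' hc')
      omega
    · refine (natDegree_add_le _ _).trans (max_le ?_ ?_)
      · refine natDegree_mul_le.trans ?_
        have h1 : (X ^ (5 * 2 ^ (k + 1)) + X ^ 5 : P2).natDegree ≤ 5 * 2 ^ (k + 1) := by
          refine (natDegree_add_le _ _).trans (max_le ?_ ?_)
          · rw [natDegree_X_pow]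
          · rw [natDegree_X_pow]; omega
        omega
      · refine natDegree_mul_le.trans ?_
        have h1 : (X * X ^ (5 * 2 ^ k) * (X ^ (5 * 2 ^ k) + X) : P2).natDegree ≤
            1 + 5 * 2 ^ k + 5 * 2 ^ k := by
          refine natDegree_mul_le.trans (add_le_add (natDegree_mul_le.trans ?_)
            ((natDegree_add_le _ _).trans (max_le ?_ ?_)))
          · rw [natDegree_X, natDegree_X_pow]
          · rw [natDegree_X_pow]
          · rw [natDegree_X]; omega
        omega
    · refine natDegree_mul_le.trans ?_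
      have h1 : (X * X ^ (5 * 2 ^ k) * (X ^ (5 * 2 ^ k) + X) * (1 + X ^ (5 * 2 ^ (k + 1))) :
          P2).natDegree ≤ 1 + 5 * 2 ^ k + 5 * 2 ^ k + 5 * 2 ^ (k + 1) := by
        refine natDegree_mul_le.trans (add_le_add (natDegree_mul_le.trans
          (add_le_add (natDegree_mul_le.trans ?_)
          ((natDegree_add_le _ _).trans (max_le ?_ ?_)))) ((natDegree_add_le _ _).trans
          (max_le ?_ ?_)))
        · rw [natDegree_X, natDegree_X_pow]
        · rw [natDegree_X_pow]
        · rw [natDegree_X]; omega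
        · rw [natDegree_one]; omega
        · rw [natDegree_X_pow]
      omega
    · have hst := step hE μ h k
      simp only [map_mul, map_add, map_pow, map_one, map_X]
      change algebraMap P2 S2 c * (zz * v k * (v k + zz) * (1 + v (k + 1))) * _ =
        (v (k + 1) + zz ^ 5) * (algebraMap P2 S2 a + algebraMap P2 S2 c) * μ 0 +
        ((v (k + 1) + zz ^ 5) * algebraMap P2 S2 b + algebraMap P2 S2 c *
          (zz * v k * (v k + zz)))
      have two : (2 : S2) = 0 := CharTwo.two_eq_zero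
      linear_combination algebraMap P2 S2 c * hst + (v (k + 1) + zz ^ 5) * heq -
        (algebraMap P2 S2 c * (zz * v k * (v k + zz))) * two

end HGM

theorem specHG (hE : SpecEC) : SpecHG := by
  intro μ h
  choose α β γ hc ha hb hg heq using HGM.exists_abc hE μ h
  refine ⟨α, β, γ, fun k => ⟨hc k, ?_, ?_, ?_, heq k⟩⟩
  all_goals
    have hk : k < 2 ^ k := Nat.lt_two_pow_self
    have h1 := ha k
    have h2 := hb k
    have h3 := hg k
    omega

end Pool.Agent.Lib.MPba1bba.TR
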