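import Pool.Agent.Lib.MP_ba1bba_al.TR.Spec
import Pool.Agent.Lib.MP_ba1bba_al.SAM
import Pool.Agent.Lib.MP_ba1bba_al.TR.Zer
import Pool.Agent.Lib.MP_ba1bba_al.AS.GFI
import Pool.Agent.Lib.MP_ba1bba_al.TR.RE
import Pool.Agent.Lib.MP_ba1bba_al.TR.KA
import Pool.Agent.Lib.MP_ba1bba_al.TR.EC
import Pool.Agent.Lib.MP_ba1bba_al.TR.HG
import Pool.Agent.Lib.MP_ba1bba_al.TR.FIN2
import Pool.Agent.Lib.MP_ba1bba_al.TR.AUT

section
/-!
# ZS: transport of the system to `ℤ[u]⟦z⟧`
-/
set_option autoImplicit false

namespace Pool.Agent.Lib.MPba1bba.TR.ZSM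

open Polynomial Finset
open Pool.Agent.Lib.MPba1bba
open Pool.Agent.Lib.MPba1bba.LINM

/-- `u ↦ {0}` -/
noncomputable def io : ℤ[X] →+* SR :=
  Polynomial.eval₂RingHom (Int.castRingHom SR) (AddMonoidAlgebra.single ({0} : Multiset ℤ) (1 : ℤ))

theorem single_pow' (v : ℕ) : (AddMonoidAlgebra.single ({0} : Multiset ℤ) (1 : ℤ) : SR) ^ v =
    AddMonoidAlgebra.single (Multiset.replicate v 0) (1 : ℤ) := by
  rw [AddMonoidAlgebra.single_pow, one_pow, Multiset.nsmul_singleton]

theorem int_mul_single (a : ℤ) (s : Multiset ℤ) :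
    (a : SR) * AddMonoidAlgebra.single s (1 : ℤ) = AddMonoidAlgebra.single s a := by
  rw [← zsmul_eq_mul, AddMonoidAlgebra.smul_single, smul_eq_mul, mul_one]

theorem io_monomial (v : ℕ) (a : ℤ) :
    io (Polynomial.monomial v a) = AddMonoidAlgebra.single (Multiset.replicate v 0) a := by
  rw [io, Polynomial.coe_eval₂RingHom, Polynomial.eval₂_monomial, single_pow']
  exact int_mul_single a _

theorem io_X : io X = AddMonoidAlgebra.single ({0} : Multiset ℤ) (1 : ℤ) := by
  rw [io, Polynomial.coe_eval₂RingHom, Polynomial.eval₂_X]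

theorem io_X_pow (v : ℕ) : io (X ^ v) =
    AddMonoidAlgebra.single (Multiset.replicate v 0) (1 : ℤ) := by
  rw [map_pow, io_X, single_pow']

theorem replicate_inj {v n : ℕ} (h : Multiset.replicate n (0 : ℤ) = Multiset.replicate v 0) :
    n = v := by
  have := congrArg Multiset.card h
  simpa using this

theorem coeff_io (p : ℤ[X]) (v : ℕ) : (io p).coeff (Multiset.replicate v 0) = p.coeff v := by
  induction p using Polynomial.induction_on' with
  | add p q hp hq =>
    rw [map_add, AddMonoidAlgebra.coeff_add, Finsupp.add_apply, hp, hq, Polynomial.coeff_add]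
  | monomial n a =>
    rw [io_monomial, AddMonoidAlgebra.coeff_single, Polynomial.coeff_monomial,
      Finsupp.single_apply]
    by_cases h : n = v
    · subst h
      simp
    · rw [if_neg (fun hh => h (replicate_inj hh)), if_neg h]

theorem io_inj : Function.Injective io := by
  intro p q h
  ext v
  rw [← coeff_io, ← coeff_io, h]

/-- transport of series -/
noncomputable def jj : PowerSeries ℤ[X] →+* Ser := PowerSeries.map io

theorem coeff_jj (F : PowerSeries ℤ[X]) (n : ℕ) :
    PowerSeries.coeff n (jj F) = io (PowerSeries.coeff n F) := PowerSeries.coeff_map _ _ _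

theorem jj_inj : Function.Injective jj := by
  intro F G h
  ext n : 1
  apply io_inj
  rw [← coeff_jj, ← coeff_jj, h]

/-! ### the section operator -/

theorem lm_add (p q : ℤ[X]) : lm (p + q) = lm p + lm q := by
  unfold lm
  rw [Polynomial.sum_add_index]
  · intro v
    rw [C_0, zero_mul]
  · intro v a b
    rw [C_add, add_mul]

theorem lm_monomial (v : ℕ) (a : ℤ) : lm (Polynomial.monomial v a) =
    C a * (if v = 0 then 1 else X ^ (v / 2) + X ^ ((v - 1) / 2)) := by
  unfold lm
  rw [Polynomial.sum_monomial_index]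
  rw [C_0, zero_mul]

theorem coeff_lamB (hLZ : SpecLZ) (v b : ℕ) :
    PowerSeries.coeff b (lamB 2 2 (Multiset.replicate v 0)) =
      (if b = 0 then io (if v = 0 then 1 else X ^ (v / 2) + X ^ ((v - 1) / 2)) else 0) +
      (if b = 2 then (if v = 0 then io X else 0) else 0) := by
  rcases Nat.eq_zero_or_pos v with h | h
  · subst h
    rw [Multiset.replicate_zero, hLZ.1, map_add, PowerSeries.coeff_monomial,
      PowerSeries.coeff_monomial, if_pos rfl, if_pos rfl, map_one, io_X]
    rfl
  · have hv : v ≠ 0 := Nat.pos_iff_ne_zero.1 h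
    rw [hLZ.2.1 v h, map_add, PowerSeries.coeff_monomial, PowerSeries.coeff_monomial, if_neg hv,
      if_neg hv, map_add, io_X_pow, io_X_pow]
    split_ifs <;> simp

theorem lc_io (hLZ : SpecLZ) (b : ℕ) (p : ℤ[X]) :
    lc 2 2 b (io p) = (if b = 0 then io (lm p) else 0) +
      (if b = 2 then io (X * C (p.coeff 0)) else 0) := by
  induction p using Polynomial.induction_on' with
  | add p q hp hq =>
    rw [map_add, lc_add, hp, hq, lm_add, Polynomial.coeff_add, C_add, mul_add, map_add, map_add]
    split_ifs <;> ring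
  | monomial v a =>
    rw [io_monomial, lc_single, coeff_lamB hLZ, lm_monomial, Polynomial.coeff_monomial]
    have e : ∀ x : SR, a • x = io (C a) * x := by
      intro x
      rw [zsmul_eq_mul]
      congr 1
      rw [io, Polynomial.coe_eval₂RingHom, Polynomial.eval₂_C]
      rfl
    rw [smul_add, e, e]
    by_cases hv : v = 0
    · simp only [hv, if_true]
      split_ifs <;> simp [mul_comm]
    · simp only [if_neg hv]
      split_ifs <;> simp

theorem coeff_LM (F : PowerSeries ℤ[X]) (n : ℕ) :
    PowerSeries.coeff n (LM F) = lm (PowerSeries.coeff n F) +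
      if 2 ≤ n then X * C ((PowerSeries.coeff (n - 2) F).coeff 0) else 0 := by
  rw [LM, map_add, PowerSeries.coeff_mk, mul_assoc, zz, PowerSeries.coeff_X_pow_mul']
  congr 1
  split_ifs with h
  · rw [uu, PowerSeries.coeff_C_mul, up, PowerSeries.coeff_map, ev0, PowerSeries.coeff_mk]
  · rfl

theorem lam_jj (hLZ : SpecLZ) (F : PowerSeries ℤ[X]) : lam 2 2 (jj F) = jj (LM F) := by
  ext n : 1
  rw [coeff_lam, coeff_jj, coeff_LM, map_add]
  have h : ∀ ij : ℕ × ℕ, lc 2 2 ij.2 (PowerSeries.coeff ij.1 (jj F)) =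
      (if ij.2 = 0 then io (lm (PowerSeries.coeff ij.1 F)) else 0) +
      (if ij.2 = 2 then io (X * C ((PowerSeries.coeff ij.1 F).coeff 0)) else 0) := by
    intro ij
    rw [coeff_jj, lc_io hLZ]
  rw [Finset.sum_congr rfl fun ij _ => h ij, Finset.sum_add_distrib]
  congr 1
  · rw [Finset.sum_eq_single (n, 0)]
    · rw [if_pos rfl]
    · intro ij hij hne
      have hij' := Finset.HasAntidiagonal.mem_antidiagonal.1 hij
      rw [if_neg]
      intro h0
      exact hne (Prod.ext (by simp only; omega) h0)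
    · intro hnot
      exfalso
      apply hnot
      rw [Finset.HasAntidiagonal.mem_antidiagonal]
      simp
  · split_ifs with h2
    · rw [Finset.sum_eq_single (n - 2, 2)]
      · rw [if_pos rfl]
      · intro ij hij hne
        have hij' := Finset.HasAntidiagonal.mem_antidiagonal.1 hij
        rw [if_neg]
        intro h0
        exact hne (Prod.ext (by simp only; omega) h0)
      · intro hnot
        exfalso
        apply hnot
        rw [Finset.HasAntidiagonal.mem_antidiagonal]
        simp only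
        omega
    · rw [map_zero]
      refine Finset.sum_eq_zero fun ij hij => ?_
      have hij' := Finset.HasAntidiagonal.mem_antidiagonal.1 hij
      rw [if_neg]
      omega

/-! ### the coefficients of the solution are in the range of `io` -/

/-- the coefficients of degree `< n` are in the range -/
def Zn (n : ℕ) (F : Ser) : Prop := ∀ m < n, PowerSeries.coeff m F ∈ io.range

theorem Zn.add {n : ℕ} {F G : Ser} (hF : Zn n F) (hG : Zn n G) : Zn n (F + G) := by
  intro m hm
  rw [map_add]
  exact add_mem (hF m hm) (hG m hm)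

theorem Zn.sub {n : ℕ} {F G : Ser} (hF : Zn n F) (hG : Zn n G) : Zn n (F - G) := by
  intro m hm
  rw [map_sub]
  exact sub_mem (hF m hm) (hG m hm)

theorem Zn.mul {n : ℕ} {F G : Ser} (hF : Zn n F) (hG : Zn n G) : Zn n (F * G) := by
  intro m hm
  rw [PowerSeries.coeff_mul]
  refine sum_mem fun ij hij => ?_
  have hij' := Finset.HasAntidiagonal.mem_antidiagonal.1 hij
  exact mul_mem (hF _ (by omega)) (hG _ (by omega))

theorem Zn.one (n : ℕ) : Zn n (1 : Ser) := by
  intro m _
  rw [PowerSeries.coeff_one]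
  split_ifs
  · exact one_mem _
  · exact zero_mem _

theorem Zn.pow {n : ℕ} {F : Ser} (hF : Zn n F) (k : ℕ) : Zn n (F ^ k) := by
  induction k with
  | zero =>
    rw [pow_zero]
    exact Zn.one n
  | succ k ih =>
    rw [pow_succ]
    exact ih.mul hF

theorem Zn.lam (hLZ : SpecLZ) {n : ℕ} {F : Ser} (hF : Zn n F) : Zn n (lam 2 2 F) := by
  intro m hm
  rw [coeff_lam]
  refine sum_mem fun ij hij => ?_
  have hij' := Finset.HasAntidiagonal.mem_antidiagonal.1 hij
  obtain ⟨p, hp⟩ := hF ij.1 (by omega)
  rw [← hp, lc_io hLZ]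
  refine add_mem ?_ ?_
  · split_ifs
    · exact ⟨_, rfl⟩
    · exact zero_mem _
  · split_ifs
    · exact ⟨_, rfl⟩
    · exact zero_mem _

theorem Zn.X_mul {n : ℕ} {F : Ser} (hF : Zn n F) : Zn (n + 1) (PowerSeries.X * F) := by
  intro m hm
  rcases m with _ | m
  · rw [PowerSeries.coeff_zero_X_mul]
    exact zero_mem _
  · rw [PowerSeries.coeff_succ_X_mul]
    exact hF m (by omega)

theorem Zn.mono {n m : ℕ} (h : m ≤ n) {F : Ser} (hF : Zn n F) : Zn m F :=
  fun l hl => hF l (by omega)

theorem serY_eq (hLZ : SpecLZ) : serY 2 = PowerSeries.X * PowerSeries.C (io X) := by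
  rw [hLZ.2.2, io_X]
  ext n : 1
  rw [PowerSeries.coeff_monomial]
  rcases n with _ | n
  · rw [PowerSeries.coeff_zero_X_mul]
    simp
  · rw [PowerSeries.coeff_succ_X_mul, PowerSeries.coeff_C]
    by_cases h : n = 0
    · subst h
      simp
    · rw [if_neg h, if_neg (by omega)]

theorem Zn_C (n : ℕ) (p : ℤ[X]) : Zn n (PowerSeries.C (io p) : Ser) := by
  intro m _
  rw [PowerSeries.coeff_C]
  split_ifs
  · exact ⟨p, rfl⟩
  · exact zero_mem _

theorem range_all (hLZ : SpecLZ) {Q E H : Ser} (h : Sys 2 2 Q E H) (n : ℕ) :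
    Zn n Q ∧ Zn n E ∧ Zn n H := by
  induction n with
  | zero => exact ⟨fun m hm => absurd hm (by omega), fun m hm => absurd hm (by omega),
      fun m hm => absurd hm (by omega)⟩
  | succ n ih =>
    obtain ⟨hQ, hE, hH⟩ := ih
    obtain ⟨eQ, eE, eH⟩ := h
    have h1 := Zn.one n
    refine ⟨?_, ?_, ?_⟩
    · rw [eQ, serY_eq hLZ]
      refine Zn.add ?_ ?_
      · exact Zn.X_mul (Zn_C n X)
      · rw [mul_assoc, mul_assoc]
        exact Zn.X_mul ((Zn_C n X).mul (hE.mul hQ))
    · rw [eE, _root_.pow_two, mul_assoc]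
      refine (Zn.X_mul (Zn.X_mul (Zn.sub (Zn.lam hLZ ?_) h1))).mono (by omega)
      exact (h1.add hE).add (hQ.mul ((h1.add hE).pow 2))
    · rw [eH]
      refine Zn.X_mul (Zn.lam hLZ ?_)
      exact (h1.add (hQ.mul (h1.add hE))).mul ((h1.add hE).add hH)

theorem exists_lift {F : Ser} (h : ∀ n, Zn n F) : ∃ F', jj F' = F := by
  have h1 : ∀ n, ∃ p, io p = PowerSeries.coeff n F := fun n => h (n + 1) n (by omega)
  choose p hp using h1
  refine ⟨PowerSeries.mk p, ?_⟩
  ext n : 1
  rw [coeff_jj, PowerSeries.coeff_mk, hp]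

/-! ### the functional `psi` -/

theorem sum_io (f : Multiset ℤ → ℤ) (p : ℤ[X]) : ((io p).coeff.sum fun s a => a * f s) =
    p.sum fun v a => a * f (Multiset.replicate v 0) := by
  induction p using Polynomial.induction_on' with
  | add p q hp hq =>
    rw [map_add, AddMonoidAlgebra.coeff_add, Finsupp.sum_add_index', hp, hq,
      Polynomial.sum_add_index]
    · intro v
      rw [zero_mul]
    · intro v a b
      rw [add_mul]
    · intro s
      rw [zero_mul]
    · intro s a b
      rw [add_mul]
  | monomial v a =>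
    rw [io_monomial, AddMonoidAlgebra.coeff_single, Finsupp.sum_single_index,
      Polynomial.sum_monomial_index]
    · rw [zero_mul]
    · rw [zero_mul]

theorem psi_jj (F : PowerSeries ℤ[X]) : psi 2 2 (jj F) =
    psi2 (fun v => PowerSeries.mk fun n => (pcoef 2 2 (Multiset.replicate v 0) n : ℤ)) F := by
  ext n
  rw [psi, psi2, PowerSeries.coeff_mk, PowerSeries.coeff_mk]
  refine Finset.sum_congr rfl fun ij _ => ?_
  rw [coeff_jj, sum_io (fun s => (pcoef 2 2 s ij.2 : ℤ))]
  simp only [PowerSeries.coeff_mk]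

end Pool.Agent.Lib.MPba1bba.TR.ZSM

namespace Pool.Agent.Lib.MPba1bba.TR

open ZSM in
theorem specZS (hLZ : SpecLZ) : SpecZS := by
  intro Q E H h
  obtain ⟨Q', rfl⟩ := exists_lift fun n => (range_all hLZ h n).1
  obtain ⟨E', rfl⟩ := exists_lift fun n => (range_all hLZ h n).2.1
  obtain ⟨H', rfl⟩ := exists_lift fun n => (range_all hLZ h n).2.2
  obtain ⟨eQ, eE, eH⟩ := h
  have hX : jj (zz : PowerSeries (Polynomial ℤ)) = PowerSeries.X := PowerSeries.map_X _
  have hu : jj (uu : PowerSeries (Polynomial ℤ)) = PowerSeries.C (io Polynomial.X) :=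
    PowerSeries.map_C _ _
  have hY : serY 2 = jj (zz * uu) := by
    rw [map_mul, hX, hu, serY_eq hLZ]
  refine ⟨Q', E', H', ⟨?_, ?_, ?_⟩, ?_⟩
  · apply jj_inj
    rw [map_add, map_mul _ _ Q', map_mul _ _ E', ← hY]
    exact eQ
  · apply jj_inj
    rw [map_mul, map_pow, hX, map_sub, ← lam_jj hLZ, map_add, map_add, map_mul, map_pow, map_add,
      map_one]
    exact eE
  · apply jj_inj
    rw [map_mul, hX, ← lam_jj hLZ, map_mul, map_add, map_mul, map_add, map_add, map_add, map_one]
    exact eH
  · rw [← psi_jj]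
    congr 1
    rw [FF2]
    simp only [map_add, map_mul, map_pow, map_one, map_ofNat]

end Pool.Agent.Lib.MPba1bba.TR
end

section
section
/-!
# LZ: the section operator for `p = m = 2`
-/
namespace Pool.Agent.Lib.MPba1bba.TR

theorem specLZ : SpecLZ := by
  refine ⟨?_, ?_, ?_⟩
  · have h := ZerM.lamB_zero
    rw [ZerM.zs_zero] at h
    rw [h, ZerM.mon_eq, ZerM.mon_eq, pow_zero, one_mul]
    rfl
  · intro v hv
    have h := ZerM.lamB_pos v hv
    have h' : lamB 2 2 (Multiset.replicate v 0) = lamB 2 2 (ZerM.zs v) := rfl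
    rw [h', h, ZerM.mon_eq, ZerM.mon_eq, pow_zero, one_mul, one_mul]
    rfl
  · unfold serY
    have : Finset.Ioo 0 2 = {1} := by decide
    rw [this, Finset.sum_singleton]
    norm_num

end Pool.Agent.Lib.MPba1bba.TR
end

section
/-!
# PV: the recursion of the series `P_v`
-/
namespace Pool.Agent.Lib.MPba1bba.TR

theorem specPV : SpecPV := ⟨ZerM.specPV'.1, fun v hv => ZerM.specPV'.2 v hv⟩

end Pool.Agent.Lib.MPba1bba.TR
end

section
/-!
# The growth series of `B(2,4)` is transcendental: main theorem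
-/
namespace Pool.Agent.Lib.MPba1bba.TR

/-- The growth series of `B(2,4)` is not algebraic over `ℚ(z)`. -/
theorem main : MainStatement := by
  have hEV := specEV
  have hBA := specBA
  have hEM := specEM specEV specBA specPA
  have hMA := specMA specEC (specHG specEC) (specIN specGR) specLI specRA
  exact fin Pool.Agent.Lib.MPba1bba.main (specZS specLZ) specPV (specMO hEV hBA hEM specKA) hEM
    specQU specRE specAL (specDU hEV) hMA

end Pool.Agent.Lib.MPba1bba.TR
end

section
/-!
# The growth series of `B(2,4)`: transcendence, diagonals, and the 2-kernel modulo 4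
-/
namespace Pool.Agent.Lib.MPba1bba.TR

/-- The growth series of `B(2,4)` is not algebraic over `ℚ(z)`, it is not the diagonal of a rational
power series with integral coefficients, and its coefficients modulo 4 have an infinite 2-kernel. -/
theorem main2 : Statement2 := by
  have hEV := specEV
  have hBA := specBA
  have hEM := specEM specEV specBA specPA
  have hMA := specMA specEC (specHG specEC) (specIN specGR) specLI specRA
  exact fin2 (core Pool.Agent.Lib.MPba1bba.main (specZS specLZ) specPV (specMO hEV hBA hEM specKA)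
    hEM specQU specAL (specDU hEV) hMA) specRE specAUT specDIA

end Pool.Agent.Lib.MPba1bba.TR
end

section
/-!
# The growth series of `B(2,4)` modulo 4
-/
namespace Pool.Agent.Lib.MPba1bba.TR

/-- The form of the theorem for the sequences congruent to the sphere sizes modulo 4. -/
def Statement3 : Prop := ∀ T : ℕ → ℤ,
  (IsAlgebraic (Polynomial ℚ) (PowerSeries.mk fun n => (T n : ℚ)) ∨
    (∃ (d : ℕ) (F : MvPowerSeries (Fin d) ℤ), IsRational F ∧ ∀ n, diag F n = T n) ∨
    (ker2 fun n => (T n : ZMod 4)).Finite) →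
  ∃ n, (T n : ZMod 4) ≠ (sphere 2 4 n : ZMod 4)

theorem fin3 (hcore : ∃ S₁ : PowerSeries ℤ,
      (PowerSeries.mk fun n => (sphere 2 4 n : ℤ)) = 1 + 2 * S₁ ∧ ¬ IsAlgebraic P2 (bar0 S₁))
    (hRE : SpecRE) (hDIA : SpecDIA) (hker : (ker2 fun n => (sphere 2 4 n : ZMod 4)).Infinite) :
    Statement3 := by
  intro T hT
  by_contra hcon
  push Not at hcon
  have hcon2 : (fun n => ((T n : ℤ) : ZMod 4)) = fun n => (sphere 2 4 n : ZMod 4) := funext hcon
  rcases hT with hT | ⟨d, F, hF, hFT⟩ | hT
  · obtain ⟨S₁, hS, hna⟩ := hcore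
    have h1 : ∀ n, ∃ c : ℤ, T n = (sphere 2 4 n : ℤ) + 4 * c := by
      intro n
      have h2 : ((T n : ℤ) : ZMod 4) = (((sphere 2 4 n : ℕ) : ℤ) : ZMod 4) := by
        rw [hcon n, Int.cast_natCast]
      rw [ZMod.intCast_eq_intCast_iff_dvd_sub] at h2
      obtain ⟨c, hc⟩ := h2
      refine ⟨-c, ?_⟩
      push_cast at hc
      linarith
    choose c hc using h1
    refine hna ?_
    have h3 : PowerSeries.mk T = 1 + 2 * (S₁ + 2 * PowerSeries.mk c) := by
      have h4 : (1 : PowerSeries ℤ) + 2 * (S₁ + 2 * PowerSeries.mk c) =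
          (1 + 2 * S₁) + 4 * PowerSeries.mk c := by ring
      rw [h4, ← hS]
      ext n
      rw [PowerSeries.coeff_mk, map_add, PowerSeries.coeff_mk,
        show (4 : PowerSeries ℤ) = PowerSeries.C 4 from (map_ofNat PowerSeries.C 4).symm,
        PowerSeries.coeff_C_mul, PowerSeries.coeff_mk, hc n]
    have h5 := hRE _ _ h3 (by
      have : PowerSeries.map (Int.castRingHom ℚ) (PowerSeries.mk T) =
          PowerSeries.mk fun n => (T n : ℚ) := by
        ext n
        simp
      rw [this]
      exact hT)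
    have h6 : bar0 (S₁ + 2 * PowerSeries.mk c) = bar0 S₁ := by
      have h7 : (PowerSeries.map (Int.castRingHom (ZMod 2))) (2 : PowerSeries ℤ) = 0 := by
        rw [show (2 : PowerSeries ℤ) = PowerSeries.C 2 from (map_ofNat PowerSeries.C 2).symm,
          PowerSeries.map_C]
        have : (Int.castRingHom (ZMod 2)) 2 = 0 := by decide
        rw [this, map_zero]
      rw [bar0, bar0, map_add, map_mul, h7, zero_mul, add_zero]
    rw [h6] at h5
    exact h5
  · refine hker ?_
    have h := hDIA d F hF
    have h2 : (fun n => ((diag F n : ℤ) : ZMod 4)) = fun n => (sphere 2 4 n : ZMod 4) := by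
      rw [← hcon2]
      funext n
      rw [hFT n]
    rw [h2] at h
    exact h
  · rw [hcon2] at hT
    exact hker hT

/-- No sequence that is algebraic, or a diagonal, or `2`-automatic modulo 4 is congruent modulo 4 to
the sphere sizes of `B(2,4)`. -/
theorem main3 : Statement3 := by
  have hEV := specEV
  have hBA := specBA
  have hEM := specEM specEV specBA specPA
  have hMA := specMA specEC (specHG specEC) (specIN specGR) specLI specRA
  exact fin3 (core Pool.Agent.Lib.MPba1bba.main (specZS specLZ) specPV (specMO hEV hBA hEM specKA)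
    hEM specQU specAL (specDU hEV) hMA) specRE specDIA main2.2.2

end Pool.Agent.Lib.MPba1bba.TR
end
end
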