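import Pool.Agent.Lib.MP_ba1bba_al.Defs

/-!
# The growth series of `B(2,4)` is transcendental: definitions

Everything below the first section is used in the proof only.
-/

namespace Pool.Agent.Lib.MPba1bba.TR

/-- The growth series of `B(p,q)` (with rational coefficients). -/
noncomputable def growthSeries (p q : ℕ) : PowerSeries ℚ :=
  PowerSeries.mk fun n => (sphere p q n : ℚ)

/-- The growth series of `B(2,4)` is not algebraic over `ℚ(z)`. -/
def MainStatement : Prop := Transcendental (Polynomial ℚ) (growthSeries 2 4)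

/-! ## Auxiliary definitions -/

open Polynomial

/-- The operator on polynomials in `u`: `1 ↦ 1`, `u ^ v ↦ u ^ ⌊v/2⌋ + u ^ ⌊(v-1)/2⌋` for `v > 0`. -/
noncomputable def lm {R : Type} [CommRing R] (p : R[X]) : R[X] :=
  p.sum fun v a => C a * (if v = 0 then 1 else X ^ (v / 2) + X ^ ((v - 1) / 2))

/-- Value at `u = 0`. -/
noncomputable def ev0 {R : Type} [CommRing R] (F : PowerSeries R[X]) : PowerSeries R :=
  PowerSeries.mk fun n => (PowerSeries.coeff n F).coeff 0

/-- Value at `u = 1`. -/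
noncomputable def ev1 {R : Type} [CommRing R] (F : PowerSeries R[X]) : PowerSeries R :=
  PowerSeries.mk fun n => (PowerSeries.coeff n F).eval 1

/-- Value of the derivative with respect to `u` at `u = 1`. -/
noncomputable def dv1 {R : Type} [CommRing R] (F : PowerSeries R[X]) : PowerSeries R :=
  PowerSeries.mk fun n => (derivative (PowerSeries.coeff n F)).eval 1

/-- The variable `u`. -/
noncomputable def uu {R : Type} [CommRing R] : PowerSeries R[X] := PowerSeries.C X

/-- The variable `z`. -/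
noncomputable abbrev zz {R : Type} [CommRing R] : PowerSeries R := PowerSeries.X

/-- A series in `z` as a series over `R[u]`. -/
noncomputable def up {R : Type} [CommRing R] (f : PowerSeries R) : PowerSeries R[X] :=
  PowerSeries.map (C : R →+* R[X]) f

/-- The section operator for `p = m = 2`: `1 ↦ 1 + z^2 u`, `u ^ v ↦ u ^ ⌊v/2⌋ + u ^ ⌊(v-1)/2⌋`. -/
noncomputable def LM {R : Type} [CommRing R] (F : PowerSeries R[X]) : PowerSeries R[X] :=
  PowerSeries.mk (fun n => lm (PowerSeries.coeff n F)) + zz ^ 2 * uu * up (ev0 F)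

/-- The system for `p = m = 2`. -/
def Sys2 (Q E H : PowerSeries ℤ[X]) : Prop :=
  Q = zz * uu + zz * uu * E * Q ∧
  E = zz ^ 2 * (LM (1 + E + Q * (1 + E) ^ 2) - 1) ∧
  H = zz * LM ((1 + Q * (1 + E)) * (1 + E + H))

/-- The series which is summed. -/
noncomputable def FF2 (Q E H : PowerSeries ℤ[X]) : PowerSeries ℤ[X] :=
  1 + E + 2 * H + Q * (1 + E + H) ^ 2

/-- The recursion of the series `P_v`. -/
def RecP (P : ℕ → PowerSeries ℤ) : Prop :=
  P 0 = zz ^ 2 * (P 0 + zz ^ 2 * P 1) + (1 - zz ^ 2) + 2 * (zz ^ 2 - zz ^ 4) ∧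
  ∀ v : ℕ, 1 ≤ v → P v = zz ^ 2 * (P (v / 2) + P ((v - 1) / 2)) + ((v : PowerSeries ℤ) + 1) *
    (1 - zz ^ 2) + 2 * (zz ^ 2 - zz ^ 4)

/-- `∑ F_v P_v`. -/
noncomputable def psi2 (P : ℕ → PowerSeries ℤ) (F : PowerSeries ℤ[X]) : PowerSeries ℤ :=
  PowerSeries.mk fun n => ∑ ij ∈ Finset.HasAntidiagonal.antidiagonal n,
    (PowerSeries.coeff ij.1 F).sum fun v a => a * PowerSeries.coeff ij.2 (P v)

/-- Reduction modulo `2` of a series over `ℤ[u]`. -/
noncomputable def bar (F : PowerSeries ℤ[X]) : PowerSeries (ZMod 2)[X] :=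
  PowerSeries.map (Polynomial.mapRingHom (Int.castRingHom (ZMod 2))) F

/-- Reduction modulo `2` of a series over `ℤ`. -/
noncomputable def bar0 (f : PowerSeries ℤ) : PowerSeries (ZMod 2) :=
  PowerSeries.map (Int.castRingHom (ZMod 2)) f

/-- Only odd powers of `u`. -/
def OddU (F : PowerSeries (ZMod 2)[X]) : Prop := ∀ n k, Even k → (PowerSeries.coeff n F).coeff k = 0

/-- Only even powers of `u`. -/
def EvenU (F : PowerSeries (ZMod 2)[X]) : Prop := ∀ n k, Odd k → (PowerSeries.coeff n F).coeff k = 0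

/-- Polynomials in `z` over `𝔽₂`. -/
abbrev P2 : Type := Polynomial (ZMod 2)

/-- Power series in `z` over `𝔽₂`. -/
abbrev S2 : Type := PowerSeries (ZMod 2)

/-- The recursion of the dual sequence. -/
def Rec (μ : ℕ → S2) : Prop :=
  zz ^ 4 * μ 2 = μ 0 + 1 ∧ (∀ i : ℕ, 1 ≤ i → μ (2 * i - 1) = zz * μ (2 * i)) ∧
  ∀ i : ℕ, 1 ≤ i → μ (2 * i) + zz ^ 5 * μ (2 * i + 2) = zz * (μ i + μ (i - 1))

/-- The substitution of `z ^ n` for `y` in a power series in `y` over `𝔽₂⟦z⟧`. -/
noncomputable def ev (n : ℕ) (F : PowerSeries S2) : S2 :=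
  PowerSeries.mk fun m => ∑ j ∈ Finset.range (m + 1),
    if n * j ≤ m then PowerSeries.coeff (m - n * j) (PowerSeries.coeff j F) else 0

end Pool.Agent.Lib.MPba1bba.TR
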