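import Pool.Agent.Lib.MP_ba1bba_al.TR.Defs
import Pool.Agent.Lib.MP_ba1bba_al.Spec

/-!
# The growth series of `B(2,4)` is transcendental: Specs (proofs in the docstrings)

In a module with hypotheses `SpecX` write `theorem specNAME (hX : SpecX) ... : SpecNAME`.
The numbers are estimates of Lean lines. The final formula was checked by computer up to order 600.
`z = zz`, `u = uu`.
-/

namespace Pool.Agent.Lib.MPba1bba.TR

open Polynomial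

/-! ## A. The system for `p = m = 2` (all states are multisets of zeros) -/

/-- **BZ** [60], from BFN: `b_s` for `s = v` zeros is `2 dist(k, [0,v])`: the decompositions are
`a` zeros and `v - a` zeros, `0 ≤ a ≤ v`, with cost `2 |k - a|`. -/
def SpecBZ : Prop := ∀ (v : ℕ) (k : ℤ),
  bfun 2 (Multiset.replicate v 0) k = 2 * ((-k).toNat + (k - v).toNat)

/-- **LZ** [150], from BZ: `cmin`, `sml` (hence `lamB`) for `s = v` zeros. `v ≥ 1`: both classes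
meet `[0,v]`, so `cmin = 0`, and the increments in `(-2,2)` on the class of `r` are those between
consecutive elements of the class in `[0,v]` (the others are `≥ 2` in absolute value): `⌊v/2⌋` for
`r = 0`, `⌊(v-1)/2⌋` for `r = 1`. `v = 0`: `r = 0`: `0` and none, `r = 1`: minimum `2` at `±1`, one
zero increment. The set in the definition of `sml` is finite, `ncard` of an interval. -/
def SpecLZ : Prop :=
  (lamB 2 2 0 = PowerSeries.monomial 0 (AddMonoidAlgebra.single 0 (1 : ℤ)) +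
    PowerSeries.monomial 2 (AddMonoidAlgebra.single {0} (1 : ℤ))) ∧
  (∀ v : ℕ, 1 ≤ v → lamB 2 2 (Multiset.replicate v 0) =
    PowerSeries.monomial 0 (AddMonoidAlgebra.single (Multiset.replicate (v / 2) 0) (1 : ℤ)) +
    PowerSeries.monomial 0 (AddMonoidAlgebra.single (Multiset.replicate ((v - 1) / 2) 0) (1 : ℤ))) ∧
  serY 2 = PowerSeries.monomial 1 (AddMonoidAlgebra.single {0} (1 : ℤ))

/-- **FV** [200], from BZ, IC, EFN, EFF: the function `f_v = b_v □ e`. For `n = r + 2 l` one has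
`f_v(n) = min (b_v(n), 2 + min_i b_v(r + 2 i) + e(l - i))`: an optimal digit list for `e(n - j)` is
empty, or `[d]` (then the cost is `b_v(j) + 2|d| ≥ b_v(n)`, `b_v` is `2`-Lipschitz), or `d :: rest`
with `rest` nonempty, of cost `2|d| + 2 + dcost rest`, and `b_v(j) + 2|d| ≥ b_v(n - 2 dval rest)`; the
other inequality is clear from `e(2 k) ≤ 2 + e(k)`. Moreover `min_i b_v(r+2i) + e(l-i)
= c + f_w(l - y)` with (`c`, `w`, `y`) = (0, ⌊v/2⌋, 0) for `r = 0`; (0, ⌊(v-1)/2⌋, 0) for `r = 1`,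
`v ≥ 1`; (2, 1, -1) for `r = 1`, `v = 0`: `b_v(r + 2 ·) □ 2|·| = c + b_w(· - y)` (check both
inequalities by the formula BZ), and `2|·| □ e = e`. So with `g_v(n) := 2 + c + f_w(l - y)`:
`g_v(n) = 2` for `n` in `[0,v]` (there `f_v(n) = 0`), `g_v(-1) = g_v(v+1) = 4` (there `f_v = 2`), and
`f_v(n) = g_v(n)` otherwise (at distance `d ≥ 2` from `[0,v]`: `b_v(n) = 2d`, and
`g_v(n) ≤ 2 + b_v(n') + 2 s` with `n' = n ∓ 2 s` nearest, `≤ 2 d`). -/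
def SpecFV : Prop := ∃ g : ℕ → ℤ → ℕ,
  (∀ (v : ℕ) (n : ℤ), 0 ≤ n → n ≤ v → ic (bfun 2 (Multiset.replicate v 0)) (efun 2 2) n = 0 ∧
    g v n = 2) ∧
  (∀ (v : ℕ) (n : ℤ), (n = -1 ∨ n = v + 1) →
    ic (bfun 2 (Multiset.replicate v 0)) (efun 2 2) n = 2 ∧ g v n = 4) ∧
  (∀ (v : ℕ) (n : ℤ), (n < -1 ∨ v + 1 < n) →
    ic (bfun 2 (Multiset.replicate v 0)) (efun 2 2) n = g v n) ∧
  (∀ (v : ℕ) (l : ℤ), g v (2 * l) =
    2 + ic (bfun 2 (Multiset.replicate (v / 2) 0)) (efun 2 2) l) ∧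
  (∀ (v : ℕ) (l : ℤ), 1 ≤ v → g v (2 * l + 1) =
    2 + ic (bfun 2 (Multiset.replicate ((v - 1) / 2) 0)) (efun 2 2) l) ∧
  (∀ l : ℤ, g 0 (2 * l + 1) = 4 + ic (bfun 2 {0}) (efun 2 2) (l + 1))

/-- **PV** [150], from FV, EFF: the recursion of `P_v = ∑_k z^(f_v(k))`. All fibres are finite.
`card {k | f_v(k) = n} + card {k ∈ [-1,v+1] | g_v(k) = n} = card {k | g_v(k) = n} +
card {k ∈ [-1,v+1] | f_v(k) = n}`, and the fibre of `g_v` is the disjoint union over the parity of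
`k`. -/
def SpecPV : Prop :=
  RecP fun v => PowerSeries.mk fun n => (pcoef 2 2 (Multiset.replicate v 0) n : ℤ)

/-- **ZS** [250], from LZ: transport to `ℤ[u]⟦z⟧`. Let `ι : ℤ[u] →+* SR`, `u ↦ single {0} 1` (so
`u ^ v ↦ single (replicate v 0) 1`; injective), `j = PowerSeries.map ι`. By LZ
`lam 2 2 (j F) = j (LM F)`. By strong induction on the degree all coefficients of a solution
`Q, E, H` of `Sys 2 2` are in the range of `ι`: for `F` let `Z n F` be: the coefficients of degree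
`< n` are in the range; `Z n` is closed under sums, products, `lam 2 2`, and `Z n F → Z (n+1) (X F)`;
from `Z n` for `E`, `Q`, `H` get `Z (n+1)` (for `Q` from `serY 2 = X * C (ι u)`). So `Q = j Q'` etc.,
and `Sys2 Q' E' H'` by injectivity of `j`. For the last statement compare coefficients:
`psi 2 2 (j F) = psi2 P F` as `(ι p).sum f = p.sum (fun v => f (replicate v 0))`. -/
def SpecZS : Prop := ∀ Q E H : Ser, Sys 2 2 Q E H →
  ∃ Q' E' H' : PowerSeries ℤ[X], Sys2 Q' E' H' ∧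
    psi 2 2 (1 + E + 2 * H + Q * (1 + E + H) ^ 2) =
      psi2 (fun v => PowerSeries.mk fun n => (pcoef 2 2 (Multiset.replicate v 0) n : ℤ))
        (FF2 Q' E' H')

/-! ## B. Reduction modulo 4 -/

/-- **EV** [150]. Elementary facts: `LM` is additive, `z`-linear, commutes with reduction; values at
`u = 1` (coefficientwise; on monomials `u ^ v`: `2` and `v - 1` for `v ≥ 1`). -/
def SpecEV : Prop := ∀ (R : Type) [CommRing R],
  (∀ F G : PowerSeries R[X], LM (F + G) = LM F + LM G) ∧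
  (∀ F : PowerSeries R[X], LM (zz * F) = zz * LM F) ∧
  (∀ F : PowerSeries R[X], LM (-F) = -LM F) ∧
  (LM (1 : PowerSeries R[X]) = 1 + zz ^ 2 * uu) ∧
  (∀ v : ℕ, 1 ≤ v → LM (uu ^ v : PowerSeries R[X]) = uu ^ (v / 2) + uu ^ ((v - 1) / 2)) ∧
  (∀ F : PowerSeries R[X], ev1 (LM F) = 2 * ev1 F - (1 - zz ^ 2) * ev0 F) ∧
  (∀ F : PowerSeries R[X], dv1 (LM F) = dv1 F - ev1 F + (1 + zz ^ 2) * ev0 F) ∧
  (∀ F G : PowerSeries R[X], ev1 (F + G) = ev1 F + ev1 G ∧ ev1 (F * G) = ev1 F * ev1 G ∧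
    ev0 (F + G) = ev0 F + ev0 G ∧ ev0 (F * G) = ev0 F * ev0 G ∧
    dv1 (F + G) = dv1 F + dv1 G ∧ dv1 (F * G) = dv1 F * ev1 G + ev1 F * dv1 G) ∧
  (ev1 (1 : PowerSeries R[X]) = 1 ∧ ev0 (1 : PowerSeries R[X]) = 1 ∧
    dv1 (1 : PowerSeries R[X]) = 0 ∧ ev1 (zz : PowerSeries R[X]) = zz ∧
    ev0 (zz : PowerSeries R[X]) = zz ∧ dv1 (zz : PowerSeries R[X]) = 0 ∧
    ev1 (uu : PowerSeries R[X]) = 1 ∧ ev0 (uu : PowerSeries R[X]) = 0 ∧
    dv1 (uu : PowerSeries R[X]) = 1)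

/-- **BA** [60]. Reduction modulo `2`. -/
def SpecBA : Prop :=
  (∀ F G : PowerSeries ℤ[X], bar (F + G) = bar F + bar G ∧ bar (F * G) = bar F * bar G) ∧
  bar 1 = 1 ∧ bar zz = zz ∧ bar uu = uu ∧ (∀ F : PowerSeries ℤ[X], bar (LM F) = LM (bar F)) ∧
  (∀ F : PowerSeries ℤ[X], bar0 (ev0 F) = ev0 (bar F) ∧ bar0 (ev1 F) = ev1 (bar F) ∧
    bar0 (dv1 F) = dv1 (bar F)) ∧
  (∀ F : PowerSeries ℤ[X], bar F = 0 → ∃ G, F = 2 * G) ∧
  (∀ f : PowerSeries ℤ, bar0 f = 0 → ∃ g, f = 2 * g)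

/-- **PA** [120]. Parity in `u` (over `𝔽₂`). Squares are even: `(∑ a_{n,k} z^n u^k)^2 =
∑ a_{n,k}^2 z^(2n) u^(2k)` (`frobenius`, or: `expand_char`, or directly). The operator `LM` kills odd
series, as `u ^ v ↦ 2 u ^ ((v-1)/2)` for odd `v`. -/
def SpecPA : Prop :=
  (∀ F G, (EvenU F → EvenU G → EvenU (F + G) ∧ EvenU (F * G)) ∧
    (OddU F → OddU G → OddU (F + G) ∧ EvenU (F * G)) ∧ (OddU F → EvenU G → OddU (F * G))) ∧
  (∀ F : PowerSeries (ZMod 2)[X], EvenU (F ^ 2)) ∧ EvenU 1 ∧ EvenU zz ∧ OddU uu ∧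
  (∀ F, OddU F → LM F = 0 ∧ ev0 F = 0) ∧
  (∀ F G : PowerSeries (ZMod 2)[X], EvenU F → PowerSeries.constantCoeff F = 1 → OddU (F * G) →
    OddU G)

/-- **EM** [150], from EV, BA, PA. Modulo `2`: let `Q'` be the solution of
`(1 + z^5 u^2) Q' = z u` (odd, by PA) and `E' = z^4 u`. Then `1 + E' + Q' (1 + E')^2 = 1 + odd`, so
`z^2 (LM(..) - 1) = z^4 u = E'`; uniqueness: if `z^n ∣ bar E - E'` then `z^(n+1) ∣ bar Q - Q'`
(`(1 - z u E') (bar Q - Q') = z u (bar E - E') bar Q`), so `z^(n+2) ∣ bar E - E'`. The equation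
`H = z LM(A H + A (1 + E))`, `A = 1 + Q (1 + E)`, `A (1 + E) = 1 + E + Q (1 + E)^2 = 1 + odd`. The last
statement: `F - 1 = E + Q (1 + E + H)^2` is odd. -/
def SpecEM : Prop := ∀ Q E H : PowerSeries ℤ[X], Sys2 Q E H →
  bar E = zz ^ 4 * uu ∧ (1 + zz ^ 5 * uu ^ 2) * bar Q = zz * uu ∧
  (1 + zz ^ 5 * uu ^ 2) * (1 + bar Q * (1 + bar E)) = 1 + zz * uu ∧
  bar H = zz * LM ((1 + bar Q * (1 + bar E)) * bar H) + zz + zz ^ 3 * uu ∧
  OddU (bar (FF2 Q E H) - 1)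

/-- **KA** [200], from EV, BA, PA. Put `T_v = (1 - 2z²) P_v - (1 - 2z⁴) - (1 - 2z²) v`. Then
`T_v = z² (T_{v/2} + T_{(v-1)/2})` for `v ≥ 1` and `T_0 = z² T_0 + z⁴ T_1 - 2 z⁸` (direct computation
from RecP). So `T_v = -2 z⁸ κ_v`: all `T_v` are in the ideal `(2z⁸, z^n)` for every `n` (induction),
so the coefficients are even and vanish below `z⁸`; `κ_v = z² (κ_{v/2} + κ_{(v-1)/2})`,
`κ_0 = 1 + z² κ_0 + z⁴ κ_1`. Modulo `2`: `κ_v = 0` for odd `v` (then `v/2 = (v-1)/2`), so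
`(1 + z²) κ_0 = 1`. Put `κ = ∑ F_v κ_v`. -/
def SpecKA : Prop := ∀ P : ℕ → PowerSeries ℤ, RecP P → ∀ F : PowerSeries ℤ[X],
  ∃ κ : PowerSeries ℤ, (1 - 2 * zz ^ 2) * psi2 P F =
    (1 - 2 * zz ^ 4) * ev1 F + (1 - 2 * zz ^ 2) * dv1 F - 2 * zz ^ 8 * κ ∧
    (OddU (bar F - 1) → (1 + zz ^ 2) * bar0 κ = 1)

/-- **MO** [250], from EV, BA, EM, KA. Write `a = E(1)`, `a' = E'(1)`, `q, q', h, h'` for the values at
`u = 1` of `Q`, `H` and of their derivatives, `E_0, H_0` for the values at `u = 0` (`Q_0 = 0`),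
`r = 1 + a + q (1+a)²`, `r' = a' + q' (1+a)² + 2 q (1+a) a'`, `b = (1 + q (1+a)) (1+a+h)`,
`b' = (q' (1+a) + q a') (1+a+h) + (1 + q(1+a)) (a'+h')`, `f = F(1)`, `f' = F'(1)`. By EV:
`q = z + z a q`, `q' = z + z a q + z a' q + z a q'`, `a = z² (2r - (1-z²)(1+E_0) - 1)`,
`a' = z² (r' - r + (1+z²)(1+E_0))`, `h = z (2b - (1-z²)(1+E_0+H_0))`,
`h' = z (b' - b + (1+z²)(1+E_0+H_0))`. Modulo `2`: `a = a' = z⁴`, `E_0 = 0`, `T₁ q = z`, `T₁ q' = z`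
(`T₁ = 1+z⁵`). (1) `a + a' = z² (r + r' - 1 + 2 z² (1 + E_0))`, `a + a' = 2σ`;
`(1-za)² (r + r') = (1-za)(1+2z+za) + (a+a')(1+z)²`; so, dividing by `2`, modulo `2`:
`σ Δ² = z³(1+z⁴) T₁ + z⁴ T₁²`, `Δ = 1+z+z²+z⁵` (`Δ² = T₁² + z² + z⁴`). (2) `h = z(1+z²)(1+H_0)` and
`h' Δ = z T₁ + h (T₁ + z)` modulo `2`. (3) modulo `4`: `S = f + f' + 2 (z²+z⁴) f + 2 z⁸ κ` by KA,
`f + f' = 1 + (a+a') + 2(h+h') + (q+q') x² + 2 q x x'`, `x = 1+a+h`, `x' = a'+h'`, and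
`(1-za)(q+q') = 2z + z q (a+a')`, so `q + q' = 2 z (1 + qσ)/T₁` (in the sense `2 y`, `y` modulo `2`). -/
def SpecMO : Prop := ∀ (P : ℕ → PowerSeries ℤ) (Q E H : PowerSeries ℤ[X]), RecP P → Sys2 Q E H →
  ∃ S₁ : PowerSeries ℤ, psi2 P (FF2 Q E H) = 1 + 2 * S₁ ∧
    ∃ σ h h' κ : S2,
      σ * (1 + zz + zz ^ 2 + zz ^ 5) ^ 2 =
        zz ^ 3 * (1 + zz ^ 4) * (1 + zz ^ 5) + zz ^ 4 * (1 + zz ^ 5) ^ 2 ∧
      h = (zz + zz ^ 3) * (1 + ev0 (bar H)) ∧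
      h' * (1 + zz + zz ^ 2 + zz ^ 5) = zz * (1 + zz ^ 5) + h * (1 + zz ^ 5 + zz) ∧
      κ * (1 + zz ^ 2) = 1 ∧
      (1 + zz ^ 5) ^ 2 * bar0 S₁ = (1 + zz ^ 5) ^ 2 * (σ + h + h') +
        zz * (1 + zz ^ 5 + zz * σ) * (1 + zz ^ 4 + h) ^ 2 +
        zz * (1 + zz ^ 5) * (1 + zz ^ 4 + h) * (zz ^ 4 + h') +
        (zz ^ 2 + zz ^ 4) * ((1 + zz ^ 5) ^ 2 * (1 + zz ^ 4) +
          zz * (1 + zz ^ 5) * (1 + zz ^ 4 + h) ^ 2) +
        zz ^ 8 * (1 + zz ^ 5) ^ 2 * κ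

/-- **QU** [100]. Elimination (characteristic 2; multiply by `(1+z²) Δ²`). Only used with
`S₁, H₀` as below; the polynomial `C` is `z^6+z^10+z^11+z^12+z^13+z^15+z^16+z^18+z^19+z^21+z^22+z^23+
z^24+z^28`, `B` is `z^2+z^5+z^6+z^7+z^8+z^9+z^11+z^15+z^16+z^17+z^18+z^19+z^21+z^22`, and `A` is
`z^3+z^4+z^5+z^7+z^9+z^10+z^13+z^14+z^15+z^17+z^18+z^21+z^23+z^24+z^25+z^26`, with
`(1+z²)(1+z⁵)²Δ² S₁ = A + B H₀ + C H₀²` (checked by computer). -/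
def SpecQU : Prop := ∃ A B C D : P2, C ≠ 0 ∧ D ≠ 0 ∧ ∀ S₁ H₀ σ h h' κ : S2,
  σ * (1 + zz + zz ^ 2 + zz ^ 5) ^ 2 =
    zz ^ 3 * (1 + zz ^ 4) * (1 + zz ^ 5) + zz ^ 4 * (1 + zz ^ 5) ^ 2 →
  h = (zz + zz ^ 3) * (1 + H₀) →
  h' * (1 + zz + zz ^ 2 + zz ^ 5) = zz * (1 + zz ^ 5) + h * (1 + zz ^ 5 + zz) →
  κ * (1 + zz ^ 2) = 1 →
  (1 + zz ^ 5) ^ 2 * S₁ = (1 + zz ^ 5) ^ 2 * (σ + h + h') +
    zz * (1 + zz ^ 5 + zz * σ) * (1 + zz ^ 4 + h) ^ 2 +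
    zz * (1 + zz ^ 5) * (1 + zz ^ 4 + h) * (zz ^ 4 + h') +
    (zz ^ 2 + zz ^ 4) * ((1 + zz ^ 5) ^ 2 * (1 + zz ^ 4) +
      zz * (1 + zz ^ 5) * (1 + zz ^ 4 + h) ^ 2) +
    zz ^ 8 * (1 + zz ^ 5) ^ 2 * κ →
  algebraMap P2 S2 D * S₁ = algebraMap P2 S2 A + algebraMap P2 S2 B * H₀ +
    algebraMap P2 S2 C * H₀ ^ 2

/-- **RE** [120]. Reduction of algebraicity: clear denominators in a relation `p(s) = 0`,
`p ∈ ℚ[z][Y]`, `p ≠ 0`, to get `p ∈ ℤ[z][Y]`; then `p(1 + 2 Y)` is not zero; divide by the largest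
possible power of `2` (`ℤ⟦z⟧` has no `2`-torsion) and reduce modulo `2`. -/
def SpecRE : Prop := ∀ s t : PowerSeries ℤ, s = 1 + 2 * t →
  IsAlgebraic (Polynomial ℚ) (PowerSeries.map (Int.castRingHom ℚ) s) → IsAlgebraic P2 (bar0 t)

/-- **AL** [60]. If `D s = A + B h + C h²` with `C, D ≠ 0` and `s` is algebraic over `𝔽₂[z]` then so
is `h` (`h` is integral over `𝔽₂(z)(s)`; work in the fraction field of `𝔽₂⟦z⟧` or use
`IsAlgebraic` over `algebraicClosure P2 S2`; `S2` is a domain). -/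
def SpecAL : Prop := ∀ (A B C D : P2) (s h : S2), C ≠ 0 →
  algebraMap P2 S2 D * s = algebraMap P2 S2 A + algebraMap P2 S2 B * h +
    algebraMap P2 S2 C * h ^ 2 → IsAlgebraic P2 s → IsAlgebraic P2 h

/-! ## C. The dual sequence -/

/-- **DU** [250], from EV, PA. Put `T G = z LM(A G)`, where `(1 + z⁵u²) A = 1 + z u`. As
`T^n G ∈ z^n`, there is `L G = ∑_n ev0 (T^n G)` (coefficient `k`: the sum over `n ≤ k`); `L` is
additive, `L(z G) = z L(G)`, `L(G) = ev0 G + L(T G)`. `H = T H + z + z³u` gives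
`ev0 H = L(z + z³u) = z w_0 + z³ w_1`, `w_j := L(u^j)`. From `T(u^j) + z⁵ T(u^(j+2)) =
z LM(u^j + z u^(j+1))` and `LM(u^(2i)) = u^i + u^(i-1)` (`i ≥ 1`), `LM(odd) = 0`, `LM(1) = 1 + z²u`:
`w_(2i) + z⁵ w_(2i+2) = z (w_i + w_(i-1))`, `w_(2i-1) + z⁵ w_(2i+1) = z² (w_i + w_(i-1))` (`i ≥ 1`),
`w_0 + 1 + z⁵ w_2 = z w_0 + z³ w_1`. So `g_i := z w_(2i) + w_(2i-1)` satisfies `g_i = z⁵ g_(i+1)`, so
`g_i = 0` (divisible by all powers of `z`). With `w_1 = z w_2`: `(1+z) z⁴ w_2 = (1+z) w_0 + 1`. Put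
`μ_j = (1+z) w_j`. -/
def SpecDU : Prop := ∀ A H : PowerSeries (ZMod 2)[X], (1 + zz ^ 5 * uu ^ 2) * A = 1 + zz * uu →
  H = zz * LM (A * H) + zz + zz ^ 3 * uu →
  ∃ μ : ℕ → S2, Rec μ ∧ (1 + zz) * ev0 H = (1 + zz) * μ 0 + 1

/-! ## D. Mahler's method -/

/-- **GR** [120]. Growth: the coefficient of `z^k` in `μ_j` vanishes for `j > 2^(k+1) - 2` and is `1`
for `j = 2^(k+1) - 2` (strong induction on `k`, from the recursion). -/
def SpecGR : Prop := ∀ μ : ℕ → S2, Rec μ → ∀ k : ℕ,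
  (∀ j : ℕ, 2 ^ (k + 1) - 2 < j → PowerSeries.coeff k (μ j) = 0) ∧
  PowerSeries.coeff k (μ (2 ^ (k + 1) - 2)) = 1

/-- **EC** [200]. The substitution `y = z^n`, `n ≥ 1`. Multiplicativity: coefficients, or: modulo
`z^m` both sides are finite sums. Last item: if `y^m` is the exact power of `y` dividing `F`, take
`n` larger than the order of the coefficient of `y^m`. -/
def SpecEC : Prop :=
  (∀ n : ℕ, 1 ≤ n → (∀ F G : PowerSeries S2, ev n (F + G) = ev n F + ev n G ∧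
    ev n (F * G) = ev n F * ev n G) ∧ (∀ a : S2, ev n (PowerSeries.C a) = a) ∧
    ev n PowerSeries.X = zz ^ n ∧
    (∀ F : PowerSeries S2, ev (2 * n) (PowerSeries.mk fun j => (PowerSeries.coeff j F) ^ 2) =
      (ev n F) ^ 2) ∧
    (∀ (F : PowerSeries S2) (m : ℕ), PowerSeries.X ^ m ∣ F → zz ^ (n * m) ∣ ev n F)) ∧
  ∀ F : PowerSeries S2, F ≠ 0 → ∃ n₀ : ℕ, ∀ n ≥ n₀, ev n F ≠ 0

/-- **HG** [200], from EC. The values `M_k = M(z^(5·2^k))` of `M(y) = ∑ μ_j y^j`, `G(s) = ∑ μ_(2i) s^i`: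
the recursion gives `(s + z⁵)(G(s) + μ_0) = z s ((1 + s) M(s) + 1)` and
`y (M(y) + μ_0) = (y + z)(G(y²) + μ_0)` (as power series in `s`, `y`). At `s = z⁵`:
`(1 + z⁵) M_0 = 1` (characteristic 2). At `y = v_k := z^(5·2^k)`:
`z v_k (v_k + z)((1 + v_(k+1)) M_(k+1) + 1) = (v_(k+1) + z⁵)(M_k + μ_0)`. So put `γ_0 = 1 + z⁵`,
`α_0 = 0`, `β_0 = 1`, `γ_(k+1) = γ_k z v_k (v_k + z)(1 + v_(k+1))`,
`α_(k+1) = (v_(k+1) + z⁵)(α_k + γ_k)`, `β_(k+1) = (v_(k+1) + z⁵) β_k + γ_k z v_k (v_k + z)`;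
all degrees are `≤ 5 + k + 20·2^k ≤ 30·2^k`. (For `G(y²)` at `y = z^n`: `ev (2n) G`; or avoid it by
working with the formal series `∑ μ_(2i) y^(2i)`.) -/
def SpecHG : Prop := ∀ μ : ℕ → S2, Rec μ → ∃ α β γ : ℕ → P2, ∀ k : ℕ, γ k ≠ 0 ∧
  (α k).natDegree ≤ 30 * 2 ^ k ∧ (β k).natDegree ≤ 30 * 2 ^ k ∧ (γ k).natDegree ≤ 30 * 2 ^ k ∧
  algebraMap P2 S2 (γ k) * ev (5 * 2 ^ k) (PowerSeries.mk μ) =
    algebraMap P2 S2 (α k) * μ 0 + algebraMap P2 S2 (β k)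

/-- **IN** [200], from GR. Linear independence of `1` and the Frobenius twists of `M`. If all
`c i = 0` take `m` with `b m ≠ 0`. Else let `i₀` be the least `i` with `c i ≠ 0`, `e` the least
`z`-order of the `c i₀ j`, `j₀` the largest `j` such that the coefficient of `z^e` in `c i₀ j` is not
`0`. For `k` large take `m = j₀ + 2^(k+1) - 2` and the coefficient of `z^(e + k 2^i₀)`: `b m = 0`; the
coefficient of `z^n` in `μ_l^(2^i)` is that of `z^(n/2^i)` in `μ_l` if `2^i ∣ n`, and `0` otherwise; by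
GR the terms `i = i₀` contribute exactly `1` (from `j = j₀`), the terms `i > i₀` vanish, because
`2^(k+1) - 2 - N > 2^(e + k/2 + 1)`. -/
def SpecIN : Prop := ∀ μ : ℕ → S2, Rec μ → ∀ (s N : ℕ) (b : ℕ → P2) (c : Fin s → ℕ → P2),
  (∀ j, N < j → b j = 0) → (∀ i j, N < j → c i j = 0) → ((∃ j, b j ≠ 0) ∨ ∃ i j, c i j ≠ 0) →
  ∃ m : ℕ, algebraMap P2 S2 (b m) + ∑ i, ∑ x ∈ Finset.HasAntidiagonal.antidiagonal m,
    algebraMap P2 S2 (c i x.1) * (μ x.2) ^ (2 ^ (i : ℕ)) ≠ 0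

/-- **LI** [250]. Algebraic elements: Siegel's lemma and Liouville's inequality. Let `D ≥ 1` be the
least number such that `a μ₀^D` is in the `𝔽₂[z]`-span `V` of `1, μ₀, .., μ₀^(D-1)` for some `a ≠ 0`.
By minimality these are linearly independent; for every `T` there is `d ≠ 0` with `d T(μ₀) ∈ V`
(`a^t T(μ₀)`, `t ≥ deg T`). (1) After multiplication by a common denominator the equations are
`D M` linear equations over `𝔽₂[z]` for the `c j` (`LinearMap` from `J → P2` to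
`Fin M × Fin D → P2`, `card_le_of_injective`). (2) Let `A` be the matrix over `𝔽₂[z]` with
`a μ₀ e = A e`, `e = (1, .., μ₀^(D-1))`. Then `a^t T(μ₀) e = M e` with `M = ∑ T_l a^(t-l) A^l`, with
entries of degree `≤ H + e'`. If `det M ≠ 0` then `det M = a^t T(μ₀) (adj(M) e)_0` gives
`z^n ∣ det M`, of degree `≤ D (H + e') < n`, contradiction. If `det M = 0` there is `x ≠ 0` with
`x M = 0` (`Matrix.exists_vecMul_eq_zero_iff`), so `a^t T(μ₀) (x · e) = 0`, and `x · e ≠ 0`. -/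
def SpecLI : Prop := ∀ μ₀ : S2, IsAlgebraic P2 μ₀ → ∃ D : ℕ, 1 ≤ D ∧
  (∀ (J : Type) [Fintype J] (M : ℕ) (θ : Fin M → J → S2), D * M < Fintype.card J →
    (∀ m j, ∃ d : P2, d ≠ 0 ∧ ∃ T : Polynomial P2,
      algebraMap P2 S2 d * θ m j = aeval μ₀ T) →
    ∃ c : J → P2, c ≠ 0 ∧ ∀ m, ∑ j, algebraMap P2 S2 (c j) * θ m j = 0) ∧
  ∀ t : ℕ, ∃ e : ℕ, ∀ (T : Polynomial P2) (H : ℕ), T.natDegree ≤ t →
    (∀ l, (T.coeff l).natDegree ≤ H) → ∀ n : ℕ, D * H + e < n →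
      zz ^ n ∣ (aeval μ₀ T : S2) → aeval μ₀ T = (0 : S2)

/-- **RA** [60]. Every `μ_j` is, up to a nonzero factor in `𝔽₂[z]`, a polynomial (of degree `≤ 1`) in
`μ_0` (strong induction on `j`), so the same holds for the powers. -/
def SpecRA : Prop := ∀ μ : ℕ → S2, Rec μ → ∀ j e : ℕ, ∃ d : P2, d ≠ 0 ∧ ∃ T : Polynomial P2,
  algebraMap P2 S2 d * (μ j) ^ e = aeval (μ 0) T

/-- **MA** [250], from EC, HG, IN, LI, RA. Suppose `μ_0` is algebraic, `D` from LI. Put `s = D²`,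
`N = D (6D³ + 1)`, `M' = D N + 6D³ + 1`; then `D M' = (D² + 1) N < (s + 1)(N + 1)`. By LI (1) (index
set `Option (Fin s) × Fin (N+1)`, `θ m (none, j) = 1` if `j = m`, else `0`;
`θ m (some i, j) = μ_(m-j)^(2^i)` if `j ≤ m`, else `0`; RA) there are `b, c` as in IN, not all `0`, such
that the coefficients of `y^m`, `m < M'`, of
`F = ∑ b_j y^j + ∑_i (∑_j c_ij y^j) M^[i]`, `M^[i] = ∑ μ_j^(2^i) y^j`, vanish. By IN `F ≠ 0`. By EC for
all large `k`, with `n = 5·2^k`: `ev n F ≠ 0`, `z^(5·2^k M') ∣ ev n F`, and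
`ev n M^[i] = (ev (5·2^(k-i)) M)^(2^i)`. Multiply by `∏_i γ_(k-i)^(2^i)` and use HG: the product is
`aeval μ_0 T`, `deg T ≤ 2^s`, with coefficients of degree
`≤ 5 N 2^k + s·30·2^k + C`, `C` the maximal degree of the `b_j, c_ij`. As
`5·2^k M' > D (5 N 2^k + 30 D² 2^k + C) + e` for `k` large (`5 (6D³+1) > 30 D³`), LI (2) gives
`aeval μ_0 T = 0`, a contradiction. -/
def SpecMA : Prop := ∀ μ : ℕ → S2, Rec μ → ¬ IsAlgebraic P2 (μ 0)

end Pool.Agent.Lib.MPba1bba.TR
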