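import Pool.Agent.Lib.MP_ba1bba_al.TR.Spec
import Pool.Agent.Lib.MP_ba1bba_al.TR.Diag

/-!
# The growth series of `B(2,4)` modulo 4: Specs
-/

namespace Pool.Agent.Lib.MPba1bba.TR

open Polynomial

/-- **AUT** [150]. The easy direction of Christol's theorem for `𝔽₂`. Let `K` be the (finite) kernel,
`N` its number of elements, `t_f` the power series with coefficients `f`. For `f ∈ K` the sequences
`f 0 n = f (2 n)`, `f 1 n = f (2 n + 1)` are in `K`, and `t_f = t_(f 0) ^ 2 + z t_(f 1) ^ 2` (squares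
in `𝔽₂⟦z⟧`: `∑ a_n z^(2 n)`). So for all `m`, `t_f` is in the `𝔽₂[z]`-span of the `t_g ^ (2 ^ m)`,
`g ∈ K`, and `t ^ (2 ^ i)`, `i ≤ N`, is in the span of the `N` elements `t_g ^ (2 ^ N)` (induction;
Frobenius). So there are `c i ∈ 𝔽₂[z]`, `i = 0, .., N`, not all zero, with
`∑ c i t ^ (2 ^ i) = 0` (`LinearMap` from `Fin (N + 1) → P2` to `K → P2`, `card_le_of_injective`; cf.
LI.lean). -/
def SpecAUT : Prop := ∀ t : S2, (ker2 fun n => PowerSeries.coeff n t).Finite → IsAlgebraic P2 t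

/-- **DIA** [250]. Diagonals of rational functions modulo 4 (Denef, Lipshitz). (1) Let
`Q F = P`, `Q ≠ 0`. Dividing `Q` and `P` by a power of `2` (`F` has integral coefficients) we may
assume that `Q` is not `0` modulo `2`. (2) Over `ZMod 4`: `Q G = 0` implies `G = 0` for
power series `G` (modulo `2` first: `MvPowerSeries` over a domain is a domain; then `G = 2 G'`).
(3) `Q ^ 4 = (expand 2 Q) ^ 2` over `ZMod 4`: over `ℤ`, `Q ^ 2 = expand 2 Q + 2 H`
(`MvPolynomial.expand_zmod`, `MvPolynomial.C_dvd_iff_zmod`). (4) For `r < 2` let `Λ_r G` have the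
coefficients `m ↦ coeff (2 m + (r, .., r)) G`; for a polynomial `B`:
`Λ_r ((expand 2 B) G) = B (Λ_r G)`; `diag (Λ_r G) n = diag G (2 n + r)`. (5) Let `D` be a bound for the
degrees of `P`, `Q` in each variable and `V` the set of all `G` over `ZMod 4` with `Q ^ 2 G = A`, `A` a
polynomial of degree `≤ 2 D` in each variable. `V` is finite by (2), `F ∈ V` (`A = P Q`), and
`Λ_r V ⊆ V`: `Q ^ 4 G = Q ^ 2 A`, so `Q ^ 2 (Λ_r G) = Λ_r (Q ^ 2 A)`, of degree `≤ (2 D + 2 D) / 2`. So the
kernel is contained in the set of the sequences `diag G`, `G ∈ V`. -/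
def SpecDIA : Prop := ∀ (d : ℕ) (F : MvPowerSeries (Fin d) ℤ), IsRational F →
  (ker2 fun n => ((diag F n : ℤ) : ZMod 4)).Finite

end Pool.Agent.Lib.MPba1bba.TR
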